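import Mathlib

/-! Weak representations of the Lyndon algebra `L(m,0)` as labelled complete graphs. -/

namespace Pool.MP24331d

/-- Atoms of `L(m,0)`: `none` is the identity, `some i` is `a_i`. -/
abbrev At (m : ℕ) := Option (Fin (m + 1))

/-- `cyc x y z` : the atom `z` is below `x ; y`. -/
def cyc {m : ℕ} : At m → At m → At m → Prop
  | none, y, z => z = y
  | some i, none, z => z = some i
  | some i, some j, none => i = j
  | some i, some j, some k => if i = j then k = i else (k ≠ i ∧ k ≠ j)

/-- Composition of sets of atoms. -/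
def comp {m : ℕ} (S T : Set (At m)) : Set (At m) := {z | ∃ x ∈ S, ∃ y ∈ T, cyc x y z}

/-- The labelled graph of a weak representation: `lab u v` is the least element of the algebra
whose relation contains `(u,v)`. -/
structure WRep (m : ℕ) (D : Type*) where
  lab : D → D → Set (At m)
  ne : ∀ u v, (lab u v).Nonempty
  symm : ∀ u v, lab u v = lab v u
  refl : ∀ u, lab u u = {none}
  eq_of : ∀ u v, lab u v ⊆ {none} → u = v
  pc : ∀ u v w, lab u w ⊆ comp (lab u v) (lab v w)
  ex : ∀ u v S T, lab u v ⊆ comp S T → ∃ w, lab u w ⊆ S ∧ lab w v ⊆ T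

namespace WRep

variable {m : ℕ} {D : Type*} (W : WRep m D)

/-- collinear in class `a` (or equal) -/
def Col (a : Fin (m + 1)) (u v : D) : Prop := W.lab u v ⊆ {none, some a}
/-- `a` is not a possible label of `(u,v)` -/
def NT (a : Fin (m + 1)) (u v : D) : Prop := some a ∉ W.lab u v
/-- `u`, `v` are never equal -/
def NE (u v : D) : Prop := none ∉ W.lab u v
/-- on a common `a`-line and never equal -/
def Far (a : Fin (m + 1)) (u v : D) : Prop := W.lab u v ⊆ {some a}
def Two (a b : Fin (m + 1)) (u v : D) : Prop := W.lab u v ⊆ {some a, some b}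
def TwoE (a b : Fin (m + 1)) (u v : D) : Prop := W.lab u v ⊆ {none, some a, some b}

end WRep

end Pool.MP24331d
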