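import Mathlib
import Pool.Agent.Lib.MP_24331d_lc.Base

section

/-! Block calculus: five distinguished classes `f 0, ..., f 4`, the identity and the rest. -/

namespace Pool.MP24331d

/-- block of an atom: 0 identity, `i+1` for the class `f i`, 6 for all other classes -/
def blk {m : ℕ} (f : Fin 5 → Fin (m + 1)) : At m → ℕ
  | none => 0
  | some i => if i = f 0 then 1 else if i = f 1 then 2 else if i = f 2 then 3 else
      if i = f 3 then 4 else if i = f 4 then 5 else 6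

/-- composition of two blocks, as a bit mask -/
def cm (a b : ℕ) : ℕ :=
  if a = 0 then 1 <<< b else if b = 0 then 1 <<< a else
    if a = 6 then (if b = 6 then 127 else 126 ^^^ (1 <<< b)) else
      if b = 6 then 126 ^^^ (1 <<< a) else
        if a = b then 1 ||| (1 <<< a) else (126 ^^^ (1 <<< a)) ^^^ (1 <<< b)

/-- upper bound check for compositions of masks -/
def pcOK (S T R : ℕ) : Bool :=
  (List.range 7).all fun a => !(S.testBit a) || (List.range 7).all fun b =>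
    !(T.testBit b) || (List.range 7).all fun c => !((cm a b).testBit c) || R.testBit c

/-- lower bound check for compositions of masks -/
def exOK (S X Y : ℕ) : Bool :=
  (List.range 7).all fun c => !(S.testBit c) || (List.range 7).any fun a =>
    X.testBit a && (List.range 7).any fun b => Y.testBit b && (cm a b).testBit c

/-- Good choices of distinguished classes: distinct, and at least two classes are left over. -/
structure GoodF {m : ℕ} (f : Fin 5 → Fin (m + 1)) : Prop where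
  inj : Function.Injective f
  rest : ∃ r s, r ≠ s ∧ (∀ i, r ≠ f i) ∧ (∀ i, s ≠ f i)

theorem blk_lt {m : ℕ} (f : Fin 5 → Fin (m + 1)) (x : At m) : blk f x < 7 := by
  rcases x with _ | i
  · simp [blk]
  · simp only [blk]; split_ifs <;> omega

theorem blk_f {m : ℕ} {f : Fin 5 → Fin (m + 1)} (hf : GoodF f) (i : Fin 5) :
    blk f (some (f i)) = (i : ℕ) + 1 := by
  have h : ∀ {a b : Fin 5}, a ≠ b → f a ≠ f b := fun hab h' => hab (hf.inj h')
  match i with
  | 0 => simp [blk]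
  | 1 => simp [blk, h (show (1 : Fin 5) ≠ 0 by decide)]
  | 2 => simp [blk, h (show (2 : Fin 5) ≠ 0 by decide), h (show (2 : Fin 5) ≠ 1 by decide)]
  | 3 => simp [blk, h (show (3 : Fin 5) ≠ 0 by decide), h (show (3 : Fin 5) ≠ 1 by decide),
      h (show (3 : Fin 5) ≠ 2 by decide)]
  | 4 => simp [blk, h (show (4 : Fin 5) ≠ 0 by decide), h (show (4 : Fin 5) ≠ 1 by decide),
      h (show (4 : Fin 5) ≠ 2 by decide), h (show (4 : Fin 5) ≠ 3 by decide)]

theorem blk_rest {m : ℕ} {f : Fin 5 → Fin (m + 1)} {r : Fin (m + 1)} (hr : ∀ i, r ≠ f i) :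
    blk f (some r) = 6 := by
  simp only [blk]
  rw [if_neg (hr 0), if_neg (hr 1), if_neg (hr 2), if_neg (hr 3), if_neg (hr 4)]

/-- every class is a distinguished one or a rest class -/
theorem cases_cls {m : ℕ} (f : Fin 5 → Fin (m + 1)) (r : Fin (m + 1)) :
    (∃ i, r = f i) ∨ ∀ i, r ≠ f i := by
  by_cases h : ∃ i, r = f i
  · exact Or.inl h
  · exact Or.inr (fun i hi => h ⟨i, hi⟩)

theorem cm3 : ∀ a b c : Fin 5, a ≠ b → c ≠ a → c ≠ b →
    (cm ((a : ℕ) + 1) ((b : ℕ) + 1)).testBit ((c : ℕ) + 1) = true := by decide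
theorem cm_abr : ∀ a b : Fin 5, a ≠ b → (cm ((a : ℕ) + 1) ((b : ℕ) + 1)).testBit 6 = true := by
  decide
theorem cm_arc : ∀ a c : Fin 5, c ≠ a → (cm ((a : ℕ) + 1) 6).testBit ((c : ℕ) + 1) = true := by
  decide
theorem cm_rbc : ∀ b c : Fin 5, c ≠ b → (cm 6 ((b : ℕ) + 1)).testBit ((c : ℕ) + 1) = true := by
  decide
theorem cm_arr : ∀ a : Fin 5, (cm ((a : ℕ) + 1) 6).testBit 6 = true := by decide
theorem cm_rbr : ∀ b : Fin 5, (cm 6 ((b : ℕ) + 1)).testBit 6 = true := by decide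
theorem cm_rrc : ∀ c : Fin 5, (cm 6 6).testBit ((c : ℕ) + 1) = true := by decide
theorem cm_aae : ∀ a : Fin 5, (cm ((a : ℕ) + 1) ((a : ℕ) + 1)).testBit 0 = true := by decide
theorem cm_aaa : ∀ a : Fin 5, (cm ((a : ℕ) + 1) ((a : ℕ) + 1)).testBit ((a : ℕ) + 1) = true := by
  decide

theorem cm_sound {m : ℕ} {f : Fin 5 → Fin (m + 1)} (hf : GoodF f) {x y z : At m}
    (h : cyc x y z) : (cm (blk f x) (blk f y)).testBit (blk f z) = true := by
  have h0 : blk f (none : At m) = 0 := rfl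
  rcases x with _ | i
  · have hz : z = y := by simpa [cyc] using h
    subst hz
    rw [h0]
    simp [cm, Nat.testBit_shiftLeft]
  · rcases y with _ | j
    · have hz : z = some i := by simpa [cyc] using h
      subst hz
      rw [h0]
      have hi : blk f (some i) ≠ 0 := by
        simp only [blk]; split_ifs <;> omega
      simp [cm, hi, Nat.testBit_shiftLeft]
    · rcases z with _ | k
      · have hij : i = j := by simpa [cyc] using h
        subst hij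
        rcases cases_cls f i with ⟨a, rfl⟩ | hi
        · rw [blk_f hf a, h0]; exact cm_aae a
        · rw [blk_rest hi, h0]; decide
      · by_cases hij : i = j
        · subst hij
          have hk : k = i := by simpa [cyc] using h
          subst hk
          rcases cases_cls f k with ⟨a, rfl⟩ | hi
          · rw [blk_f hf a]; exact cm_aaa a
          · rw [blk_rest hi]; decide
        · have hk : k ≠ i ∧ k ≠ j := by simpa [cyc, hij] using h
          obtain ⟨hki, hkj⟩ := hk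
          rcases cases_cls f i with ⟨a, rfl⟩ | hi <;> rcases cases_cls f j with ⟨b, rfl⟩ | hj <;>
            rcases cases_cls f k with ⟨c, rfl⟩ | hk
          · rw [blk_f hf a, blk_f hf b, blk_f hf c]
            exact cm3 a b c (fun h => hij (by rw [h])) (fun h => hki (by rw [h]))
              (fun h => hkj (by rw [h]))
          · rw [blk_f hf a, blk_f hf b, blk_rest hk]
            exact cm_abr a b (fun h => hij (by rw [h]))
          · rw [blk_f hf a, blk_rest hj, blk_f hf c]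
            exact cm_arc a c (fun h => hki (by rw [h]))
          · rw [blk_f hf a, blk_rest hj, blk_rest hk]; exact cm_arr a
          · rw [blk_rest hi, blk_f hf b, blk_f hf c]
            exact cm_rbc b c (fun h => hkj (by rw [h]))
          · rw [blk_rest hi, blk_f hf b, blk_rest hk]; exact cm_rbr b
          · rw [blk_rest hi, blk_rest hj, blk_f hf c]; exact cm_rrc c
          · rw [blk_rest hi, blk_rest hj, blk_rest hk]; decide

/-- atoms of a given block -/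
theorem blk_eq {m : ℕ} {f : Fin 5 → Fin (m + 1)} (hf : GoodF f) {x : At m} :
    (x = none ∧ blk f x = 0) ∨ (∃ a : Fin 5, x = some (f a) ∧ blk f x = (a : ℕ) + 1) ∨
      (∃ r, x = some r ∧ (∀ i, r ≠ f i) ∧ blk f x = 6) := by
  rcases x with _ | i
  · exact Or.inl ⟨rfl, rfl⟩
  · rcases cases_cls f i with ⟨a, rfl⟩ | hi
    · exact Or.inr (Or.inl ⟨a, rfl, blk_f hf a⟩)
    · exact Or.inr (Or.inr ⟨i, rfl, hi, blk_rest hi⟩)

theorem lb_rr : ∀ a : Fin 5, ∀ c : Fin 5, (cm ((a : ℕ) + 1) ((a : ℕ) + 1)).testBit ((c : ℕ) + 1) = true →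
    c = a := by decide
theorem lb_aar : ∀ a : Fin 5, (cm ((a : ℕ) + 1) ((a : ℕ) + 1)).testBit 6 = false := by decide
theorem lb_abe : ∀ a b : Fin 5, a ≠ b → (cm ((a : ℕ) + 1) ((b : ℕ) + 1)).testBit 0 = false := by
  decide
theorem lb_aba : ∀ a b c : Fin 5, a ≠ b → (cm ((a : ℕ) + 1) ((b : ℕ) + 1)).testBit ((c : ℕ) + 1) = true →
    c ≠ a ∧ c ≠ b := by decide
theorem lb_are : ∀ a : Fin 5, (cm ((a : ℕ) + 1) 6).testBit 0 = false := by decide
theorem lb_arc : ∀ a c : Fin 5, (cm ((a : ℕ) + 1) 6).testBit ((c : ℕ) + 1) = true → c ≠ a := by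
  decide
theorem lb_rae : ∀ a : Fin 5, (cm 6 ((a : ℕ) + 1)).testBit 0 = false := by decide
theorem lb_rac : ∀ a c : Fin 5, (cm 6 ((a : ℕ) + 1)).testBit ((c : ℕ) + 1) = true → c ≠ a := by
  decide
theorem lb_ae : ∀ (a : Fin 5) (n : Fin 7), (cm ((a : ℕ) + 1) 0).testBit n = true →
    (n : ℕ) = (a : ℕ) + 1 := by decide
theorem lb_ea : ∀ (b : Fin 7) (n : Fin 7), (cm 0 b).testBit n = true → (n : ℕ) = b := by decide
theorem lb_re : ∀ (n : Fin 7), (cm 6 0).testBit n = true → (n : ℕ) = 6 := by decide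

theorem cm_lower {m : ℕ} {f : Fin 5 → Fin (m + 1)} (hf : GoodF f) {z : At m} {a b : ℕ}
    (ha : a < 7) (hb : b < 7) (h : (cm a b).testBit (blk f z) = true) :
    ∃ x y : At m, blk f x = a ∧ blk f y = b ∧ cyc x y z := by
  obtain ⟨r, s, hrs, hr, hs⟩ := hf.rest
  have h0 : blk f (none : At m) = 0 := rfl
  have hz7 := blk_lt f z
  -- case a = 0
  rcases Nat.eq_zero_or_pos a with rfl | ha0
  · have := lb_ea ⟨b, hb⟩ ⟨blk f z, hz7⟩ h
    exact ⟨none, z, rfl, this, by rcases z with _ | k <;> simp [cyc]⟩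
  rcases Nat.eq_zero_or_pos b with rfl | hb0
  · refine ⟨z, none, ?_, rfl, ?_⟩
    · by_cases h6 : a = 6
      · subst h6; exact lb_re ⟨blk f z, hz7⟩ h
      · obtain ⟨a', rfl⟩ : ∃ a' : Fin 5, a = (a' : ℕ) + 1 := ⟨⟨a - 1, by omega⟩, by simp; omega⟩
        exact lb_ae a' ⟨blk f z, hz7⟩ h
    · rcases z with _ | k
      · exfalso
        rw [h0] at h
        by_cases h6 : a = 6
        · subst h6; revert h; decide
        · obtain ⟨a', rfl⟩ : ∃ a' : Fin 5, a = (a' : ℕ) + 1 := ⟨⟨a - 1, by omega⟩, by simp; omega⟩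
          have := lb_ae a' 0 h
          simp at this
      · simp [cyc]
  by_cases ha6 : a = 6
  · subst ha6
    by_cases hb6 : b = 6
    · subst hb6
      rcases blk_eq hf (x := z) with ⟨rfl, -⟩ | ⟨c, rfl, hc⟩ | ⟨k, rfl, hk, -⟩
      · exact ⟨some r, some r, blk_rest hr, blk_rest hr, by simp [cyc]⟩
      · exact ⟨some r, some s, blk_rest hr, blk_rest hs, by
          simp [cyc, hrs, (hr c).symm, (hs c).symm]⟩
      · exact ⟨some k, some k, blk_rest hk, blk_rest hk, by simp [cyc]⟩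
    · obtain ⟨b', rfl⟩ : ∃ b' : Fin 5, b = (b' : ℕ) + 1 := ⟨⟨b - 1, by omega⟩, by simp; omega⟩
      rcases blk_eq hf (x := z) with ⟨rfl, -⟩ | ⟨c, rfl, hc⟩ | ⟨k, rfl, hk, -⟩
      · rw [h0, lb_rae] at h; exact absurd h (by decide)
      · rw [hc] at h
        have hcb := lb_rac b' c h
        refine ⟨some r, some (f b'), blk_rest hr, blk_f hf b', ?_⟩
        have h1 : f c ≠ f b' := fun h => hcb (hf.inj h)
        simp [cyc, hr b', (hr c).symm, h1]
      · -- choose a rest class different from k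
        by_cases hkr : k = r
        · subst hkr
          exact ⟨some s, some (f b'), blk_rest hs, blk_f hf b', by
            simp [cyc, hs b', hrs, hk b']⟩
        · exact ⟨some r, some (f b'), blk_rest hr, blk_f hf b', by
            simp [cyc, hr b', hkr, hk b']⟩
  · obtain ⟨a', rfl⟩ : ∃ a' : Fin 5, a = (a' : ℕ) + 1 := ⟨⟨a - 1, by omega⟩, by simp; omega⟩
    by_cases hb6 : b = 6
    · subst hb6
      rcases blk_eq hf (x := z) with ⟨rfl, -⟩ | ⟨c, rfl, hc⟩ | ⟨k, rfl, hk, -⟩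
      · rw [h0, lb_are] at h; exact absurd h (by decide)
      · rw [hc] at h
        have hca := lb_arc a' c h
        refine ⟨some (f a'), some r, blk_f hf a', blk_rest hr, ?_⟩
        have h1 : f c ≠ f a' := fun h => hca (hf.inj h)
        simp [cyc, (hr a').symm, (hr c).symm, h1]
      · by_cases hkr : k = r
        · subst hkr
          exact ⟨some (f a'), some s, blk_f hf a', blk_rest hs, by
            simp [cyc, (hs a').symm, hrs, hk a']⟩
        · exact ⟨some (f a'), some r, blk_f hf a', blk_rest hr, by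
            simp [cyc, (hr a').symm, hkr, hk a']⟩
    · obtain ⟨b', rfl⟩ : ∃ b' : Fin 5, b = (b' : ℕ) + 1 := ⟨⟨b - 1, by omega⟩, by simp; omega⟩
      by_cases hab : a' = b'
      · subst hab
        refine ⟨some (f a'), some (f a'), blk_f hf a', blk_f hf a', ?_⟩
        rcases blk_eq hf (x := z) with ⟨rfl, -⟩ | ⟨c, rfl, hc⟩ | ⟨k, rfl, hk, hk6⟩
        · simp [cyc]
        · rw [hc] at h
          have := lb_rr a' c h
          subst this; simp [cyc]
        · rw [hk6, lb_aar] at h; exact absurd h (by decide)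
      · have hne : f a' ≠ f b' := fun h => hab (hf.inj h)
        refine ⟨some (f a'), some (f b'), blk_f hf a', blk_f hf b', ?_⟩
        rcases blk_eq hf (x := z) with ⟨rfl, -⟩ | ⟨c, rfl, hc⟩ | ⟨k, rfl, hk, hk6⟩
        · rw [h0, lb_abe a' b' hab] at h; exact absurd h (by decide)
        · rw [hc] at h
          obtain ⟨h1, h2⟩ := lb_aba a' b' c hab h
          have h1' : f c ≠ f a' := fun h => h1 (hf.inj h)
          have h2' : f c ≠ f b' := fun h => h2 (hf.inj h)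
          simp [cyc, hne, h1', h2']
        · simp [cyc, hne, hk a', hk b']

theorem pcOK_spec {S T R : ℕ} (h : pcOK S T R = true) {a b c : ℕ} (ha : a < 7) (hb : b < 7)
    (hc : c < 7) (hS : S.testBit a = true) (hT : T.testBit b = true)
    (hab : (cm a b).testBit c = true) : R.testBit c = true := by
  simp only [pcOK, List.all_eq_true, List.mem_range, Bool.or_eq_true, 
    Bool.not_eq_eq_eq_not, Bool.not_true] at h
  rcases h a ha with h1 | h1
  · rw [h1] at hS; exact absurd hS (by decide)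
  rcases h1 b hb with h2 | h2
  · rw [h2] at hT; exact absurd hT (by decide)
  rcases h2 c hc with h3 | h3
  · rw [h3] at hab; exact absurd hab (by decide)
  exact h3

theorem exOK_spec {S X Y : ℕ} (h : exOK S X Y = true) {c : ℕ} (hc : c < 7)
    (hS : S.testBit c = true) : ∃ a b, a < 7 ∧ b < 7 ∧ X.testBit a = true ∧ Y.testBit b = true ∧
      (cm a b).testBit c = true := by
  simp only [exOK, List.all_eq_true, List.mem_range, Bool.or_eq_true, 
    Bool.not_eq_eq_eq_not, Bool.not_true, List.any_eq_true, Bool.and_eq_true] at h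
  rcases h c hc with h1 | ⟨a, ha, hX, b, hb, hY, hab⟩
  · rw [h1] at hS; exact absurd hS (by decide)
  · exact ⟨a, b, ha, hb, hX, hY, hab⟩

namespace WRep

variable {m : ℕ} {D : Type*} (W : WRep m D) (f : Fin 5 → Fin (m + 1))

/-- the label of `(u,v)` consists of atoms whose blocks are in the mask `S` -/
def Le (S : ℕ) (u v : D) : Prop := ∀ x ∈ W.lab u v, S.testBit (blk f x) = true

variable {W f}

theorem Le.sy {S : ℕ} {u v : D} (h : W.Le f S u v) : W.Le f S v u := by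
  intro x hx; rw [W.symm] at hx; exact h x hx

theorem Le.an {S T : ℕ} (R : ℕ) {u v : D} (h : W.Le f S u v) (h' : W.Le f T u v)
    (hR : Nat.land S T = R) : W.Le f R u v := by
  intro x hx
  have : (S &&& T).testBit (blk f x) = true := by
    rw [Nat.testBit_and, h x hx, h' x hx]; rfl
  rw [← hR]; exact this

theorem Le.pc (hf : GoodF f) {S T : ℕ} (R : ℕ) {u v w : D} (h : W.Le f S u v)
    (h' : W.Le f T v w) (hR : pcOK S T R = true) : W.Le f R u w := by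
  intro z hz
  obtain ⟨x, hx, y, hy, hc⟩ := W.pc u v w hz
  exact pcOK_spec hR (blk_lt f x) (blk_lt f y) (blk_lt f z) (h x hx) (h' y hy) (cm_sound hf hc)

theorem Le.ex (hf : GoodF f) {S : ℕ} (X Y : ℕ) {u v : D} (h : W.Le f S u v)
    (hR : exOK S X Y = true) : ∃ w, W.Le f X u w ∧ W.Le f Y w v := by
  obtain ⟨w, h1, h2⟩ := W.ex u v {x | X.testBit (blk f x) = true} {y | Y.testBit (blk f y) = true}
    (by
      intro z hz
      obtain ⟨a, b, ha, hb, hX, hY, hab⟩ := exOK_spec hR (blk_lt f z) (h z hz)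
      obtain ⟨x, y, hx, hy, hc⟩ := cm_lower hf ha hb hab
      exact ⟨x, by simpa [hx] using hX, y, by simpa [hy] using hY, hc⟩)
  exact ⟨w, fun x hx => h1 hx, fun x hx => h2 hx⟩

theorem Le.rf (u : D) : W.Le f 1 u u := by
  intro x hx
  rw [W.refl] at hx
  have : x = none := hx
  subst this
  show Nat.testBit 1 0 = true
  decide

theorem Le.top (u v : D) : W.Le f 127 u v := by
  intro x _
  have := blk_lt f x
  interval_cases blk f x <;> decide

/-- all bits of `S` are in the list `l` -/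
def subOK (S : ℕ) (l : List ℕ) : Bool := (List.range 7).all fun b => !(S.testBit b) || l.contains b

/-- all bits outside `l` are in `R` -/
def supOK (R : ℕ) (l : List ℕ) : Bool := (List.range 7).all fun b => R.testBit b || l.contains b

theorem subOK_spec {S : ℕ} {l : List ℕ} (h : subOK S l = true) {b : ℕ} (hb : b < 7)
    (hS : S.testBit b = true) : b ∈ l := by
  simp only [subOK, List.all_eq_true, List.mem_range, Bool.or_eq_true,
    Bool.not_eq_eq_eq_not, Bool.not_true, List.contains_iff_mem] at h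
  rcases h b hb with h1 | h1
  · rw [h1] at hS; exact absurd hS (by decide)
  · exact h1

theorem supOK_spec {R : ℕ} {l : List ℕ} (h : supOK R l = true) {b : ℕ} (hb : b < 7)
    (hl : b ∉ l) : R.testBit b = true := by
  simp only [supOK, List.all_eq_true, List.mem_range, Bool.or_eq_true,
    List.contains_iff_mem] at h
  rcases h b hb with h1 | h1
  · exact h1
  · exact absurd h1 hl

theorem eq_none_of_blk {m : ℕ} {f : Fin 5 → Fin (m + 1)} (hf : GoodF f) {x : At m}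
    (h : blk f x = 0) : x = none := by
  rcases blk_eq hf (x := x) with ⟨h1, -⟩ | ⟨a, -, h1⟩ | ⟨r, -, -, h1⟩
  · exact h1
  · omega
  · omega

theorem eq_some_of_blk {m : ℕ} {f : Fin 5 → Fin (m + 1)} (hf : GoodF f) {x : At m} (i : Fin 5)
    (h : blk f x = (i : ℕ) + 1) : x = some (f i) := by
  rcases blk_eq hf (x := x) with ⟨-, h1⟩ | ⟨a, h0, h1⟩ | ⟨r, -, -, h1⟩
  · omega
  · have : a = i := Fin.ext (by omega)
    rw [h0, this]
  · have := i.2; omega

theorem Le.toCol (hf : GoodF f) (i : Fin 5) {S : ℕ} {u v : D} (h : W.Le f S u v)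
    (hS : subOK S [0, (i : ℕ) + 1] = true) : W.Col (f i) u v := by
  intro x hx
  have := subOK_spec hS (blk_lt f x) (h x hx)
  simp only [List.mem_cons, List.not_mem_nil, or_false] at this
  rcases this with h1 | h1
  · left; exact eq_none_of_blk hf h1
  · right; exact eq_some_of_blk hf i h1

theorem Le.toFar (hf : GoodF f) (i : Fin 5) {S : ℕ} {u v : D} (h : W.Le f S u v)
    (hS : subOK S [(i : ℕ) + 1] = true) : W.Far (f i) u v := by
  intro x hx
  have := subOK_spec hS (blk_lt f x) (h x hx)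
  simp only [List.mem_cons, List.not_mem_nil, or_false] at this
  exact eq_some_of_blk hf i this

theorem Le.toTwo (hf : GoodF f) (i j : Fin 5) {S : ℕ} {u v : D} (h : W.Le f S u v)
    (hS : subOK S [(i : ℕ) + 1, (j : ℕ) + 1] = true) : W.Two (f i) (f j) u v := by
  intro x hx
  have := subOK_spec hS (blk_lt f x) (h x hx)
  simp only [List.mem_cons, List.not_mem_nil, or_false] at this
  rcases this with h1 | h1
  · left; exact eq_some_of_blk hf i h1
  · right; exact eq_some_of_blk hf j h1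

theorem Le.toTwoE (hf : GoodF f) (i j : Fin 5) {S : ℕ} {u v : D} (h : W.Le f S u v)
    (hS : subOK S [0, (i : ℕ) + 1, (j : ℕ) + 1] = true) : W.TwoE (f i) (f j) u v := by
  intro x hx
  have := subOK_spec hS (blk_lt f x) (h x hx)
  simp only [List.mem_cons, List.not_mem_nil, or_false] at this
  rcases this with h1 | h1 | h1
  · left; exact eq_none_of_blk hf h1
  · right; left; exact eq_some_of_blk hf i h1
  · right; right; exact eq_some_of_blk hf j h1

theorem Le.toNT (hf : GoodF f) (i : Fin 5) {S : ℕ} {u v : D} (h : W.Le f S u v)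
    (hS : S.testBit ((i : ℕ) + 1) = false) : W.NT (f i) u v := by
  intro hx
  have := h _ hx
  rw [blk_f hf i, hS] at this
  exact absurd this (by decide)

theorem Le.toNE {S : ℕ} {u v : D} (h : W.Le f S u v) (hS : S.testBit 0 = false) :
    W.NE u v := by
  intro hx
  have := h _ hx
  rw [show blk f (none : At m) = 0 from rfl, hS] at this
  exact absurd this (by decide)

theorem Le.ofCol (hf : GoodF f) (i : Fin 5) (R : ℕ) {u v : D} (h : W.Col (f i) u v)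
    (hR : R.testBit 0 = true ∧ R.testBit ((i : ℕ) + 1) = true) : W.Le f R u v := by
  intro x hx
  rcases h hx with rfl | rfl
  · exact hR.1
  · rw [blk_f hf i]; exact hR.2

theorem Le.ofFar (hf : GoodF f) (i : Fin 5) (R : ℕ) {u v : D} (h : W.Far (f i) u v)
    (hR : R.testBit ((i : ℕ) + 1) = true) : W.Le f R u v := by
  intro x hx
  have : x = some (f i) := h hx
  subst this
  rw [blk_f hf i]; exact hR

theorem Le.ofTwo (hf : GoodF f) (i j : Fin 5) (R : ℕ) {u v : D} (h : W.Two (f i) (f j) u v)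
    (hR : R.testBit ((i : ℕ) + 1) = true ∧ R.testBit ((j : ℕ) + 1) = true) : W.Le f R u v := by
  intro x hx
  rcases h hx with rfl | rfl
  · rw [blk_f hf i]; exact hR.1
  · rw [blk_f hf j]; exact hR.2

theorem Le.ofTwoE (hf : GoodF f) (i j : Fin 5) (R : ℕ) {u v : D} (h : W.TwoE (f i) (f j) u v)
    (hR : R.testBit 0 = true ∧ R.testBit ((i : ℕ) + 1) = true ∧
      R.testBit ((j : ℕ) + 1) = true) : W.Le f R u v := by
  intro x hx
  rcases h hx with rfl | rfl | rfl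
  · exact hR.1
  · rw [blk_f hf i]; exact hR.2.1
  · rw [blk_f hf j]; exact hR.2.2

theorem Le.ofTriE (hf : GoodF f) (i j k : Fin 5) (R : ℕ) {u v : D}
    (h : W.lab u v ⊆ {none, some (f i), some (f j), some (f k)})
    (hR : R.testBit 0 = true ∧ R.testBit ((i : ℕ) + 1) = true ∧
      R.testBit ((j : ℕ) + 1) = true ∧ R.testBit ((k : ℕ) + 1) = true) : W.Le f R u v := by
  intro x hx
  rcases h hx with rfl | rfl | rfl | rfl
  · exact hR.1
  · rw [blk_f hf i]; exact hR.2.1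
  · rw [blk_f hf j]; exact hR.2.2.1
  · rw [blk_f hf k]; exact hR.2.2.2

theorem Le.ofNT (hf : GoodF f) (i : Fin 5) (R : ℕ) {u v : D} (h : W.NT (f i) u v)
    (hR : supOK R [(i : ℕ) + 1] = true) : W.Le f R u v := by
  intro x hx
  refine supOK_spec hR (blk_lt f x) ?_
  simp only [List.mem_cons, List.not_mem_nil, or_false]
  intro h1
  have := eq_some_of_blk hf i h1
  subst this
  exact h hx

theorem Le.ofNE (hf : GoodF f) (R : ℕ) {u v : D} (h : W.NE u v)
    (hR : supOK R [0] = true) : W.Le f R u v := by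
  intro x hx
  refine supOK_spec hR (blk_lt f x) ?_
  simp only [List.mem_cons, List.not_mem_nil, or_false]
  intro h1
  have := eq_none_of_blk hf h1
  subst this
  exact h hx

end WRep

/-! ### choosing the distinguished classes -/

theorem ext_step {m n : ℕ} (g : Fin n → Fin (m + 1)) (hg : Function.Injective g)
    (hn : n < m + 1) : ∃ g' : Fin (n + 1) → Fin (m + 1), Function.Injective g' ∧
      ∀ i : Fin n, g' i.castSucc = g i := by
  obtain ⟨x, hx⟩ : ∃ x, x ∉ Set.range g := by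
    by_contra hcon
    have hs : Function.Surjective g := fun x => by
      by_contra hx; exact hcon ⟨x, hx⟩
    have := Fintype.card_le_of_surjective g hs
    simp at this
    omega
  refine ⟨Fin.snoc g x, ?_, fun i => by simp⟩
  rw [Fin.snoc_injective_iff]
  exact ⟨hg, hx⟩

theorem ext7 {m : ℕ} (hm : 6 ≤ m) : ∀ (d n : ℕ) (hn : n + d = 7) (g : Fin n → Fin (m + 1)),
    Function.Injective g → ∃ h : Fin 7 → Fin (m + 1), Function.Injective h ∧
      ∀ i : Fin n, h (Fin.castLE (by omega) i) = g i := by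
  intro d
  induction d with
  | zero =>
    intro n hn g hg
    obtain rfl : n = 7 := by omega
    exact ⟨g, hg, fun i => rfl⟩
  | succ d ih =>
    intro n hn g hg
    obtain ⟨g', hg', h'⟩ := ext_step g hg (by omega)
    obtain ⟨h, hh, hh'⟩ := ih (n + 1) (by omega) g' hg'
    refine ⟨h, hh, fun i => ?_⟩
    rw [← h' i, ← hh' i.castSucc]
    rfl

theorem good_of7 {m : ℕ} (h : Fin 7 → Fin (m + 1)) (hh : Function.Injective h) :
    GoodF (fun i : Fin 5 => h (Fin.castLE (by omega) i)) where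
  inj := fun i j hij => by
    have := hh hij
    exact Fin.castLE_injective _ this
  rest := by
    refine ⟨h 5, h 6, fun hc => absurd (hh hc) (by decide), fun i hc => ?_, fun i hc => ?_⟩
    · have := hh hc
      rw [Fin.ext_iff] at this
      have := i.2
      simp at *
      omega
    · have := hh hc
      rw [Fin.ext_iff] at this
      have := i.2
      simp at *
      omega

theorem good1 {m : ℕ} (hm : 6 ≤ m) (a : Fin (m + 1)) :
    ∃ f : Fin 5 → Fin (m + 1), GoodF f ∧ f 0 = a := by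
  obtain ⟨h, hh, h'⟩ := ext7 hm 6 1 rfl ![a] (fun i j _ => Subsingleton.elim i j)
  exact ⟨_, good_of7 h hh, h' 0⟩

theorem good2 {m : ℕ} (hm : 6 ≤ m) {a b : Fin (m + 1)} (hab : a ≠ b) :
    ∃ f : Fin 5 → Fin (m + 1), GoodF f ∧ f 0 = a ∧ f 1 = b := by
  obtain ⟨h, hh, h'⟩ := ext7 hm 5 2 rfl ![a, b] (by
    intro i j hij
    fin_cases i <;> fin_cases j <;> simp_all)
  exact ⟨_, good_of7 h hh, h' 0, h' 1⟩

theorem good3 {m : ℕ} (hm : 6 ≤ m) {a b c : Fin (m + 1)} (hab : a ≠ b) (hac : a ≠ c)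
    (hbc : b ≠ c) : ∃ f : Fin 5 → Fin (m + 1), GoodF f ∧ f 0 = a ∧ f 1 = b ∧ f 2 = c := by
  obtain ⟨h, hh, h'⟩ := ext7 hm 4 3 rfl ![a, b, c] (by
    intro i j hij
    fin_cases i <;> fin_cases j <;> simp_all)
  exact ⟨_, good_of7 h hh, h' 0, h' 1, h' 2⟩

theorem good4 {m : ℕ} (hm : 6 ≤ m) {a b c d : Fin (m + 1)} (hab : a ≠ b) (hac : a ≠ c)
    (had : a ≠ d) (hbc : b ≠ c) (hbd : b ≠ d) (hcd : c ≠ d) :
    ∃ f : Fin 5 → Fin (m + 1), GoodF f ∧ f 0 = a ∧ f 1 = b ∧ f 2 = c ∧ f 3 = d := by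
  obtain ⟨h, hh, h'⟩ := ext7 hm 3 4 rfl ![a, b, c, d] (by
    intro i j hij
    fin_cases i <;> fin_cases j <;> simp_all)
  exact ⟨_, good_of7 h hh, h' 0, h' 1, h' 2, h' 3⟩

theorem good5 {m : ℕ} (hm : 6 ≤ m) {a b c d e : Fin (m + 1)} (hab : a ≠ b) (hac : a ≠ c)
    (had : a ≠ d) (hae : a ≠ e) (hbc : b ≠ c) (hbd : b ≠ d) (hbe : b ≠ e) (hcd : c ≠ d)
    (hce : c ≠ e) (hde : d ≠ e) :
    ∃ f : Fin 5 → Fin (m + 1), GoodF f ∧ f 0 = a ∧ f 1 = b ∧ f 2 = c ∧ f 3 = d ∧ f 4 = e := by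
  obtain ⟨h, hh, h'⟩ := ext7 hm 2 5 rfl ![a, b, c, d, e] (by
    intro i j hij
    fin_cases i <;> fin_cases j <;> simp_all)
  exact ⟨_, good_of7 h hh, h' 0, h' 1, h' 2, h' 3, h' 4⟩

end Pool.MP24331d
end

section

/-! Horn lemmas, generated by a provenance prover (block calculus). -/

namespace Pool.MP24331d
namespace WRep

variable {m : ℕ} {D : Type*} (W : WRep m D) (hm : 6 ≤ m)
include hm

theorem box_Oj {k l j : Fin (m + 1)} (hkl : k ≠ l) (hkj : k ≠ j) (hlj : l ≠ j) {u w p q : D}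
    (h0 : W.Col k u p)
    (h1 : W.Col l p w)
    (h2 : W.Col l u q)
    (h3 : W.Col k q w)
    (h4 : W.TwoE k l u w)
    : W.NT j p q := by
  obtain ⟨f, hf, rfl, rfl, rfl⟩ := good3 hm hkl hkj hlj
  have n0 : W.Le f 3 u p := Le.ofCol hf 0 3 h0 (by decide +kernel)
  have n1 : W.Le f 5 w p := (Le.ofCol hf 1 5 h1 (by decide +kernel)).sy
  have n2 : W.Le f 5 u q := Le.ofCol hf 1 5 h2 (by decide +kernel)
  have n3 : W.Le f 3 w q := (Le.ofCol hf 0 3 h3 (by decide +kernel)).sy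
  have n4 : W.Le f 7 u w := Le.ofTwoE hf 0 1 7 h4 (by decide +kernel)
  obtain ⟨c4, x4, y4⟩ := Le.ex hf 2 10 n4 (by decide +kernel)
  have n5 : W.Le f 2 u c4 := x4
  have n6 : W.Le f 10 w c4 := y4.sy
  have n7 : W.Le f 3 p c4 := (Le.pc hf 3 n5.sy n0 (by decide +kernel)).sy
  have n9 : W.Le f 122 p c4 := (Le.pc hf 122 n6.sy n1 (by decide +kernel)).sy
  have n10 : W.Le f 2 p c4 := Le.an 2 n9 n7 rfl
  obtain ⟨c5, x5, y5⟩ := Le.ex hf 4 8 n5 (by decide +kernel)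
  have n11 : W.Le f 4 u c5 := x5
  have n12 : W.Le f 8 c4 c5 := y5.sy
  have n14 : W.Le f 116 p c5 := (Le.pc hf 116 n12.sy n10.sy (by decide +kernel)).sy
  have n15 : W.Le f 5 q c5 := (Le.pc hf 5 n11.sy n2 (by decide +kernel)).sy
  obtain ⟨c6, x6, y6⟩ := Le.ex hf 12 4 n14 (by decide +kernel)
  have n16 : W.Le f 12 p c6 := x6
  have n17 : W.Le f 4 c5 c6 := y6.sy
  have n18 : W.Le f 5 u c6 := (Le.pc hf 5 n17.sy n11.sy (by decide +kernel)).sy
  have n19 : W.Le f 5 q c6 := (Le.pc hf 5 n17.sy n15.sy (by decide +kernel)).sy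
  have n20 : W.Le f 114 c4 c6 := (Le.pc hf 114 n17.sy n12.sy (by decide +kernel)).sy
  have n21 : W.Le f 124 u c6 := (Le.pc hf 124 n16.sy n0.sy (by decide +kernel)).sy
  have n22 : W.Le f 4 u c6 := Le.an 4 n21 n18 rfl
  have n23 : W.Le f 124 c4 c6 := (Le.pc hf 124 n16.sy n10 (by decide +kernel)).sy
  have n24 : W.Le f 112 c4 c6 := Le.an 112 n23 n20 rfl
  have n25 : W.Le f 125 w c6 := (Le.pc hf 125 n22.sy n4 (by decide +kernel)).sy
  have n26 : W.Le f 126 w c6 := (Le.pc hf 126 n24.sy n6.sy (by decide +kernel)).sy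
  have n27 : W.Le f 124 w c6 := Le.an 124 n26 n25 rfl
  have n28 : W.Le f 124 q c6 := (Le.pc hf 124 n27.sy n3 (by decide +kernel)).sy
  have n29 : W.Le f 4 q c6 := Le.an 4 n28 n19 rfl
  have n30 : W.Le f 119 p q := (Le.pc hf 119 n29 n16.sy (by decide +kernel)).sy
  exact Le.toNT hf 2 n30 (by decide +kernel)

theorem box_O {k l : Fin (m + 1)} (hkl : k ≠ l) {u w p q : D} (h1 : W.Col k u p)
    (h2 : W.Col l p w) (h3 : W.Col l u q) (h4 : W.Col k q w) (h : W.TwoE k l u w) :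
    W.TwoE k l p q := by
  intro x hx
  rcases x with _ | i
  · left; rfl
  · by_cases hk : i = k
    · right; left; rw [hk]
    · by_cases hl : i = l
      · right; right; rw [hl]; rfl
      · exact absurd hx (W.box_Oj hm hkl (Ne.symm hk) (Ne.symm hl) h1 h2 h3 h4 h)

theorem box_E2 {k l : Fin (m + 1)} (hkl : k ≠ l) {u w p q : D}
    (h0 : W.Col k u p)
    (h1 : W.Col l p w)
    (h2 : W.Col l u q)
    (h3 : W.Col k q w)
    (h4 : W.Two k l u w)
    : W.NE p q := by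
  obtain ⟨f, hf, rfl, rfl⟩ := good2 hm hkl
  have n0 : W.Le f 3 u p := Le.ofCol hf 0 3 h0 (by decide +kernel)
  have n1 : W.Le f 5 w p := (Le.ofCol hf 1 5 h1 (by decide +kernel)).sy
  have n2 : W.Le f 5 u q := Le.ofCol hf 1 5 h2 (by decide +kernel)
  have n3 : W.Le f 3 w q := (Le.ofCol hf 0 3 h3 (by decide +kernel)).sy
  have n4 : W.Le f 6 u w := Le.ofTwo hf 0 1 6 h4 (by decide +kernel)
  have n5 : W.Le f 7 p q := Le.ofTwoE hf 0 1 7 (W.box_O hm (hf.inj.ne (show (0 : Fin 5) ≠ 1 by decide)) (Le.toCol hf 0 n0 (by decide +kernel)) (Le.toCol hf 1 n1.sy (by decide +kernel)) (Le.toCol hf 1 n2 (by decide +kernel)) (Le.toCol hf 0 n3.sy (by decide +kernel)) (Le.toTwoE hf 0 1 n4 (by decide +kernel))) (by decide +kernel)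
  obtain ⟨c4, x4, y4⟩ := Le.ex hf 2 9 n4 (by decide +kernel)
  have n6 : W.Le f 2 u c4 := x4
  have n7 : W.Le f 9 w c4 := y4.sy
  have n8 : W.Le f 3 p c4 := (Le.pc hf 3 n6.sy n0 (by decide +kernel)).sy
  have n9 : W.Le f 122 q c4 := (Le.pc hf 122 n6.sy n2 (by decide +kernel)).sy
  obtain ⟨c5, x5, y5⟩ := Le.ex hf 4 6 n7 (by decide +kernel)
  have n10 : W.Le f 4 w c5 := x5
  have n11 : W.Le f 6 c4 c5 := y5.sy
  have n13 : W.Le f 5 p c5 := (Le.pc hf 5 n10.sy n1 (by decide +kernel)).sy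
  have n14 : W.Le f 124 q c5 := (Le.pc hf 124 n10.sy n3 (by decide +kernel)).sy
  obtain ⟨c6, x6, y6⟩ := Le.ex hf 5 3 n11 (by decide +kernel)
  have n17 : W.Le f 5 c4 c6 := x6
  have n18 : W.Le f 3 c5 c6 := y6.sy
  have n20 : W.Le f 122 q c6 := (Le.pc hf 122 n17.sy n9.sy (by decide +kernel)).sy
  have n22 : W.Le f 124 q c6 := (Le.pc hf 124 n18.sy n14.sy (by decide +kernel)).sy
  have n23 : W.Le f 120 q c6 := Le.an 120 n22 n20 rfl
  have n24 : W.Le f 126 p c6 := (Le.pc hf 126 n23.sy n5.sy (by decide +kernel)).sy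
  have n25 : W.Le f 7 p c6 := Le.ofTwoE hf 0 1 7 (W.box_O hm (hf.inj.ne (show (0 : Fin 5) ≠ 1 by decide)) (Le.toCol hf 0 n8.sy (by decide +kernel)) (Le.toCol hf 1 n13 (by decide +kernel)) (Le.toCol hf 1 n17 (by decide +kernel)) (Le.toCol hf 0 n18.sy (by decide +kernel)) (Le.toTwoE hf 0 1 n11 (by decide +kernel))) (by decide +kernel)
  have n26 : W.Le f 6 p c6 := Le.an 6 n25 n24 rfl
  have n27 : W.Le f 126 p q := Le.pc hf 126 n26 n23.sy (by decide +kernel)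
  have n28 : W.Le f 6 p q := Le.an 6 n27 n5 rfl
  exact Le.toNE n28 (by decide +kernel)

theorem box_E {k l : Fin (m + 1)} (hkl : k ≠ l) {u w p q : D}
    (h0 : W.Col k u p)
    (h1 : W.Col l p w)
    (h2 : W.Col l u q)
    (h3 : W.Col k q w)
    (h4 : W.NE u w)
    : W.NE p q := by
  obtain ⟨f, hf, rfl, rfl⟩ := good2 hm hkl
  have n0 : W.Le f 3 u p := Le.ofCol hf 0 3 h0 (by decide +kernel)
  have n1 : W.Le f 5 w p := (Le.ofCol hf 1 5 h1 (by decide +kernel)).sy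
  have n2 : W.Le f 5 u q := Le.ofCol hf 1 5 h2 (by decide +kernel)
  have n3 : W.Le f 3 w q := (Le.ofCol hf 0 3 h3 (by decide +kernel)).sy
  have n4 : W.Le f 126 u w := Le.ofNE hf 126 h4 (by decide +kernel)
  obtain ⟨c4, x4, y4⟩ := Le.ex hf 2 13 n4 (by decide +kernel)
  have n5 : W.Le f 2 u c4 := x4
  have n6 : W.Le f 13 w c4 := y4.sy
  have n7 : W.Le f 3 p c4 := (Le.pc hf 3 n5.sy n0 (by decide +kernel)).sy
  have n8 : W.Le f 122 q c4 := (Le.pc hf 122 n5.sy n2 (by decide +kernel)).sy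
  obtain ⟨c5, x5, y5⟩ := Le.ex hf 4 6 n6 (by decide +kernel)
  have n9 : W.Le f 4 w c5 := x5
  have n10 : W.Le f 6 c4 c5 := y5.sy
  have n11 : W.Le f 5 p c5 := (Le.pc hf 5 n9.sy n1 (by decide +kernel)).sy
  have n12 : W.Le f 124 q c5 := (Le.pc hf 124 n9.sy n3 (by decide +kernel)).sy
  obtain ⟨c6, x6, y6⟩ := Le.ex hf 5 3 n10 (by decide +kernel)
  have n14 : W.Le f 5 c4 c6 := x6
  have n15 : W.Le f 3 c5 c6 := y6.sy
  have n17 : W.Le f 122 q c6 := (Le.pc hf 122 n14.sy n8.sy (by decide +kernel)).sy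
  have n19 : W.Le f 124 q c6 := (Le.pc hf 124 n15.sy n12.sy (by decide +kernel)).sy
  have n20 : W.Le f 120 q c6 := Le.an 120 n19 n17 rfl
  have n21 : W.Le f 7 p c6 := Le.ofTwoE hf 0 1 7 (W.box_O hm (hf.inj.ne (show (0 : Fin 5) ≠ 1 by decide)) (Le.toCol hf 0 n7.sy (by decide +kernel)) (Le.toCol hf 1 n11 (by decide +kernel)) (Le.toCol hf 1 n14 (by decide +kernel)) (Le.toCol hf 0 n15.sy (by decide +kernel)) (Le.toTwoE hf 0 1 n10 (by decide +kernel))) (by decide +kernel)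
  have n22 : W.Le f 126 p q := Le.pc hf 126 n21 n20.sy (by decide +kernel)
  exact Le.toNE n22 (by decide +kernel)

theorem box_T {k l : Fin (m + 1)} (hkl : k ≠ l) {u w p q : D}
    (h0 : W.Col k u p)
    (h1 : W.Col l p w)
    (h2 : W.Col l u q)
    (h3 : W.Col k q w)
    (h4 : W.NT k u w)
    : W.NT k p q := by
  obtain ⟨f, hf, rfl, rfl⟩ := good2 hm hkl
  have n0 : W.Le f 3 u p := Le.ofCol hf 0 3 h0 (by decide +kernel)
  have n1 : W.Le f 5 w p := (Le.ofCol hf 1 5 h1 (by decide +kernel)).sy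
  have n2 : W.Le f 5 u q := Le.ofCol hf 1 5 h2 (by decide +kernel)
  have n3 : W.Le f 3 w q := (Le.ofCol hf 0 3 h3 (by decide +kernel)).sy
  have n4 : W.Le f 125 u w := Le.ofNT hf 0 125 h4 (by decide +kernel)
  obtain ⟨c4, x4, y4⟩ := Le.ex hf 4 6 n4 (by decide +kernel)
  have n5 : W.Le f 4 u c4 := x4
  have n6 : W.Le f 6 w c4 := y4.sy
  have n7 : W.Le f 124 p c4 := (Le.pc hf 124 n5.sy n0 (by decide +kernel)).sy
  have n8 : W.Le f 5 q c4 := (Le.pc hf 5 n5.sy n2 (by decide +kernel)).sy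
  obtain ⟨c5, x5, y5⟩ := Le.ex hf 5 3 n6 (by decide +kernel)
  have n9 : W.Le f 5 w c5 := x5
  have n10 : W.Le f 3 c4 c5 := y5.sy
  have n11 : W.Le f 5 p c5 := (Le.pc hf 5 n9.sy n1 (by decide +kernel)).sy
  have n13 : W.Le f 124 p c5 := (Le.pc hf 124 n10.sy n7.sy (by decide +kernel)).sy
  have n14 : W.Le f 4 p c5 := Le.an 4 n13 n11 rfl
  have n15 : W.Le f 7 q c5 := Le.ofTwoE hf 0 1 7 (W.box_O hm (hf.inj.ne (show (0 : Fin 5) ≠ 1 by decide)) (Le.toCol hf 0 n3 (by decide +kernel)) (Le.toCol hf 1 n8 (by decide +kernel)) (Le.toCol hf 1 n9 (by decide +kernel)) (Le.toCol hf 0 n10.sy (by decide +kernel)) (Le.toTwoE hf 0 1 n6 (by decide +kernel))) (by decide +kernel)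
  have n16 : W.Le f 125 p q := (Le.pc hf 125 n15 n14.sy (by decide +kernel)).sy
  exact Le.toNT hf 0 n16 (by decide +kernel)

theorem ind_T {k l j : Fin (m + 1)} (hkl : k ≠ l) (hkj : k ≠ j) (hlj : l ≠ j) {x xt y y2 : D}
    (h0 : W.Col k x xt)
    (h1 : W.Col k y y2)
    (h2 : W.Col l x y)
    (h3 : W.Col j xt y)
    (h4 : W.NT k x y2)
    : W.NT k xt y2 := by
  obtain ⟨f, hf, rfl, rfl, rfl⟩ := good3 hm hkl hkj hlj
  have n0 : W.Le f 3 x xt := Le.ofCol hf 0 3 h0 (by decide +kernel)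
  have n1 : W.Le f 3 y y2 := Le.ofCol hf 0 3 h1 (by decide +kernel)
  have n2 : W.Le f 5 x y := Le.ofCol hf 1 5 h2 (by decide +kernel)
  have n3 : W.Le f 9 xt y := Le.ofCol hf 2 9 h3 (by decide +kernel)
  have n4 : W.Le f 125 x y2 := Le.ofNT hf 0 125 h4 (by decide +kernel)
  obtain ⟨c4, x4, y4⟩ := Le.ex hf 3 5 n4 (by decide +kernel)
  have n5 : W.Le f 3 x c4 := x4
  have n6 : W.Le f 5 y2 c4 := y4.sy
  have n7 : W.Le f 3 xt c4 := (Le.pc hf 3 n5.sy n0 (by decide +kernel)).sy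
  have n8 : W.Le f 125 y c4 := (Le.ofNT hf 0 125 (W.box_T hm (hf.inj.ne (show (0 : Fin 5) ≠ 1 by decide)) (Le.toCol hf 0 n5 (by decide +kernel)) (Le.toCol hf 1 n6.sy (by decide +kernel)) (Le.toCol hf 1 n2 (by decide +kernel)) (Le.toCol hf 0 n1 (by decide +kernel)) (Le.toNT hf 0 n4 (by decide +kernel))) (by decide +kernel)).sy
  obtain ⟨c5, x5, y5⟩ := Le.ex hf 6 4 n8 (by decide +kernel)
  have n9 : W.Le f 6 y c5 := x5
  have n10 : W.Le f 4 c4 c5 := y5.sy
  have n12 : W.Le f 124 xt c5 := (Le.pc hf 124 n10.sy n7.sy (by decide +kernel)).sy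
  have n13 : W.Le f 5 y2 c5 := (Le.pc hf 5 n10.sy n6.sy (by decide +kernel)).sy
  have n14 : W.Le f 118 xt c5 := (Le.pc hf 118 n9.sy n3.sy (by decide +kernel)).sy
  have n15 : W.Le f 116 xt c5 := Le.an 116 n14 n12 rfl
  obtain ⟨c6, x6, y6⟩ := Le.ex hf 6 4 n15 (by decide +kernel)
  have n16 : W.Le f 6 xt c6 := x6
  have n17 : W.Le f 4 c5 c6 := y6.sy
  have n18 : W.Le f 125 y c6 := (Le.pc hf 125 n17.sy n9.sy (by decide +kernel)).sy
  have n19 : W.Le f 5 y2 c6 := (Le.pc hf 5 n17.sy n13.sy (by decide +kernel)).sy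
  have n21 : W.Le f 118 y c6 := (Le.pc hf 118 n16.sy n3 (by decide +kernel)).sy
  have n22 : W.Le f 116 y c6 := Le.an 116 n21 n18 rfl
  have n23 : W.Le f 124 y2 c6 := (Le.pc hf 124 n22.sy n1 (by decide +kernel)).sy
  have n24 : W.Le f 4 y2 c6 := Le.an 4 n23 n19 rfl
  have n25 : W.Le f 125 xt y2 := (Le.pc hf 125 n24 n16.sy (by decide +kernel)).sy
  exact Le.toNT hf 0 n25 (by decide +kernel)

theorem ind_E {k l j : Fin (m + 1)} (hkl : k ≠ l) (hkj : k ≠ j) (hlj : l ≠ j) {x xt y y2 : D}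
    (h0 : W.Col k x xt)
    (h1 : W.Col k y y2)
    (h2 : W.Col l x y)
    (h3 : W.Col j xt y)
    (h4 : W.NE x y2)
    : W.NE xt y2 := by
  obtain ⟨f, hf, rfl, rfl, rfl⟩ := good3 hm hkl hkj hlj
  have n0 : W.Le f 3 x xt := Le.ofCol hf 0 3 h0 (by decide +kernel)
  have n1 : W.Le f 3 y y2 := Le.ofCol hf 0 3 h1 (by decide +kernel)
  have n2 : W.Le f 5 x y := Le.ofCol hf 1 5 h2 (by decide +kernel)
  have n3 : W.Le f 9 xt y := Le.ofCol hf 2 9 h3 (by decide +kernel)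
  have n4 : W.Le f 126 x y2 := Le.ofNE hf 126 h4 (by decide +kernel)
  obtain ⟨c4, x4, y4⟩ := Le.ex hf 13 2 n4 (by decide +kernel)
  have n5 : W.Le f 13 x c4 := x4
  have n6 : W.Le f 2 y2 c4 := y4.sy
  have n7 : W.Le f 3 y c4 := (Le.pc hf 3 n6.sy n1.sy (by decide +kernel)).sy
  have n8 : W.Le f 125 xt c4 := Le.ofNT hf 0 125 (W.ind_T hm (hf.inj.ne (show (0 : Fin 5) ≠ 1 by decide)) (hf.inj.ne (show (0 : Fin 5) ≠ 2 by decide)) (hf.inj.ne (show (1 : Fin 5) ≠ 2 by decide)) (Le.toCol hf 0 n0 (by decide +kernel)) (Le.toCol hf 0 n7 (by decide +kernel)) (Le.toCol hf 1 n2 (by decide +kernel)) (Le.toCol hf 2 n3 (by decide +kernel)) (Le.toNT hf 0 n5 (by decide +kernel))) (by decide +kernel)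
  have n9 : W.Le f 126 xt y2 := Le.pc hf 126 n8 n6.sy (by decide +kernel)
  exact Le.toNE n9 (by decide +kernel)

theorem dfl0 {k l : Fin (m + 1)} (hkl : k ≠ l) {x y y2 z xl : D}
    (h0 : W.Col k y y2)
    (h1 : W.Col k x z)
    (h2 : W.Col k x xl)
    (h3 : W.Col l z y2)
    (h4 : W.Col l xl y)
    (h5 : W.NT k x y)
    (h6 : W.NT l x y)
    (h7 : W.NT k xl y2)
    : W.NT k x y2 := by
  obtain ⟨f, hf, rfl, rfl⟩ := good2 hm hkl
  have n0 : W.Le f 3 y y2 := Le.ofCol hf 0 3 h0 (by decide +kernel)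
  have n1 : W.Le f 3 x z := Le.ofCol hf 0 3 h1 (by decide +kernel)
  have n2 : W.Le f 3 x xl := Le.ofCol hf 0 3 h2 (by decide +kernel)
  have n3 : W.Le f 5 y2 z := (Le.ofCol hf 1 5 h3 (by decide +kernel)).sy
  have n4 : W.Le f 5 y xl := (Le.ofCol hf 1 5 h4 (by decide +kernel)).sy
  have n5 : W.Le f 125 x y := Le.ofNT hf 0 125 h5 (by decide +kernel)
  have n6 : W.Le f 123 x y := Le.ofNT hf 1 123 h6 (by decide +kernel)
  have n7 : W.Le f 121 x y := Le.an 121 n6 n5 rfl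
  have n8 : W.Le f 125 y2 xl := (Le.ofNT hf 0 125 h7 (by decide +kernel)).sy
  have n9 : W.Le f 3 z xl := (Le.pc hf 3 n2.sy n1 (by decide +kernel)).sy
  have n10 : W.Le f 125 y z := Le.ofNT hf 0 125 (W.box_T hm (hf.inj.ne (show (0 : Fin 5) ≠ 1 by decide)) (Le.toCol hf 0 n0.sy (by decide +kernel)) (Le.toCol hf 1 n4 (by decide +kernel)) (Le.toCol hf 1 n3 (by decide +kernel)) (Le.toCol hf 0 n9 (by decide +kernel)) (Le.toNT hf 0 n8 (by decide +kernel))) (by decide +kernel)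
  obtain ⟨c5, x5, y5⟩ := Le.ex hf 6 4 n10 (by decide +kernel)
  have n11 : W.Le f 6 y c5 := x5
  have n12 : W.Le f 4 z c5 := y5.sy
  have n13 : W.Le f 124 x c5 := (Le.pc hf 124 n12.sy n1.sy (by decide +kernel)).sy
  have n14 : W.Le f 5 y2 c5 := (Le.pc hf 5 n12.sy n3.sy (by decide +kernel)).sy
  obtain ⟨c6, x6, y6⟩ := Le.ex hf 6 4 n13 (by decide +kernel)
  have n16 : W.Le f 6 x c6 := x6
  have n17 : W.Le f 4 c5 c6 := y6.sy
  have n18 : W.Le f 125 y c6 := (Le.pc hf 125 n17.sy n11.sy (by decide +kernel)).sy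
  have n19 : W.Le f 5 y2 c6 := (Le.pc hf 5 n17.sy n14.sy (by decide +kernel)).sy
  have n21 : W.Le f 126 y c6 := (Le.pc hf 126 n16.sy n7 (by decide +kernel)).sy
  have n22 : W.Le f 124 y c6 := Le.an 124 n21 n18 rfl
  have n23 : W.Le f 124 y2 c6 := (Le.pc hf 124 n22.sy n0 (by decide +kernel)).sy
  have n24 : W.Le f 4 y2 c6 := Le.an 4 n23 n19 rfl
  have n25 : W.Le f 125 x y2 := (Le.pc hf 125 n24 n16.sy (by decide +kernel)).sy
  exact Le.toNT hf 0 n25 (by decide +kernel)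

theorem dfl {k l c : Fin (m + 1)} (hkl : k ≠ l) (hkc : k ≠ c) {x xl y y2 : D}
    (h1 : W.Col k x xl) (h2 : W.Col k y y2) (h3 : W.Col l xl y) (h4 : W.NT k x y)
    (h5 : W.NT c x y) (h6 : W.NT k xl y2) : W.NT k x y2 := by
  have key : ∀ xc : D, W.Col k x xc → W.Col c xc y → W.NT k xc y2 → W.NT k x y2 := by
    intro xc e1 e2 e3
    obtain ⟨f, hf, rfl, rfl⟩ := good2 hm hkc
    obtain ⟨z, e4, e5⟩ := Le.ex hf 3 5 (Le.top (f := f) (W := W) x y2) (by decide +kernel)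
    exact W.dfl0 hm hkc h2 (Le.toCol hf 0 e4 (by decide +kernel)) e1
      (Le.toCol hf 1 e5 (by decide +kernel)) e2 h4 h5 e3
  by_cases hlc : l = c
  · subst hlc; exact key xl h1 h3 h6
  · obtain ⟨f, hf, rfl, rfl⟩ := good2 hm hkc
    obtain ⟨xc, e1, e2⟩ := Le.ex hf 3 5 (Le.top (f := f) (W := W) x y) (by decide +kernel)
    have e1' := Le.toCol hf 0 e1 (by decide +kernel)
    have e2' := Le.toCol hf 1 e2 (by decide +kernel)
    refine key xc e1' e2' (W.ind_T hm hkl hkc hlc ?_ h2 h3 e2' h6)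
    exact Le.toCol hf 0 (Le.pc hf 3 (Le.ofCol hf 0 3 h1 (by decide +kernel)).sy e1
      (by decide +kernel)) (by decide +kernel)

theorem swa {a b c : Fin (m + 1)} (hab : a ≠ b) (hac : a ≠ c) (hbc : b ≠ c) {s Y U V : D}
    (h0 : W.Two a b s Y)
    (h1 : W.Col a Y U)
    (h2 : W.Col b Y V)
    (h3 : W.Col c U V)
    (h4 : W.NE U s)
    : W.NT c V s := by
  obtain ⟨f, hf, rfl, rfl, rfl⟩ := good3 hm hab hac hbc
  have n0 : W.Le f 6 s Y := Le.ofTwo hf 0 1 6 h0 (by decide +kernel)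
  have n1 : W.Le f 3 Y U := Le.ofCol hf 0 3 h1 (by decide +kernel)
  have n2 : W.Le f 5 Y V := Le.ofCol hf 1 5 h2 (by decide +kernel)
  have n3 : W.Le f 9 U V := Le.ofCol hf 2 9 h3 (by decide +kernel)
  have n4 : W.Le f 126 s U := (Le.ofNE hf 126 h4 (by decide +kernel)).sy
  obtain ⟨x, x4, y4⟩ := Le.ex hf 7 8 n4 (by decide +kernel)
  have n5 : W.Le f 7 s x := x4
  have n6 : W.Le f 8 U x := y4.sy
  have n7 : W.Le f 124 Y x := (Le.pc hf 124 n6.sy n1.sy (by decide +kernel)).sy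
  have n8 : W.Le f 9 V x := (Le.pc hf 9 n6.sy n3 (by decide +kernel)).sy
  obtain ⟨y, x5, y5⟩ := Le.ex hf 4 3 n7 (by decide +kernel)
  have n9 : W.Le f 4 Y y := x5
  have n10 : W.Le f 3 x y := y5.sy
  have n11 : W.Le f 125 s y := (Le.pc hf 125 n9.sy n0.sy (by decide +kernel)).sy
  have n13 : W.Le f 5 V y := (Le.pc hf 5 n9.sy n2 (by decide +kernel)).sy
  obtain ⟨c4, x6, y6⟩ := Le.ex hf 9 3 n5 (by decide +kernel)
  have n14 : W.Le f 9 s c4 := x6
  have n15 : W.Le f 3 x c4 := y6.sy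
  obtain ⟨c5, x7, y7⟩ := Le.ex hf 10 2 n5 (by decide +kernel)
  have n21 : W.Le f 10 s c5 := x7
  have n22 : W.Le f 2 x c5 := y7.sy
  have n25 : W.Le f 118 V c5 := (Le.pc hf 118 n22.sy n8.sy (by decide +kernel)).sy
  have n26 : W.Le f 3 y c5 := (Le.pc hf 3 n22.sy n10 (by decide +kernel)).sy
  have n27 : W.Le f 3 c4 c5 := (Le.pc hf 3 n22.sy n15 (by decide +kernel)).sy
  obtain ⟨c6, x8, y8⟩ := Le.ex hf 10 2 n25 (by decide +kernel)
  have n28 : W.Le f 10 V c6 := x8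
  have n29 : W.Le f 2 c5 c6 := y8.sy
  have n30 : W.Le f 119 s c6 := (Le.pc hf 119 n29.sy n21.sy (by decide +kernel)).sy
  have n34 : W.Le f 3 y c6 := (Le.pc hf 3 n29.sy n26.sy (by decide +kernel)).sy
  have n35 : W.Le f 3 c4 c6 := (Le.pc hf 3 n29.sy n27.sy (by decide +kernel)).sy
  have n38 : W.Le f 122 y c6 := (Le.pc hf 122 n28.sy n13 (by decide +kernel)).sy
  have n39 : W.Le f 2 y c6 := Le.an 2 n38 n34 rfl
  have n40 : W.Le f 126 s c6 := (Le.pc hf 126 n39.sy n11.sy (by decide +kernel)).sy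
  have n41 : W.Le f 118 s c6 := Le.an 118 n40 n30 rfl
  have n42 : W.Le f 118 c4 c6 := (Le.pc hf 118 n41.sy n14 (by decide +kernel)).sy
  have n43 : W.Le f 2 c4 c6 := Le.an 2 n42 n35 rfl
  have n44 : W.Le f 119 V c4 := (Le.pc hf 119 n43 n28.sy (by decide +kernel)).sy
  have n45 : W.Le f 119 s V := Le.ofNT hf 2 119 (W.dfl hm (hf.inj.ne (show (2 : Fin 5) ≠ 0 by decide)) (hf.inj.ne (show (2 : Fin 5) ≠ 3 by decide)) (Le.toCol hf 2 n14 (by decide +kernel)) (Le.toCol hf 2 n8.sy (by decide +kernel)) (Le.toCol hf 0 n15.sy (by decide +kernel)) (Le.toNT hf 2 n5 (by decide +kernel)) (Le.toNT hf 3 n5 (by decide +kernel)) (Le.toNT hf 2 n44.sy (by decide +kernel))) (by decide +kernel)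
  exact Le.toNT hf 2 n45.sy (by decide +kernel)

theorem compat {k a : Fin (m + 1)} (hka : k ≠ a) {p q s t : D}
    (h0 : W.Col k p q)
    (h1 : W.Col k s t)
    (h2 : W.Col a q s)
    (h3 : W.NT k p s)
    (h4 : W.NE q t)
    : W.NE p t := by
  obtain ⟨f, hf, rfl, rfl⟩ := good2 hm hka
  have n0 : W.Le f 3 p q := Le.ofCol hf 0 3 h0 (by decide +kernel)
  have n1 : W.Le f 3 s t := Le.ofCol hf 0 3 h1 (by decide +kernel)
  have n2 : W.Le f 5 q s := Le.ofCol hf 1 5 h2 (by decide +kernel)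
  have n3 : W.Le f 125 p s := Le.ofNT hf 0 125 h3 (by decide +kernel)
  have n4 : W.Le f 126 q t := Le.ofNE hf 126 h4 (by decide +kernel)
  obtain ⟨r1, x4, y4⟩ := Le.ex hf 2 13 n4 (by decide +kernel)
  have n5 : W.Le f 2 q r1 := x4
  have n6 : W.Le f 13 t r1 := y4.sy
  have n7 : W.Le f 3 p r1 := (Le.pc hf 3 n5.sy n0.sy (by decide +kernel)).sy
  have n8 : W.Le f 122 s r1 := (Le.pc hf 122 n5.sy n2 (by decide +kernel)).sy
  obtain ⟨t1, x5, y5⟩ := Le.ex hf 5 3 n6.sy (by decide +kernel)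
  have n9 : W.Le f 5 r1 t1 := x5
  have n10 : W.Le f 3 t t1 := y5.sy
  have n12 : W.Le f 122 s t1 := (Le.pc hf 122 n9.sy n8.sy (by decide +kernel)).sy
  have n13 : W.Le f 3 s t1 := (Le.pc hf 3 n10.sy n1.sy (by decide +kernel)).sy
  have n14 : W.Le f 2 s t1 := Le.an 2 n13 n12 rfl
  have n15 : W.Le f 126 p t1 := (Le.pc hf 126 n14.sy n3.sy (by decide +kernel)).sy
  obtain ⟨c, x6, y6⟩ := Le.ex hf 2 13 n15 (by decide +kernel)
  have n16 : W.Le f 2 p c := x6
  have n17 : W.Le f 13 t1 c := y6.sy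
  have n20 : W.Le f 3 r1 c := (Le.pc hf 3 n16.sy n7 (by decide +kernel)).sy
  have n21 : W.Le f 125 t c := Le.ofNT hf 0 125 (W.dfl hm (hf.inj.ne (show (0 : Fin 5) ≠ 1 by decide)) (hf.inj.ne (show (0 : Fin 5) ≠ 3 by decide)) (Le.toCol hf 0 n10 (by decide +kernel)) (Le.toCol hf 0 n20 (by decide +kernel)) (Le.toCol hf 1 n9.sy (by decide +kernel)) (Le.toNT hf 0 n6 (by decide +kernel)) (Le.toNT hf 3 n6 (by decide +kernel)) (Le.toNT hf 0 n17 (by decide +kernel))) (by decide +kernel)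
  have n22 : W.Le f 126 p t := (Le.pc hf 126 n21 n16.sy (by decide +kernel)).sy
  exact Le.toNE n22 (by decide +kernel)

theorem stepA_j {k a b j : Fin (m + 1)} (hka : k ≠ a) (hkb : k ≠ b) (hkj : k ≠ j) (hab : a ≠ b) (haj : a ≠ j) (hbj : b ≠ j) {r p g e1 Y : D}
    (h0 : W.Col k r p)
    (h1 : W.Col a r g)
    (h2 : W.Col b g p)
    (h3 : W.Far k r e1)
    (h4 : W.Two k b e1 g)
    (h5 : W.Col a r Y)
    (h6 : W.Col b e1 Y)
    : W.NT j p Y := by
  obtain ⟨f, hf, rfl, rfl, rfl, rfl⟩ := good4 hm hka hkb hkj hab haj hbj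
  have n0 : W.Le f 3 r p := Le.ofCol hf 0 3 h0 (by decide +kernel)
  have n1 : W.Le f 5 r g := Le.ofCol hf 1 5 h1 (by decide +kernel)
  have n2 : W.Le f 9 p g := (Le.ofCol hf 2 9 h2 (by decide +kernel)).sy
  have n3 : W.Le f 2 r e1 := Le.ofFar hf 0 2 h3 (by decide +kernel)
  have n4 : W.Le f 10 g e1 := (Le.ofTwo hf 0 2 10 h4 (by decide +kernel)).sy
  have n5 : W.Le f 5 r Y := Le.ofCol hf 1 5 h5 (by decide +kernel)
  have n6 : W.Le f 9 e1 Y := Le.ofCol hf 2 9 h6 (by decide +kernel)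
  have n8 : W.Le f 118 r Y := Le.pc hf 118 n3 n6 (by decide +kernel)
  have n9 : W.Le f 4 r Y := Le.an 4 n8 n5 rfl
  have n10 : W.Le f 120 e1 Y := Le.pc hf 120 n3.sy n9 (by decide +kernel)
  have n11 : W.Le f 8 e1 Y := Le.an 8 n10 n6 rfl
  have n13 : W.Le f 5 g Y := (Le.pc hf 5 n9.sy n1 (by decide +kernel)).sy
  obtain ⟨c5, x5, y5⟩ := Le.ex hf 2 16 n9 (by decide +kernel)
  have n14 : W.Le f 2 r c5 := x5
  have n15 : W.Le f 16 Y c5 := y5.sy
  have n16 : W.Le f 122 g c5 := (Le.pc hf 122 n15.sy n13.sy (by decide +kernel)).sy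
  have n17 : W.Le f 102 e1 c5 := (Le.pc hf 102 n15.sy n11.sy (by decide +kernel)).sy
  have n18 : W.Le f 3 p c5 := (Le.pc hf 3 n14.sy n0 (by decide +kernel)).sy
  have n19 : W.Le f 3 e1 c5 := (Le.pc hf 3 n14.sy n3 (by decide +kernel)).sy
  have n20 : W.Le f 2 e1 c5 := Le.an 2 n19 n17 rfl
  have n21 : W.Le f 119 g c5 := (Le.pc hf 119 n20.sy n4.sy (by decide +kernel)).sy
  have n22 : W.Le f 114 g c5 := Le.an 114 n21 n16 rfl
  have n23 : W.Le f 118 p c5 := (Le.pc hf 118 n22.sy n2.sy (by decide +kernel)).sy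
  have n24 : W.Le f 2 p c5 := Le.an 2 n23 n18 rfl
  have n25 : W.Le f 108 p Y := Le.pc hf 108 n24 n15.sy (by decide +kernel)
  exact Le.toNT hf 3 n25 (by decide +kernel)

theorem stepA_c {k a b : Fin (m + 1)} (hka : k ≠ a) (hkb : k ≠ b) (hab : a ≠ b) {r p g e1 Y : D}
    (h0 : W.Col k r p)
    (h1 : W.Col a r g)
    (h2 : W.Col b g p)
    (h3 : W.Far k r e1)
    (h4 : W.Two k b e1 g)
    (h5 : W.Col a r Y)
    (h6 : W.Col b e1 Y)
    : W.NE p Y := by
  obtain ⟨f, hf, rfl, rfl, rfl⟩ := good3 hm hka hkb hab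
  have n0 : W.Le f 3 r p := Le.ofCol hf 0 3 h0 (by decide +kernel)
  have n3 : W.Le f 2 r e1 := Le.ofFar hf 0 2 h3 (by decide +kernel)
  have n5 : W.Le f 5 r Y := Le.ofCol hf 1 5 h5 (by decide +kernel)
  have n6 : W.Le f 9 e1 Y := Le.ofCol hf 2 9 h6 (by decide +kernel)
  have n8 : W.Le f 118 r Y := Le.pc hf 118 n3 n6 (by decide +kernel)
  have n9 : W.Le f 4 r Y := Le.an 4 n8 n5 rfl
  have n12 : W.Le f 124 p Y := (Le.pc hf 124 n9.sy n0 (by decide +kernel)).sy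
  exact Le.toNE n12 (by decide +kernel)

theorem stepA_c0 {k a b : Fin (m + 1)} (hka : k ≠ a) (hkb : k ≠ b) (hab : a ≠ b) {r p g e1 Y : D}
    (h0 : W.Col k r p)
    (h1 : W.Col a r g)
    (h2 : W.Col b g p)
    (h3 : W.Far k r e1)
    (h4 : W.Two k b e1 g)
    (h5 : W.Col a r Y)
    (h6 : W.Col b e1 Y)
    : W.NT k p Y := by
  obtain ⟨f, hf, rfl, rfl, rfl⟩ := good3 hm hka hkb hab
  have n0 : W.Le f 3 r p := Le.ofCol hf 0 3 h0 (by decide +kernel)
  have n3 : W.Le f 2 r e1 := Le.ofFar hf 0 2 h3 (by decide +kernel)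
  have n5 : W.Le f 5 r Y := Le.ofCol hf 1 5 h5 (by decide +kernel)
  have n6 : W.Le f 9 e1 Y := Le.ofCol hf 2 9 h6 (by decide +kernel)
  have n8 : W.Le f 118 r Y := Le.pc hf 118 n3 n6 (by decide +kernel)
  have n9 : W.Le f 4 r Y := Le.an 4 n8 n5 rfl
  have n12 : W.Le f 124 p Y := (Le.pc hf 124 n9.sy n0 (by decide +kernel)).sy
  exact Le.toNT hf 0 n12 (by decide +kernel)

theorem stepA_f1 {k a b : Fin (m + 1)} (hka : k ≠ a) (hkb : k ≠ b) (hab : a ≠ b) {r e1 Y : D}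
    (h0 : W.Far k r e1)
    (h1 : W.Col a r Y)
    (h2 : W.Col b e1 Y)
    : W.Far a r Y := by
  obtain ⟨f, hf, rfl, rfl, rfl⟩ := good3 hm hka hkb hab
  have n0 : W.Le f 2 r e1 := Le.ofFar hf 0 2 h0 (by decide +kernel)
  have n1 : W.Le f 5 r Y := Le.ofCol hf 1 5 h1 (by decide +kernel)
  have n2 : W.Le f 9 e1 Y := Le.ofCol hf 2 9 h2 (by decide +kernel)
  have n3 : W.Le f 118 r Y := Le.pc hf 118 n0 n2 (by decide +kernel)
  have n4 : W.Le f 4 r Y := Le.an 4 n3 n1 rfl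
  exact Le.toFar hf 1 n4 (by decide +kernel)

theorem stepA_f2 {k a b : Fin (m + 1)} (hka : k ≠ a) (hkb : k ≠ b) (hab : a ≠ b) {r e1 Y : D}
    (h0 : W.Far k r e1)
    (h1 : W.Col a r Y)
    (h2 : W.Col b e1 Y)
    : W.Far b e1 Y := by
  obtain ⟨f, hf, rfl, rfl, rfl⟩ := good3 hm hka hkb hab
  have n0 : W.Le f 2 r e1 := Le.ofFar hf 0 2 h0 (by decide +kernel)
  have n1 : W.Le f 5 r Y := Le.ofCol hf 1 5 h1 (by decide +kernel)
  have n2 : W.Le f 9 e1 Y := Le.ofCol hf 2 9 h2 (by decide +kernel)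
  have n3 : W.Le f 118 r Y := Le.pc hf 118 n0 n2 (by decide +kernel)
  have n4 : W.Le f 4 r Y := Le.an 4 n3 n1 rfl
  have n5 : W.Le f 120 e1 Y := Le.pc hf 120 n0.sy n4 (by decide +kernel)
  have n6 : W.Le f 8 e1 Y := Le.an 8 n5 n2 rfl
  exact Le.toFar hf 2 n6 (by decide +kernel)

theorem stepA {k a b : Fin (m + 1)} (hka : k ≠ a) (hkb : k ≠ b) (hab : a ≠ b) {r p : D}
    (h : W.Col k r p) : ∃ η Y, W.Far k r η ∧ W.Far a r Y ∧ W.Far b η Y ∧ W.Two a b p Y := by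
  obtain ⟨g, η, Y, h1, h2, h3, h4, h5, h6⟩ : ∃ g η Y, W.Col a r g ∧ W.Col b g p ∧ W.Far k r η ∧
      W.Two k b η g ∧ W.Col a r Y ∧ W.Col b η Y := by
    obtain ⟨f, hf, rfl, rfl, rfl⟩ := good3 hm hka hkb hab
    obtain ⟨g, g1, g2⟩ := Le.ex hf 5 9 (Le.top (f := f) (W := W) r p) (by decide +kernel)
    obtain ⟨η, e1, e2⟩ := Le.ex hf 2 10 g1 (by decide +kernel)
    obtain ⟨Y, y1, y2⟩ := Le.ex hf 5 9 e1 (by decide +kernel)
    exact ⟨g, η, Y, Le.toCol hf 1 g1 (by decide +kernel), Le.toCol hf 2 g2 (by decide +kernel),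
      Le.toFar hf 0 e1 (by decide +kernel), Le.toTwo hf 0 2 e2 (by decide +kernel),
      Le.toCol hf 1 y1 (by decide +kernel), Le.toCol hf 2 y2.sy (by decide +kernel)⟩
  refine ⟨η, Y, h3, W.stepA_f1 hm hka hkb hab h3 h5 h6, W.stepA_f2 hm hka hkb hab h3 h5 h6, ?_⟩
  intro x hx
  rcases x with _ | i
  · exact absurd hx (W.stepA_c hm hka hkb hab h h1 h2 h3 h4 h5 h6)
  · by_cases h7 : i = k
    · subst h7; exact absurd hx (W.stepA_c0 hm hka hkb hab h h1 h2 h3 h4 h5 h6)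
    · by_cases h8 : i = a
      · left; rw [h8]
      · by_cases h9 : i = b
        · right; rw [h9]; rfl
        · exact absurd hx (W.stepA_j hm hka hkb (Ne.symm h7) hab (Ne.symm h8) (Ne.symm h9)
            h h1 h2 h3 h4 h5 h6)

theorem dfa0 {k l b : Fin (m + 1)} (hkl : k ≠ l) (hkb : k ≠ b) (hlb : l ≠ b) {x xl y y2 r e1 Y : D}
    (h0 : W.Col k x xl)
    (h1 : W.Col k y y2)
    (h2 : W.Col l xl y)
    (h3 : W.NT k x y)
    (h4 : W.NT k xl y2)
    (h5 : W.Col k r x)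
    (h6 : W.Col l r y2)
    (h7 : W.Far k r e1)
    (h8 : W.Far l r Y)
    (h9 : W.Far b e1 Y)
    (h10 : W.Two l b x Y)
    : W.NT k x y2 := by
  obtain ⟨f, hf, rfl, rfl, rfl⟩ := good3 hm hkl hkb hlb
  have n0 : W.Le f 3 x xl := Le.ofCol hf 0 3 h0 (by decide +kernel)
  have n1 : W.Le f 3 y y2 := Le.ofCol hf 0 3 h1 (by decide +kernel)
  have n2 : W.Le f 5 xl y := Le.ofCol hf 1 5 h2 (by decide +kernel)
  have n3 : W.Le f 125 x y := Le.ofNT hf 0 125 h3 (by decide +kernel)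
  have n4 : W.Le f 125 xl y2 := Le.ofNT hf 0 125 h4 (by decide +kernel)
  have n5 : W.Le f 3 x r := (Le.ofCol hf 0 3 h5 (by decide +kernel)).sy
  have n6 : W.Le f 5 y2 r := (Le.ofCol hf 1 5 h6 (by decide +kernel)).sy
  have n7 : W.Le f 2 r e1 := Le.ofFar hf 0 2 h7 (by decide +kernel)
  have n8 : W.Le f 4 r Y := Le.ofFar hf 1 4 h8 (by decide +kernel)
  have n9 : W.Le f 8 e1 Y := Le.ofFar hf 2 8 h9 (by decide +kernel)
  have n10 : W.Le f 12 x Y := Le.ofTwo hf 1 2 12 h10 (by decide +kernel)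
  have n11 : W.Le f 5 y2 Y := (Le.pc hf 5 n8.sy n6.sy (by decide +kernel)).sy
  have n14 : W.Le f 3 xl r := Le.pc hf 3 n0.sy n5 (by decide +kernel)
  have n17 : W.Le f 125 y r := (Le.ofNT hf 0 125 (W.box_T hm (hf.inj.ne (show (0 : Fin 5) ≠ 1 by decide)) (Le.toCol hf 0 n14 (by decide +kernel)) (Le.toCol hf 1 n6.sy (by decide +kernel)) (Le.toCol hf 1 n2 (by decide +kernel)) (Le.toCol hf 0 n1 (by decide +kernel)) (Le.toNT hf 0 n4 (by decide +kernel))) (by decide +kernel)).sy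
  have n18 : W.Le f 126 y e1 := Le.pc hf 126 n17 n7 (by decide +kernel)
  obtain ⟨h, x7, y7⟩ := Le.ex hf 9 3 n18.sy (by decide +kernel)
  have n19 : W.Le f 9 e1 h := x7
  have n20 : W.Le f 3 y h := y7.sy
  have n21 : W.Le f 3 y2 h := (Le.pc hf 3 n20.sy n1 (by decide +kernel)).sy
  have n22 : W.Le f 118 r h := (Le.pc hf 118 n19.sy n7.sy (by decide +kernel)).sy
  have n23 : W.Le f 9 Y h := (Le.pc hf 9 n19.sy n9 (by decide +kernel)).sy
  have n24 : W.Le f 126 xl h := Le.ofNE hf 126 (W.compat hm (hf.inj.ne (show (0 : Fin 5) ≠ 1 by decide)) (Le.toCol hf 0 n14 (by decide +kernel)) (Le.toCol hf 0 n21 (by decide +kernel)) (Le.toCol hf 1 n6.sy (by decide +kernel)) (Le.toNT hf 0 n4 (by decide +kernel)) (Le.toNE n22 (by decide +kernel))) (by decide +kernel)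
  have n25 : W.Le f 126 x h := Le.ofNE hf 126 (W.compat hm (hf.inj.ne (show (0 : Fin 5) ≠ 1 by decide)) (Le.toCol hf 0 n0 (by decide +kernel)) (Le.toCol hf 0 n20 (by decide +kernel)) (Le.toCol hf 1 n2 (by decide +kernel)) (Le.toNT hf 0 n3 (by decide +kernel)) (Le.toNE n24 (by decide +kernel))) (by decide +kernel)
  have n26 : W.Le f 125 x y2 := (Le.ofNT hf 0 125 (W.swa hm (hf.inj.ne (show (2 : Fin 5) ≠ 1 by decide)) (hf.inj.ne (show (2 : Fin 5) ≠ 0 by decide)) (hf.inj.ne (show (1 : Fin 5) ≠ 0 by decide)) (Le.toTwo hf 2 1 n10 (by decide +kernel)) (Le.toCol hf 2 n23 (by decide +kernel)) (Le.toCol hf 1 n11.sy (by decide +kernel)) (Le.toCol hf 0 n21.sy (by decide +kernel)) (Le.toNE n25.sy (by decide +kernel))) (by decide +kernel)).sy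
  exact Le.toNT hf 0 n26 (by decide +kernel)

theorem dfa {k l : Fin (m + 1)} (hkl : k ≠ l) {x xl y y2 : D} (h1 : W.Col k x xl)
    (h2 : W.Col k y y2) (h3 : W.Col l xl y) (h4 : W.NT k x y) (h5 : W.NT k xl y2) :
    W.NT k x y2 := by
  obtain ⟨f, hf, rfl, rfl⟩ := good2 hm hkl
  have hkb : f 0 ≠ f 2 := hf.inj.ne (by decide)
  have hlb : f 1 ≠ f 2 := hf.inj.ne (by decide)
  obtain ⟨r, r1, r2⟩ := Le.ex hf 3 5 (Le.top (f := f) (W := W) x y2) (by decide +kernel)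
  have hr := Le.toCol hf 0 r1.sy (by decide +kernel)
  obtain ⟨e1, Y, e2, e3, e4, e5⟩ := W.stepA hm hkl hkb hlb hr
  exact W.dfa0 hm hkl hkb hlb h1 h2 h3 h4 h5 hr (Le.toCol hf 1 r2 (by decide +kernel)) e2 e3 e4 e5

theorem df0 {k l : Fin (m + 1)} (hkl : k ≠ l) {x x2 y y2 : D}
    (h0 : W.Col k x x2)
    (h1 : W.Col k y y2)
    (h2 : W.NT k x y)
    (h3 : W.NT k x2 y)
    (h4 : W.NT k x2 y2)
    : W.NT k x y2 := by
  obtain ⟨f, hf, rfl, rfl⟩ := good2 hm hkl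
  have n0 : W.Le f 3 x x2 := Le.ofCol hf 0 3 h0 (by decide +kernel)
  have n1 : W.Le f 3 y y2 := Le.ofCol hf 0 3 h1 (by decide +kernel)
  have n2 : W.Le f 125 x y := Le.ofNT hf 0 125 h2 (by decide +kernel)
  have n3 : W.Le f 125 x2 y := Le.ofNT hf 0 125 h3 (by decide +kernel)
  have n4 : W.Le f 125 x2 y2 := Le.ofNT hf 0 125 h4 (by decide +kernel)
  obtain ⟨xl, x4, y4⟩ := Le.ex hf 3 5 n2 (by decide +kernel)
  have n5 : W.Le f 3 x xl := x4
  have n6 : W.Le f 5 y xl := y4.sy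
  have n7 : W.Le f 3 x2 xl := (Le.pc hf 3 n5.sy n0 (by decide +kernel)).sy
  obtain ⟨z, x5, y5⟩ := Le.ex hf 3 5 n3.sy (by decide +kernel)
  have n8 : W.Le f 3 y z := x5
  have n9 : W.Le f 5 x2 z := y5.sy
  have n10 : W.Le f 3 y2 z := (Le.pc hf 3 n8.sy n1 (by decide +kernel)).sy
  have n11 : W.Le f 125 xl z := Le.ofNT hf 0 125 (W.box_T hm (hf.inj.ne (show (0 : Fin 5) ≠ 1 by decide)) (Le.toCol hf 0 n7 (by decide +kernel)) (Le.toCol hf 1 n6.sy (by decide +kernel)) (Le.toCol hf 1 n9 (by decide +kernel)) (Le.toCol hf 0 n8.sy (by decide +kernel)) (Le.toNT hf 0 n3 (by decide +kernel))) (by decide +kernel)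
  have n12 : W.Le f 125 y2 xl := Le.ofNT hf 0 125 (W.dfa hm (hf.inj.ne (show (0 : Fin 5) ≠ 1 by decide)) (Le.toCol hf 0 n10 (by decide +kernel)) (Le.toCol hf 0 n7 (by decide +kernel)) (Le.toCol hf 1 n9.sy (by decide +kernel)) (Le.toNT hf 0 n4.sy (by decide +kernel)) (Le.toNT hf 0 n11.sy (by decide +kernel))) (by decide +kernel)
  have n13 : W.Le f 125 x y2 := Le.ofNT hf 0 125 (W.dfa hm (hf.inj.ne (show (0 : Fin 5) ≠ 1 by decide)) (Le.toCol hf 0 n5 (by decide +kernel)) (Le.toCol hf 0 n1 (by decide +kernel)) (Le.toCol hf 1 n6.sy (by decide +kernel)) (Le.toNT hf 0 n2 (by decide +kernel)) (Le.toNT hf 0 n12.sy (by decide +kernel))) (by decide +kernel)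
  exact Le.toNT hf 0 n13 (by decide +kernel)

theorem df {k : Fin (m + 1)} {x x2 y y2 : D} (h1 : W.Col k x x2) (h2 : W.Col k y y2)
    (h3 : W.NT k x y) (h4 : W.NT k x2 y) (h5 : W.NT k x2 y2) : W.NT k x y2 := by
  obtain ⟨f, hf, rfl⟩ := good1 hm k
  exact W.df0 hm (hf.inj.ne (show (0 : Fin 5) ≠ 1 by decide)) h1 h2 h3 h4 h5

/-- transitivity of inclusion at an anchor `o`: lines `X` through `P,R` (class `a`), `Y` through `P,Q` (class `b`), `Z` through `Q,R` (class `c`) -/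
theorem tr4 {a b c : Fin (m + 1)} (hab : a ≠ b) (hac : a ≠ c) (hbc : b ≠ c) {o P Q R : D}
    (h0 : W.Col b P Q)
    (h1 : W.Col c Q R)
    (h2 : W.Col a P R)
    (h3 : W.NT a P o)
    (h4 : W.NT b Q o)
    : W.NT a R o := by
  obtain ⟨f, hf, rfl, rfl, rfl⟩ := good3 hm hab hac hbc
  have n0 : W.Le f 5 P Q := Le.ofCol hf 1 5 h0 (by decide +kernel)
  have n1 : W.Le f 9 Q R := Le.ofCol hf 2 9 h1 (by decide +kernel)
  have n2 : W.Le f 3 P R := Le.ofCol hf 0 3 h2 (by decide +kernel)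
  have n3 : W.Le f 125 o P := (Le.ofNT hf 0 125 h3 (by decide +kernel)).sy
  have n4 : W.Le f 123 o Q := (Le.ofNT hf 1 123 h4 (by decide +kernel)).sy
  obtain ⟨c4, x4, y4⟩ := Le.ex hf 3 5 n3 (by decide +kernel)
  have n5 : W.Le f 3 o c4 := x4
  have n6 : W.Le f 5 P c4 := y4.sy
  obtain ⟨c5, x5, y5⟩ := Le.ex hf 6 4 n3 (by decide +kernel)
  have n8 : W.Le f 6 o c5 := x5
  have n9 : W.Le f 4 P c5 := y5.sy
  have n10 : W.Le f 5 Q c5 := (Le.pc hf 5 n9.sy n0 (by decide +kernel)).sy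
  have n11 : W.Le f 124 R c5 := (Le.pc hf 124 n9.sy n2 (by decide +kernel)).sy
  have n12 : W.Le f 5 c4 c5 := (Le.pc hf 5 n9.sy n6 (by decide +kernel)).sy
  obtain ⟨c6, x6, y6⟩ := Le.ex hf 6 4 n11 (by decide +kernel)
  have n13 : W.Le f 6 R c6 := x6
  have n14 : W.Le f 4 c5 c6 := y6.sy
  have n15 : W.Le f 125 o c6 := (Le.pc hf 125 n14.sy n8.sy (by decide +kernel)).sy
  have n17 : W.Le f 5 Q c6 := (Le.pc hf 5 n14.sy n10.sy (by decide +kernel)).sy
  have n18 : W.Le f 5 c4 c6 := (Le.pc hf 5 n14.sy n12.sy (by decide +kernel)).sy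
  have n19 : W.Le f 118 Q c6 := (Le.pc hf 118 n13.sy n1.sy (by decide +kernel)).sy
  have n20 : W.Le f 4 Q c6 := Le.an 4 n19 n17 rfl
  have n21 : W.Le f 126 o c6 := (Le.pc hf 126 n20.sy n4.sy (by decide +kernel)).sy
  have n22 : W.Le f 124 o c6 := Le.an 124 n21 n15 rfl
  have n23 : W.Le f 124 c4 c6 := (Le.pc hf 124 n22.sy n5 (by decide +kernel)).sy
  have n24 : W.Le f 4 c4 c6 := Le.an 4 n23 n18 rfl
  have n25 : W.Le f 125 R c4 := (Le.pc hf 125 n24 n13.sy (by decide +kernel)).sy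
  have n26 : W.Le f 125 o R := Le.ofNT hf 0 125 (W.df hm (Le.toCol hf 0 n5 (by decide +kernel)) (Le.toCol hf 0 n2 (by decide +kernel)) (Le.toNT hf 0 n3 (by decide +kernel)) (Le.toNT hf 0 n6.sy (by decide +kernel)) (Le.toNT hf 0 n25.sy (by decide +kernel))) (by decide +kernel)
  exact Le.toNT hf 0 n26.sy (by decide +kernel)

theorem k3 {a b c : Fin (m + 1)} (hab : a ≠ b) (hac : a ≠ c) (hbc : b ≠ c) {o P Q R : D}
    (h0 : W.Col b P Q)
    (h1 : W.Col c Q R)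
    (h2 : W.Col a P R)
    (h3 : W.NT a P o)
    (h4 : W.NE Q o)
    : W.NE R o := by
  obtain ⟨f, hf, rfl, rfl, rfl⟩ := good3 hm hab hac hbc
  have n0 : W.Le f 5 P Q := Le.ofCol hf 1 5 h0 (by decide +kernel)
  have n1 : W.Le f 9 Q R := Le.ofCol hf 2 9 h1 (by decide +kernel)
  have n2 : W.Le f 3 P R := Le.ofCol hf 0 3 h2 (by decide +kernel)
  have n3 : W.Le f 125 o P := (Le.ofNT hf 0 125 h3 (by decide +kernel)).sy
  have n4 : W.Le f 126 o Q := (Le.ofNE hf 126 h4 (by decide +kernel)).sy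
  obtain ⟨Q1, x4, y4⟩ := Le.ex hf 4 123 n4.sy (by decide +kernel)
  have n5 : W.Le f 4 Q Q1 := x4
  have n6 : W.Le f 123 o Q1 := y4.sy
  have n7 : W.Le f 5 P Q1 := (Le.pc hf 5 n5.sy n0.sy (by decide +kernel)).sy
  have n8 : W.Le f 118 R Q1 := (Le.pc hf 118 n5.sy n1 (by decide +kernel)).sy
  obtain ⟨R1, x5, y5⟩ := Le.ex hf 3 9 n7 (by decide +kernel)
  have n9 : W.Le f 3 P R1 := x5
  have n10 : W.Le f 9 Q1 R1 := y5.sy
  have n11 : W.Le f 3 R R1 := (Le.pc hf 3 n9.sy n2 (by decide +kernel)).sy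
  have n13 : W.Le f 118 R R1 := (Le.pc hf 118 n10.sy n8.sy (by decide +kernel)).sy
  have n14 : W.Le f 2 R R1 := Le.an 2 n13 n11 rfl
  have n15 : W.Le f 125 o R1 := (Le.ofNT hf 0 125 (W.tr4 hm (hf.inj.ne (show (0 : Fin 5) ≠ 1 by decide)) (hf.inj.ne (show (0 : Fin 5) ≠ 2 by decide)) (hf.inj.ne (show (1 : Fin 5) ≠ 2 by decide)) (Le.toCol hf 1 n7 (by decide +kernel)) (Le.toCol hf 2 n10 (by decide +kernel)) (Le.toCol hf 0 n9 (by decide +kernel)) (Le.toNT hf 0 n3.sy (by decide +kernel)) (Le.toNT hf 1 n6.sy (by decide +kernel))) (by decide +kernel)).sy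
  have n16 : W.Le f 126 o R := Le.pc hf 126 n15 n14.sy (by decide +kernel)
  exact Le.toNE n16.sy (by decide +kernel)

theorem ww_j1 {c a b j : Fin (m + 1)} (hca : c ≠ a) (hcb : c ≠ b) (hcj : c ≠ j) (hab : a ≠ b) (haj : a ≠ j) (hbj : b ≠ j) {x h k n : D}
    (h0 : W.Col c h k)
    (h1 : W.Col c h x)
    (h2 : W.Col a h n)
    (h3 : W.Col b k n)
    : ∃ y : D, W.Far c y h ∧ W.Far c y k ∧ W.Two c j y n := by
  obtain ⟨f, hf, rfl, rfl, rfl, rfl⟩ := good4 hm hca hcb hcj hab haj hbj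
  have n0 : W.Le f 3 h k := Le.ofCol hf 0 3 h0 (by decide +kernel)
  have n1 : W.Le f 3 x h := (Le.ofCol hf 0 3 h1 (by decide +kernel)).sy
  have n2 : W.Le f 5 h n := Le.ofCol hf 1 5 h2 (by decide +kernel)
  have n3 : W.Le f 9 k n := Le.ofCol hf 2 9 h3 (by decide +kernel)
  have n4 : W.Le f 3 x k := Le.pc hf 3 n1 n0 (by decide +kernel)
  obtain ⟨y, x4, y4⟩ := Le.ex hf 3 18 (Le.top (f := f) (W := W) x n) (by decide +kernel)
  have n5 : W.Le f 3 x y := x4
  have n6 : W.Le f 18 n y := y4.sy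
  have n7 : W.Le f 3 h y := (Le.pc hf 3 n5.sy n1 (by decide +kernel)).sy
  have n8 : W.Le f 3 k y := (Le.pc hf 3 n5.sy n4 (by decide +kernel)).sy
  have n9 : W.Le f 122 h y := (Le.pc hf 122 n6.sy n2.sy (by decide +kernel)).sy
  have n10 : W.Le f 2 h y := Le.an 2 n9 n7 rfl
  have n11 : W.Le f 118 k y := (Le.pc hf 118 n6.sy n3.sy (by decide +kernel)).sy
  have n12 : W.Le f 2 k y := Le.an 2 n11 n8 rfl
  exact ⟨y, Le.toFar hf 0 n10.sy (by decide +kernel), Le.toFar hf 0 n12.sy (by decide +kernel), Le.toTwo hf 0 3 n6.sy (by decide +kernel)⟩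

theorem ww_j2 {c j : Fin (m + 1)} (hcj : c ≠ j) {x n y : D}
    (h0 : W.Two c j y n)
    (h1 : W.Far c y x)
    : W.NT j x n := by
  obtain ⟨f, hf, rfl, rfl⟩ := good2 hm hcj
  have n0 : W.Le f 6 n y := (Le.ofTwo hf 0 1 6 h0 (by decide +kernel)).sy
  have n1 : W.Le f 2 x y := (Le.ofFar hf 0 2 h1 (by decide +kernel)).sy
  have n2 : W.Le f 123 x n := Le.pc hf 123 n1 n0.sy (by decide +kernel)
  exact Le.toNT hf 1 n2 (by decide +kernel)

theorem ww_c {c a b : Fin (m + 1)} (hca : c ≠ a) (hcb : c ≠ b) (hab : a ≠ b) {x h k n : D}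
    (h0 : W.Col c h k)
    (h1 : W.Col c h x)
    (h2 : W.Col a h n)
    (h3 : W.Col b k n)
    (h4 : W.lab x n ⊆ {none, some c, some a, some b})
    (hx : ∀ y, W.Far c y h → W.Far c y k → W.Far c y x) : W.NT c x n := by
  obtain ⟨f, hf, rfl, rfl, rfl⟩ := good3 hm hca hcb hab
  have n0 : W.Le f 3 h k := Le.ofCol hf 0 3 h0 (by decide +kernel)
  have n2 : W.Le f 5 h n := Le.ofCol hf 1 5 h2 (by decide +kernel)
  have n3 : W.Le f 9 k n := Le.ofCol hf 2 9 h3 (by decide +kernel)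
  have n4 : W.Le f 15 x n := Le.ofTriE hf 0 1 2 15 h4 (by decide +kernel)
  obtain ⟨g, x4, y4⟩ := Le.ex hf 14 4 n4 (by decide +kernel)
  have n6 : W.Le f 14 x g := x4
  have n7 : W.Le f 4 n g := y4.sy
  have n8 : W.Le f 5 h g := (Le.pc hf 5 n7.sy n2.sy (by decide +kernel)).sy
  have n9 : W.Le f 118 k g := (Le.pc hf 118 n7.sy n3.sy (by decide +kernel)).sy
  obtain ⟨y, x5, y5⟩ := Le.ex hf 2 10 n9 (by decide +kernel)
  have n10 : W.Le f 2 k y := x5
  have n11 : W.Le f 10 g y := y5.sy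
  have n13 : W.Le f 3 h y := (Le.pc hf 3 n10.sy n0.sy (by decide +kernel)).sy
  have n15 : W.Le f 122 h y := (Le.pc hf 122 n11.sy n8.sy (by decide +kernel)).sy
  have n16 : W.Le f 2 h y := Le.an 2 n15 n13 rfl
  have n19 : W.Le f 2 x y := (Le.ofFar hf 0 2 (hx y (Le.toFar hf 0 n16.sy (by decide +kernel)) (Le.toFar hf 0 n10.sy (by decide +kernel))) (by decide +kernel)).sy
  have n20 : W.Le f 119 x g := Le.pc hf 119 n19 n11.sy (by decide +kernel)
  have n21 : W.Le f 6 x g := Le.an 6 n20 n6 rfl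
  have n22 : W.Le f 125 x n := Le.pc hf 125 n21 n7.sy (by decide +kernel)
  have n23 : W.Le f 13 x n := Le.an 13 n22 n4 rfl
  exact Le.toNT hf 0 n23 (by decide +kernel)

theorem ww_lab {c a b : Fin (m + 1)} (hca : c ≠ a) (hcb : c ≠ b) (hab : a ≠ b) {x h k n : D}
    (h1 : W.Col c h k) (h2 : W.Col c h x) (h3 : W.Col a h n) (h4 : W.Col b k n)
    (hx : ∀ y, W.Far c y h → W.Far c y k → W.Far c y x) : W.TwoE a b x n := by
  have key : W.lab x n ⊆ {none, some c, some a, some b} := by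
    intro z hz
    rcases z with _ | j
    · left; rfl
    · by_cases h5 : j = c
      · right; left; rw [h5]
      · by_cases h6 : j = a
        · right; right; left; rw [h6]
        · by_cases h7 : j = b
          · right; right; right; rw [h7]; rfl
          · obtain ⟨y, y1, y2, y3⟩ := W.ww_j1 hm hca hcb (Ne.symm h5) hab (Ne.symm h6) (Ne.symm h7)
              h1 h2 h3 h4
            exact absurd hz (W.ww_j2 hm (Ne.symm h5) y3 (hx y y1 y2))
  intro z hz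
  rcases key hz with h5 | h5 | h5 | h5
  · left; exact h5
  · subst h5; exact absurd hz (W.ww_c hm hca hcb hab h1 h2 h3 h4 key hx)
  · right; left; exact h5
  · right; right; exact h5

theorem swap_far1 {c a b : Fin (m + 1)} (hca : c ≠ a) (hcb : c ≠ b) (hab : a ≠ b) {s t n z w y : D}
    (h0 : W.Far c s t)
    (h1 : W.Far a s n)
    (h2 : W.Far b t n)
    (h3 : W.Two a b z n)
    (h4 : W.Two a b w n)
    (h5 : W.Col c z s)
    (h6 : W.Col c w s)
    (h7 : W.Far c z w)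
    (h8 : W.Far c y z)
    (h9 : W.Far c y w)
    : W.Far c y t := by
  obtain ⟨f, hf, rfl, rfl, rfl⟩ := good3 hm hca hcb hab
  have n0 : W.Le f 2 s t := Le.ofFar hf 0 2 h0 (by decide +kernel)
  have n2 : W.Le f 8 t n := Le.ofFar hf 2 8 h2 (by decide +kernel)
  have n3 : W.Le f 12 n z := (Le.ofTwo hf 1 2 12 h3 (by decide +kernel)).sy
  have n4 : W.Le f 12 n w := (Le.ofTwo hf 1 2 12 h4 (by decide +kernel)).sy
  have n6 : W.Le f 3 s w := (Le.ofCol hf 0 3 h6 (by decide +kernel)).sy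
  have n7 : W.Le f 2 z w := Le.ofFar hf 0 2 h7 (by decide +kernel)
  have n8 : W.Le f 2 z y := (Le.ofFar hf 0 2 h8 (by decide +kernel)).sy
  have n9 : W.Le f 2 w y := (Le.ofFar hf 0 2 h9 (by decide +kernel)).sy
  have n11 : W.Le f 3 t w := Le.pc hf 3 n0.sy n6 (by decide +kernel)
  have n13 : W.Le f 3 t y := (Le.pc hf 3 n9.sy n11.sy (by decide +kernel)).sy
  have n14 : W.Le f 124 n y := (Le.pc hf 124 n9.sy n4.sy (by decide +kernel)).sy
  obtain ⟨g, x6, y6⟩ := Le.ex hf 4 8 n8 (by decide +kernel)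
  have n15 : W.Le f 4 z g := x6
  have n16 : W.Le f 8 y g := y6.sy
  have n19 : W.Le f 116 w g := (Le.pc hf 116 n16.sy n9.sy (by decide +kernel)).sy
  have n20 : W.Le f 119 n g := (Le.pc hf 119 n15.sy n3.sy (by decide +kernel)).sy
  have n21 : W.Le f 120 w g := (Le.pc hf 120 n15.sy n7 (by decide +kernel)).sy
  have n22 : W.Le f 112 w g := Le.an 112 n21 n19 rfl
  have n23 : W.Le f 126 n g := (Le.pc hf 126 n22.sy n4.sy (by decide +kernel)).sy
  have n24 : W.Le f 118 n g := Le.an 118 n23 n20 rfl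
  have n27 : W.Le f 118 n y := Le.pc hf 118 n24 n16.sy (by decide +kernel)
  have n28 : W.Le f 116 n y := Le.an 116 n27 n14 rfl
  have n29 : W.Le f 118 t y := (Le.pc hf 118 n28.sy n2.sy (by decide +kernel)).sy
  have n30 : W.Le f 2 t y := Le.an 2 n29 n13 rfl
  exact Le.toFar hf 0 n30.sy (by decide +kernel)

theorem swap_far2 {c a b : Fin (m + 1)} (hca : c ≠ a) (hcb : c ≠ b) (hab : a ≠ b) {s t n z w y : D}
    (h0 : W.Far c s t)
    (h1 : W.Far a s n)
    (h2 : W.Far b t n)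
    (h3 : W.Two a b z n)
    (h4 : W.Two a b w n)
    (h5 : W.Col c z s)
    (h6 : W.Col c w s)
    (h7 : W.Far c z w)
    (h8 : W.Far c y z)
    (h9 : W.Far c y w)
    : W.Far c y s := by
  obtain ⟨f, hf, rfl, rfl, rfl⟩ := good3 hm hca hcb hab
  have n1 : W.Le f 4 s n := Le.ofFar hf 1 4 h1 (by decide +kernel)
  have n3 : W.Le f 12 n z := (Le.ofTwo hf 1 2 12 h3 (by decide +kernel)).sy
  have n4 : W.Le f 12 n w := (Le.ofTwo hf 1 2 12 h4 (by decide +kernel)).sy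
  have n6 : W.Le f 3 s w := (Le.ofCol hf 0 3 h6 (by decide +kernel)).sy
  have n7 : W.Le f 2 z w := Le.ofFar hf 0 2 h7 (by decide +kernel)
  have n8 : W.Le f 2 z y := (Le.ofFar hf 0 2 h8 (by decide +kernel)).sy
  have n9 : W.Le f 2 w y := (Le.ofFar hf 0 2 h9 (by decide +kernel)).sy
  have n12 : W.Le f 3 s y := (Le.pc hf 3 n9.sy n6.sy (by decide +kernel)).sy
  have n14 : W.Le f 124 n y := (Le.pc hf 124 n9.sy n4.sy (by decide +kernel)).sy
  obtain ⟨g, x6, y6⟩ := Le.ex hf 8 4 n8 (by decide +kernel)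
  have n15 : W.Le f 8 z g := x6
  have n16 : W.Le f 4 y g := y6.sy
  have n19 : W.Le f 120 w g := (Le.pc hf 120 n16.sy n9.sy (by decide +kernel)).sy
  have n20 : W.Le f 123 n g := (Le.pc hf 123 n15.sy n3.sy (by decide +kernel)).sy
  have n21 : W.Le f 116 w g := (Le.pc hf 116 n15.sy n7 (by decide +kernel)).sy
  have n22 : W.Le f 112 w g := Le.an 112 n21 n19 rfl
  have n23 : W.Le f 126 n g := (Le.pc hf 126 n22.sy n4.sy (by decide +kernel)).sy
  have n24 : W.Le f 122 n g := Le.an 122 n23 n20 rfl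
  have n27 : W.Le f 122 n y := Le.pc hf 122 n24 n16.sy (by decide +kernel)
  have n28 : W.Le f 120 n y := Le.an 120 n27 n14 rfl
  have n29 : W.Le f 122 s y := (Le.pc hf 122 n28.sy n1.sy (by decide +kernel)).sy
  have n30 : W.Le f 2 s y := Le.an 2 n29 n12 rfl
  exact Le.toFar hf 0 n30.sy (by decide +kernel)

theorem swap_far {c a b : Fin (m + 1)} (hca : c ≠ a) (hcb : c ≠ b) (hab : a ≠ b)
    {s t n z w y : D} (hst : W.Far c s t) (h1 : W.Far a s n) (h2 : W.Far b t n)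
    (hz : W.Two a b z n) (hw : W.Two a b w n) (hzs : W.Col c z s) (hws : W.Col c w s)
    (hzw : W.Far c z w) (hyz : W.Far c y z) (hyw : W.Far c y w) :
    W.Far c y s ∧ W.Far c y t :=
  ⟨W.swap_far2 hm hca hcb hab hst h1 h2 hz hw hzs hws hzw hyz hyw,
    W.swap_far1 hm hca hcb hab hst h1 h2 hz hw hzs hws hzw hyz hyw⟩

theorem pm_b {c a b j : Fin (m + 1)} (hca : c ≠ a) (hcb : c ≠ b) (hcj : c ≠ j) (hab : a ≠ b) (haj : a ≠ j) (hbj : b ≠ j) {z Y g sg gj : D}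
    (h0 : W.Far a z Y)
    (h1 : W.Col c z g)
    (h2 : W.Two a b g Y)
    (h3 : W.Col a z sg)
    (h4 : W.Col b g sg)
    (h5 : W.Col j gj sg)
    (h6 : W.Col c gj z)
    : W.NT b gj Y := by
  obtain ⟨f, hf, rfl, rfl, rfl, rfl⟩ := good4 hm hca hcb hcj hab haj hbj
  have n0 : W.Le f 4 z Y := Le.ofFar hf 1 4 h0 (by decide +kernel)
  have n1 : W.Le f 3 z g := Le.ofCol hf 0 3 h1 (by decide +kernel)
  have n2 : W.Le f 12 Y g := (Le.ofTwo hf 1 2 12 h2 (by decide +kernel)).sy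
  have n3 : W.Le f 5 z sg := Le.ofCol hf 1 5 h3 (by decide +kernel)
  have n4 : W.Le f 9 g sg := Le.ofCol hf 2 9 h4 (by decide +kernel)
  have n5 : W.Le f 17 sg gj := (Le.ofCol hf 3 17 h5 (by decide +kernel)).sy
  have n6 : W.Le f 3 z gj := (Le.ofCol hf 0 3 h6 (by decide +kernel)).sy
  have n8 : W.Le f 124 Y gj := Le.pc hf 124 n0.sy n6 (by decide +kernel)
  have n9 : W.Le f 3 g gj := (Le.pc hf 3 n6.sy n1 (by decide +kernel)).sy
  obtain ⟨u, x5, y5⟩ := Le.ex hf 5 9 n6 (by decide +kernel)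
  have n10 : W.Le f 5 z u := x5
  have n11 : W.Le f 9 gj u := y5.sy
  have n12 : W.Le f 5 Y u := (Le.pc hf 5 n10.sy n0 (by decide +kernel)).sy
  have n13 : W.Le f 5 sg u := (Le.pc hf 5 n10.sy n3 (by decide +kernel)).sy
  have n14 : W.Le f 119 g u := (Le.ofNT hf 2 119 (W.ind_T hm (hf.inj.ne (show (2 : Fin 5) ≠ 3 by decide)) (hf.inj.ne (show (2 : Fin 5) ≠ 1 by decide)) (hf.inj.ne (show (3 : Fin 5) ≠ 1 by decide)) (Le.toCol hf 2 n11 (by decide +kernel)) (Le.toCol hf 2 n4.sy (by decide +kernel)) (Le.toCol hf 3 n5.sy (by decide +kernel)) (Le.toCol hf 1 n13.sy (by decide +kernel)) (Le.toNT hf 2 n9.sy (by decide +kernel))) (by decide +kernel)).sy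
  have n15 : W.Le f 123 g u := (Le.ofNT hf 1 123 (W.tr4 hm (hf.inj.ne (show (1 : Fin 5) ≠ 3 by decide)) (hf.inj.ne (show (1 : Fin 5) ≠ 2 by decide)) (hf.inj.ne (show (3 : Fin 5) ≠ 2 by decide)) (Le.toCol hf 3 n5 (by decide +kernel)) (Le.toCol hf 2 n11 (by decide +kernel)) (Le.toCol hf 1 n13 (by decide +kernel)) (Le.toNT hf 1 n4.sy (by decide +kernel)) (Le.toNT hf 3 n9.sy (by decide +kernel))) (by decide +kernel)).sy
  have n16 : W.Le f 115 g u := Le.an 115 n15 n14 rfl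
  have n17 : W.Le f 125 g u := Le.ofNT hf 0 125 (W.tr4 hm (hf.inj.ne (show (0 : Fin 5) ≠ 3 by decide)) (hf.inj.ne (show (0 : Fin 5) ≠ 2 by decide)) (hf.inj.ne (show (3 : Fin 5) ≠ 2 by decide)) (Le.toCol hf 3 n5.sy (by decide +kernel)) (Le.toCol hf 2 n4.sy (by decide +kernel)) (Le.toCol hf 0 n9.sy (by decide +kernel)) (Le.toNT hf 0 n11 (by decide +kernel)) (Le.toNT hf 3 n13 (by decide +kernel))) (by decide +kernel)
  have n18 : W.Le f 113 g u := Le.an 113 n17 n16 rfl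
  have n19 : W.Le f 126 Y u := (Le.pc hf 126 n18.sy n2.sy (by decide +kernel)).sy
  have n20 : W.Le f 4 Y u := Le.an 4 n19 n12 rfl
  have n21 : W.Le f 118 Y gj := Le.pc hf 118 n20 n11.sy (by decide +kernel)
  have n22 : W.Le f 116 Y gj := Le.an 116 n21 n8 rfl
  exact Le.toNT hf 2 n22.sy (by decide +kernel)

theorem pm_e {c a b j : Fin (m + 1)} (hca : c ≠ a) (hcb : c ≠ b) (hcj : c ≠ j) (hab : a ≠ b) (haj : a ≠ j) (hbj : b ≠ j) {z Y g sg gj : D}
    (h0 : W.Far a z Y)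
    (h1 : W.Col c z g)
    (h2 : W.Two a b g Y)
    (h3 : W.Col a z sg)
    (h4 : W.Col b g sg)
    (h5 : W.Col j gj sg)
    (h6 : W.Col c gj z)
    : W.NE gj Y := by
  obtain ⟨f, hf, rfl, rfl, rfl, rfl⟩ := good4 hm hca hcb hcj hab haj hbj
  have n0 : W.Le f 4 z Y := Le.ofFar hf 1 4 h0 (by decide +kernel)
  have n6 : W.Le f 3 z gj := (Le.ofCol hf 0 3 h6 (by decide +kernel)).sy
  have n8 : W.Le f 124 Y gj := Le.pc hf 124 n0.sy n6 (by decide +kernel)
  exact Le.toNE n8.sy (by decide +kernel)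

theorem pm_c {c a b j : Fin (m + 1)} (hca : c ≠ a) (hcb : c ≠ b) (hcj : c ≠ j) (hab : a ≠ b) (haj : a ≠ j) (hbj : b ≠ j) {z Y g sg gj : D}
    (h0 : W.Far a z Y)
    (h1 : W.Col c z g)
    (h2 : W.Two a b g Y)
    (h3 : W.Col a z sg)
    (h4 : W.Col b g sg)
    (h5 : W.Col j gj sg)
    (h6 : W.Col c gj z)
    : W.NT c gj Y := by
  obtain ⟨f, hf, rfl, rfl, rfl, rfl⟩ := good4 hm hca hcb hcj hab haj hbj
  have n0 : W.Le f 4 z Y := Le.ofFar hf 1 4 h0 (by decide +kernel)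
  have n6 : W.Le f 3 z gj := (Le.ofCol hf 0 3 h6 (by decide +kernel)).sy
  have n8 : W.Le f 124 Y gj := Le.pc hf 124 n0.sy n6 (by decide +kernel)
  exact Le.toNT hf 0 n8.sy (by decide +kernel)

theorem pm_i {c a b j i : Fin (m + 1)} (hca : c ≠ a) (hcb : c ≠ b) (hcj : c ≠ j) (hci : c ≠ i) (hab : a ≠ b) (haj : a ≠ j) (hai : a ≠ i) (hbj : b ≠ j) (hbi : b ≠ i) (hji : j ≠ i) {z Y g sg gj : D}
    (h0 : W.Far a z Y)
    (h1 : W.Col c z g)
    (h2 : W.Two a b g Y)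
    (h3 : W.Col a z sg)
    (h4 : W.Col b g sg)
    (h5 : W.Col j gj sg)
    (h6 : W.Col c gj z)
    : W.NT i gj Y := by
  obtain ⟨f, hf, rfl, rfl, rfl, rfl, rfl⟩ := good5 hm hca hcb hcj hci hab haj hai hbj hbi hji
  have n0 : W.Le f 4 z Y := Le.ofFar hf 1 4 h0 (by decide +kernel)
  have n1 : W.Le f 3 z g := Le.ofCol hf 0 3 h1 (by decide +kernel)
  have n2 : W.Le f 12 Y g := (Le.ofTwo hf 1 2 12 h2 (by decide +kernel)).sy
  have n3 : W.Le f 5 z sg := Le.ofCol hf 1 5 h3 (by decide +kernel)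
  have n4 : W.Le f 9 g sg := Le.ofCol hf 2 9 h4 (by decide +kernel)
  have n5 : W.Le f 17 sg gj := (Le.ofCol hf 3 17 h5 (by decide +kernel)).sy
  have n6 : W.Le f 3 z gj := (Le.ofCol hf 0 3 h6 (by decide +kernel)).sy
  have n8 : W.Le f 124 Y gj := Le.pc hf 124 n0.sy n6 (by decide +kernel)
  have n9 : W.Le f 3 g gj := (Le.pc hf 3 n6.sy n1 (by decide +kernel)).sy
  obtain ⟨u, x5, y5⟩ := Le.ex hf 5 33 n6 (by decide +kernel)
  have n10 : W.Le f 5 z u := x5
  have n11 : W.Le f 33 gj u := y5.sy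
  have n12 : W.Le f 5 Y u := (Le.pc hf 5 n10.sy n0 (by decide +kernel)).sy
  have n13 : W.Le f 5 sg u := (Le.pc hf 5 n10.sy n3 (by decide +kernel)).sy
  have n14 : W.Le f 119 g u := Le.ofNT hf 2 119 (W.tr4 hm (hf.inj.ne (show (2 : Fin 5) ≠ 3 by decide)) (hf.inj.ne (show (2 : Fin 5) ≠ 0 by decide)) (hf.inj.ne (show (3 : Fin 5) ≠ 0 by decide)) (Le.toCol hf 3 n5 (by decide +kernel)) (Le.toCol hf 0 n9.sy (by decide +kernel)) (Le.toCol hf 2 n4.sy (by decide +kernel)) (Le.toNT hf 2 n13 (by decide +kernel)) (Le.toNT hf 3 n11 (by decide +kernel))) (by decide +kernel)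
  have n15 : W.Le f 123 g u := (Le.ofNT hf 1 123 (W.tr4 hm (hf.inj.ne (show (1 : Fin 5) ≠ 3 by decide)) (hf.inj.ne (show (1 : Fin 5) ≠ 4 by decide)) (hf.inj.ne (show (3 : Fin 5) ≠ 4 by decide)) (Le.toCol hf 3 n5 (by decide +kernel)) (Le.toCol hf 4 n11 (by decide +kernel)) (Le.toCol hf 1 n13 (by decide +kernel)) (Le.toNT hf 1 n4.sy (by decide +kernel)) (Le.toNT hf 3 n9.sy (by decide +kernel))) (by decide +kernel)).sy
  have n16 : W.Le f 115 g u := Le.an 115 n15 n14 rfl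
  have n17 : W.Le f 125 g u := Le.ofNT hf 0 125 (W.tr4 hm (hf.inj.ne (show (0 : Fin 5) ≠ 3 by decide)) (hf.inj.ne (show (0 : Fin 5) ≠ 2 by decide)) (hf.inj.ne (show (3 : Fin 5) ≠ 2 by decide)) (Le.toCol hf 3 n5.sy (by decide +kernel)) (Le.toCol hf 2 n4.sy (by decide +kernel)) (Le.toCol hf 0 n9.sy (by decide +kernel)) (Le.toNT hf 0 n11 (by decide +kernel)) (Le.toNT hf 3 n13 (by decide +kernel))) (by decide +kernel)
  have n18 : W.Le f 113 g u := Le.an 113 n17 n16 rfl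
  have n19 : W.Le f 95 g u := (Le.ofNT hf 4 95 (W.tr4 hm (hf.inj.ne (show (4 : Fin 5) ≠ 3 by decide)) (hf.inj.ne (show (4 : Fin 5) ≠ 1 by decide)) (hf.inj.ne (show (3 : Fin 5) ≠ 1 by decide)) (Le.toCol hf 3 n5.sy (by decide +kernel)) (Le.toCol hf 1 n13 (by decide +kernel)) (Le.toCol hf 4 n11 (by decide +kernel)) (Le.toNT hf 4 n9.sy (by decide +kernel)) (Le.toNT hf 3 n4.sy (by decide +kernel))) (by decide +kernel)).sy
  have n20 : W.Le f 81 g u := Le.an 81 n19 n18 rfl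
  have n21 : W.Le f 126 Y u := (Le.pc hf 126 n20.sy n2.sy (by decide +kernel)).sy
  have n22 : W.Le f 4 Y u := Le.an 4 n21 n12 rfl
  have n23 : W.Le f 94 Y gj := Le.pc hf 94 n22 n11.sy (by decide +kernel)
  have n24 : W.Le f 92 Y gj := Le.an 92 n23 n8 rfl
  exact Le.toNT hf 4 n24.sy (by decide +kernel)

/-- transport of an element `g` of the closure of `z` and the meet of `Y_b` with the line to the
closure of `z` and the meet of `Y_j` with the line -/
theorem pencil_move {c a b j : Fin (m + 1)} (hca : c ≠ a) (hcb : c ≠ b) (hab : a ≠ b)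
    (hcj : c ≠ j) (haj : a ≠ j) (hbj : b ≠ j) {z Y g sg gj : D} (h1 : W.Far a z Y)
    (h2 : W.Col c z g) (h3 : W.Two a b g Y) (h4 : W.Col a z sg) (h5 : W.Col b g sg)
    (h6 : W.Col j gj sg) (h7 : W.Col c gj z) : W.Two a j gj Y := by
  intro x hx
  rcases x with _ | i
  · exact absurd hx (W.pm_e hm hca hcb hcj hab haj hbj h1 h2 h3 h4 h5 h6 h7)
  · by_cases e1 : i = c
    · subst e1; exact absurd hx (W.pm_c hm hca hcb hcj hab haj hbj h1 h2 h3 h4 h5 h6 h7)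
    · by_cases e2 : i = b
      · subst e2; exact absurd hx (W.pm_b hm hca hcb hcj hab haj hbj h1 h2 h3 h4 h5 h6 h7)
      · by_cases e3 : i = a
        · left; rw [e3]
        · by_cases e4 : i = j
          · right; rw [e4]; rfl
          · exact absurd hx (W.pm_i hm hca hcb hcj (Ne.symm e1) hab haj (Ne.symm e3) hbj
              (Ne.symm e2) (Ne.symm e4) h1 h2 h3 h4 h5 h6 h7)

theorem int_a {c i s l d : Fin (m + 1)} (hci : c ≠ i) (hcs : c ≠ s) (hcl : c ≠ l) (hcd : c ≠ d) (his : i ≠ s) (hil : i ≠ l) (hid : i ≠ d) (hsl : s ≠ l) (hsd : s ≠ d) (hld : l ≠ d) {z w v4 : D}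
    (h0 : W.Col c z w)
    (h1 : W.Col d z v4)
    : ∃ xh w1 g : D, W.Col l z xh ∧ W.Col c xh w1 ∧ W.Col i w1 w ∧ W.Col i z g ∧ W.Col s w1 g ∧ W.NT c w g ∧ W.NT s w1 z ∧ W.NT l xh v4 ∧ W.NT d xh v4 := by
  obtain ⟨f, hf, rfl, rfl, rfl, rfl, rfl⟩ := good5 hm hci hcs hcl hcd his hil hid hsl hsd hld
  have n0 : W.Le f 3 z w := Le.ofCol hf 0 3 h0 (by decide +kernel)
  have n1 : W.Le f 33 z v4 := Le.ofCol hf 4 33 h1 (by decide +kernel)
  obtain ⟨t, x3, y3⟩ := Le.ex hf 5 9 n0.sy (by decide +kernel)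
  have n2 : W.Le f 5 w t := x3
  have n3 : W.Le f 9 z t := y3.sy
  obtain ⟨c0, x4, y4⟩ := Le.ex hf 4 6 n3 (by decide +kernel)
  have n4 : W.Le f 4 z c0 := x4
  have n5 : W.Le f 6 t c0 := y4.sy
  obtain ⟨q3, x5, y5⟩ := Le.ex hf 3 17 n4.sy (by decide +kernel)
  have n8 : W.Le f 3 c0 q3 := x5
  have n9 : W.Le f 17 z q3 := y5.sy
  have n10 : W.Le f 124 z q3 := (Le.pc hf 124 n8.sy n4.sy (by decide +kernel)).sy
  have n11 : W.Le f 16 z q3 := Le.an 16 n10 n9 rfl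
  have n13 : W.Le f 94 v4 q3 := (Le.pc hf 94 n11.sy n1 (by decide +kernel)).sy
  have n15 : W.Le f 106 c0 q3 := (Le.pc hf 106 n11.sy n4 (by decide +kernel)).sy
  have n16 : W.Le f 2 c0 q3 := Le.an 2 n15 n8 rfl
  obtain ⟨xh, x6, y6⟩ := Le.ex hf 16 79 n13.sy (by decide +kernel)
  have n21 : W.Le f 16 q3 xh := x6
  have n22 : W.Le f 79 v4 xh := y6.sy
  have n23 : W.Le f 17 z xh := (Le.pc hf 17 n21.sy n11.sy (by decide +kernel)).sy
  have n24 : W.Le f 108 c0 xh := (Le.pc hf 108 n21.sy n16.sy (by decide +kernel)).sy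
  obtain ⟨w1, x7, y7⟩ := Le.ex hf 3 5 (Le.top (f := f) (W := W) xh w) (by decide +kernel)
  have n25 : W.Le f 3 xh w1 := x7
  have n26 : W.Le f 5 w w1 := y7.sy
  have n27 : W.Le f 124 c0 w1 := (Le.pc hf 124 n25.sy n24.sy (by decide +kernel)).sy
  have n29 : W.Le f 5 t w1 := (Le.pc hf 5 n26.sy n2 (by decide +kernel)).sy
  obtain ⟨g, x8, y8⟩ := Le.ex hf 9 5 (Le.top (f := f) (W := W) w1 z) (by decide +kernel)
  have n32 : W.Le f 9 w1 g := x8
  have n33 : W.Le f 5 z g := y8.sy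
  have n34 : W.Le f 5 c0 g := (Le.pc hf 5 n33.sy n4 (by decide +kernel)).sy
  obtain ⟨U, x9, y9⟩ := Le.ex hf 9 3 n27.sy (by decide +kernel)
  have n36 : W.Le f 9 w1 U := x9
  have n37 : W.Le f 3 c0 U := y9.sy
  have n38 : W.Le f 9 g U := (Le.pc hf 9 n36.sy n32 (by decide +kernel)).sy
  have n43 : W.Le f 124 w1 U := (Le.pc hf 124 n37.sy n27 (by decide +kernel)).sy
  have n44 : W.Le f 8 w1 U := Le.an 8 n43 n36 rfl
  have n47 : W.Le f 122 t U := (Le.pc hf 122 n44.sy n29.sy (by decide +kernel)).sy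
  have n48 : W.Le f 119 t g := (Le.ofNT hf 2 119 (W.swa hm (hf.inj.ne (show (0 : Fin 5) ≠ 1 by decide)) (hf.inj.ne (show (0 : Fin 5) ≠ 2 by decide)) (hf.inj.ne (show (1 : Fin 5) ≠ 2 by decide)) (Le.toTwo hf 0 1 n5 (by decide +kernel)) (Le.toCol hf 0 n37 (by decide +kernel)) (Le.toCol hf 1 n34 (by decide +kernel)) (Le.toCol hf 2 n38.sy (by decide +kernel)) (Le.toNE n47.sy (by decide +kernel))) (by decide +kernel)).sy
  have n49 : W.Le f 119 z w1 := Le.ofNT hf 2 119 (W.df hm (Le.toCol hf 2 n3 (by decide +kernel)) (Le.toCol hf 2 n32.sy (by decide +kernel)) (Le.toNT hf 2 n33 (by decide +kernel)) (Le.toNT hf 2 n48 (by decide +kernel)) (Le.toNT hf 2 n29 (by decide +kernel))) (by decide +kernel)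
  have n50 : W.Le f 125 w g := Le.ofNT hf 0 125 (W.tr4 hm (hf.inj.ne (show (0 : Fin 5) ≠ 2 by decide)) (hf.inj.ne (show (0 : Fin 5) ≠ 1 by decide)) (hf.inj.ne (show (2 : Fin 5) ≠ 1 by decide)) (Le.toCol hf 2 n3 (by decide +kernel)) (Le.toCol hf 1 n2.sy (by decide +kernel)) (Le.toCol hf 0 n0 (by decide +kernel)) (Le.toNT hf 0 n33 (by decide +kernel)) (Le.toNT hf 2 n48 (by decide +kernel))) (by decide +kernel)
  exact ⟨xh, w1, g, Le.toCol hf 3 n23 (by decide +kernel), Le.toCol hf 0 n25 (by decide +kernel), Le.toCol hf 1 n26.sy (by decide +kernel), Le.toCol hf 1 n33 (by decide +kernel), Le.toCol hf 2 n32 (by decide +kernel), Le.toNT hf 0 n50 (by decide +kernel), Le.toNT hf 2 n49.sy (by decide +kernel), Le.toNT hf 3 n22.sy (by decide +kernel), Le.toNT hf 4 n22.sy (by decide +kernel)⟩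

theorem int_b {c i s l d : Fin (m + 1)} (hci : c ≠ i) (hcs : c ≠ s) (hcl : c ≠ l) (hcd : c ≠ d) (his : i ≠ s) (hil : i ≠ l) (hid : i ≠ d) (hsl : s ≠ l) (hsd : s ≠ d) (hld : l ≠ d) {z w v4 xh w1 g gv : D}
    (h0 : W.Col c z w)
    (h1 : W.Col d z v4)
    (h2 : W.Col l z xh)
    (h3 : W.Col c xh w1)
    (h4 : W.Col i w1 w)
    (h5 : W.Col i z g)
    (h6 : W.Col s w1 g)
    (h7 : W.NT s w1 z)
    (h8 : W.NT l xh v4)
    (h9 : W.NT d xh v4)
    (h10 : W.Col s g gv)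
    (h11 : W.Col c v4 gv)
    : W.NT s gv z := by
  obtain ⟨f, hf, rfl, rfl, rfl, rfl, rfl⟩ := good5 hm hci hcs hcl hcd his hil hid hsl hsd hld
  have n1 : W.Le f 33 z v4 := Le.ofCol hf 4 33 h1 (by decide +kernel)
  have n2 : W.Le f 17 z xh := Le.ofCol hf 3 17 h2 (by decide +kernel)
  have n3 : W.Le f 3 xh w1 := Le.ofCol hf 0 3 h3 (by decide +kernel)
  have n6 : W.Le f 9 w1 g := Le.ofCol hf 2 9 h6 (by decide +kernel)
  have n7 : W.Le f 119 z w1 := (Le.ofNT hf 2 119 h7 (by decide +kernel)).sy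
  have n8 : W.Le f 111 v4 xh := (Le.ofNT hf 3 111 h8 (by decide +kernel)).sy
  have n9 : W.Le f 95 v4 xh := (Le.ofNT hf 4 95 h9 (by decide +kernel)).sy
  have n10 : W.Le f 79 v4 xh := Le.an 79 n9 n8 rfl
  have n11 : W.Le f 9 g gv := Le.ofCol hf 2 9 h10 (by decide +kernel)
  have n12 : W.Le f 3 v4 gv := Le.ofCol hf 0 3 h11 (by decide +kernel)
  have n13 : W.Le f 9 w1 gv := Le.pc hf 9 n6 n11 (by decide +kernel)
  obtain ⟨Q, x7, y7⟩ := Le.ex hf 33 5 n10.sy (by decide +kernel)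
  have n14 : W.Le f 33 xh Q := x7
  have n15 : W.Le f 5 v4 Q := y7.sy
  have n16 : W.Le f 95 z Q := Le.ofNT hf 4 95 (W.df hm (Le.toCol hf 4 n1 (by decide +kernel)) (Le.toCol hf 4 n14 (by decide +kernel)) (Le.toNT hf 4 n2 (by decide +kernel)) (Le.toNT hf 4 n10 (by decide +kernel)) (Le.toNT hf 4 n15 (by decide +kernel))) (by decide +kernel)
  obtain ⟨R, x8, y8⟩ := Le.ex hf 3 5 n10.sy (by decide +kernel)
  have n17 : W.Le f 3 xh R := x8
  have n18 : W.Le f 5 v4 R := y8.sy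
  have n19 : W.Le f 3 w1 R := (Le.pc hf 3 n17.sy n3 (by decide +kernel)).sy
  have n20 : W.Le f 5 Q R := (Le.pc hf 5 n18.sy n15 (by decide +kernel)).sy
  have n21 : W.Le f 125 z R := (Le.ofNT hf 0 125 (W.tr4 hm (hf.inj.ne (show (0 : Fin 5) ≠ 4 by decide)) (hf.inj.ne (show (0 : Fin 5) ≠ 1 by decide)) (hf.inj.ne (show (4 : Fin 5) ≠ 1 by decide)) (Le.toCol hf 4 n14 (by decide +kernel)) (Le.toCol hf 1 n20 (by decide +kernel)) (Le.toCol hf 0 n17 (by decide +kernel)) (Le.toNT hf 0 n2.sy (by decide +kernel)) (Le.toNT hf 4 n16.sy (by decide +kernel))) (by decide +kernel)).sy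
  obtain ⟨P, x9, y9⟩ := Le.ex hf 9 5 (Le.top (f := f) (W := W) w1 v4) (by decide +kernel)
  have n22 : W.Le f 9 w1 P := x9
  have n23 : W.Le f 5 v4 P := y9.sy
  have n25 : W.Le f 9 gv P := (Le.pc hf 9 n22.sy n13 (by decide +kernel)).sy
  have n27 : W.Le f 5 R P := (Le.pc hf 5 n23.sy n18 (by decide +kernel)).sy
  have n28 : W.Le f 119 z P := (Le.ofNT hf 2 119 (W.tr4 hm (hf.inj.ne (show (2 : Fin 5) ≠ 0 by decide)) (hf.inj.ne (show (2 : Fin 5) ≠ 1 by decide)) (hf.inj.ne (show (0 : Fin 5) ≠ 1 by decide)) (Le.toCol hf 0 n19 (by decide +kernel)) (Le.toCol hf 1 n27 (by decide +kernel)) (Le.toCol hf 2 n22 (by decide +kernel)) (Le.toNT hf 2 n7.sy (by decide +kernel)) (Le.toNT hf 0 n21.sy (by decide +kernel))) (by decide +kernel)).sy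
  have n29 : W.Le f 119 z gv := (Le.ofNT hf 2 119 (W.tr4 hm (hf.inj.ne (show (2 : Fin 5) ≠ 1 by decide)) (hf.inj.ne (show (2 : Fin 5) ≠ 0 by decide)) (hf.inj.ne (show (1 : Fin 5) ≠ 0 by decide)) (Le.toCol hf 1 n23.sy (by decide +kernel)) (Le.toCol hf 0 n12 (by decide +kernel)) (Le.toCol hf 2 n25.sy (by decide +kernel)) (Le.toNT hf 2 n28.sy (by decide +kernel)) (Le.toNT hf 1 n1.sy (by decide +kernel))) (by decide +kernel)).sy
  exact Le.toNT hf 2 n29.sy (by decide +kernel)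

theorem int_c {c i s l d : Fin (m + 1)} (hci : c ≠ i) (hcs : c ≠ s) (hcl : c ≠ l) (hcd : c ≠ d) (his : i ≠ s) (hil : i ≠ l) (hid : i ≠ d) (hsl : s ≠ l) (hsd : s ≠ d) (hld : l ≠ d) {z w v4 xh w1 g vw : D}
    (h0 : W.Col c z w)
    (h1 : W.Col d z v4)
    (h2 : W.Col l z xh)
    (h3 : W.Col c xh w1)
    (h4 : W.Col i w1 w)
    (h5 : W.Col i z g)
    (h6 : W.Col s w1 g)
    (h7 : W.NT s w1 z)
    (h8 : W.NT l xh v4)
    (h9 : W.NT d xh v4)
    (h10 : W.Far i g z)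
    (h11 : W.Col c v4 vw)
    (h12 : W.Col i w vw)
    : W.NE z vw := by
  obtain ⟨f, hf, rfl, rfl, rfl, rfl, rfl⟩ := good5 hm hci hcs hcl hcd his hil hid hsl hsd hld
  have n1 : W.Le f 33 z v4 := Le.ofCol hf 4 33 h1 (by decide +kernel)
  have n2 : W.Le f 17 z xh := Le.ofCol hf 3 17 h2 (by decide +kernel)
  have n3 : W.Le f 3 xh w1 := Le.ofCol hf 0 3 h3 (by decide +kernel)
  have n4 : W.Le f 5 w w1 := (Le.ofCol hf 1 5 h4 (by decide +kernel)).sy
  have n6 : W.Le f 9 w1 g := Le.ofCol hf 2 9 h6 (by decide +kernel)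
  have n8 : W.Le f 111 v4 xh := (Le.ofNT hf 3 111 h8 (by decide +kernel)).sy
  have n9 : W.Le f 95 v4 xh := (Le.ofNT hf 4 95 h9 (by decide +kernel)).sy
  have n10 : W.Le f 79 v4 xh := Le.an 79 n9 n8 rfl
  have n11 : W.Le f 4 z g := (Le.ofFar hf 1 4 h10 (by decide +kernel)).sy
  have n12 : W.Le f 3 v4 vw := Le.ofCol hf 0 3 h11 (by decide +kernel)
  have n13 : W.Le f 5 w vw := Le.ofCol hf 1 5 h12 (by decide +kernel)
  have n17 : W.Le f 118 z w1 := Le.pc hf 118 n11 n6.sy (by decide +kernel)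
  obtain ⟨Q2, x7, y7⟩ := Le.ex hf 17 9 n10 (by decide +kernel)
  have n19 : W.Le f 17 v4 Q2 := x7
  have n20 : W.Le f 9 xh Q2 := y7.sy
  have n21 : W.Le f 111 z Q2 := Le.ofNT hf 3 111 (W.df hm (Le.toCol hf 3 n2 (by decide +kernel)) (Le.toCol hf 3 n19 (by decide +kernel)) (Le.toNT hf 3 n1 (by decide +kernel)) (Le.toNT hf 3 n10.sy (by decide +kernel)) (Le.toNT hf 3 n20 (by decide +kernel))) (by decide +kernel)
  obtain ⟨S, x8, y8⟩ := Le.ex hf 3 9 n10 (by decide +kernel)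
  have n22 : W.Le f 3 v4 S := x8
  have n23 : W.Le f 9 xh S := y8.sy
  have n24 : W.Le f 9 Q2 S := (Le.pc hf 9 n23.sy n20 (by decide +kernel)).sy
  have n25 : W.Le f 3 vw S := (Le.pc hf 3 n22.sy n12 (by decide +kernel)).sy
  have n26 : W.Le f 125 z S := (Le.ofNT hf 0 125 (W.tr4 hm (hf.inj.ne (show (0 : Fin 5) ≠ 3 by decide)) (hf.inj.ne (show (0 : Fin 5) ≠ 2 by decide)) (hf.inj.ne (show (3 : Fin 5) ≠ 2 by decide)) (Le.toCol hf 3 n19 (by decide +kernel)) (Le.toCol hf 2 n24 (by decide +kernel)) (Le.toCol hf 0 n22 (by decide +kernel)) (Le.toNT hf 0 n1.sy (by decide +kernel)) (Le.toNT hf 3 n21.sy (by decide +kernel))) (by decide +kernel)).sy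
  obtain ⟨Y2, x9, y9⟩ := Le.ex hf 9 5 (Le.top (f := f) (W := W) xh w) (by decide +kernel)
  have n27 : W.Le f 9 xh Y2 := x9
  have n28 : W.Le f 5 w Y2 := y9.sy
  have n30 : W.Le f 9 S Y2 := (Le.pc hf 9 n27.sy n23 (by decide +kernel)).sy
  have n31 : W.Le f 5 w1 Y2 := (Le.pc hf 5 n28.sy n4 (by decide +kernel)).sy
  have n32 : W.Le f 5 vw Y2 := (Le.pc hf 5 n28.sy n13 (by decide +kernel)).sy
  have n34 : W.Le f 126 z Y2 := (Le.ofNE hf 126 (W.k3 hm (hf.inj.ne (show (2 : Fin 5) ≠ 0 by decide)) (hf.inj.ne (show (2 : Fin 5) ≠ 1 by decide)) (hf.inj.ne (show (0 : Fin 5) ≠ 1 by decide)) (Le.toCol hf 0 n3 (by decide +kernel)) (Le.toCol hf 1 n31 (by decide +kernel)) (Le.toCol hf 2 n27 (by decide +kernel)) (Le.toNT hf 2 n2.sy (by decide +kernel)) (Le.toNE n17.sy (by decide +kernel))) (by decide +kernel)).sy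
  have n35 : W.Le f 126 z vw := (Le.ofNE hf 126 (W.k3 hm (hf.inj.ne (show (0 : Fin 5) ≠ 2 by decide)) (hf.inj.ne (show (0 : Fin 5) ≠ 1 by decide)) (hf.inj.ne (show (2 : Fin 5) ≠ 1 by decide)) (Le.toCol hf 2 n30 (by decide +kernel)) (Le.toCol hf 1 n32.sy (by decide +kernel)) (Le.toCol hf 0 n25.sy (by decide +kernel)) (Le.toNT hf 0 n26.sy (by decide +kernel)) (Le.toNE n34.sy (by decide +kernel))) (by decide +kernel)).sy
  exact Le.toNE n35 (by decide +kernel)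

/-- intersection of the region of the `c`-line through `v` with `[z = w]`, as the region of the
`c`-line through `g` -/
theorem int_region {c i s : Fin (m + 1)} (hci : c ≠ i) (hcs : c ≠ s) (his : i ≠ s)
    {z w v : D} (h : W.Col c z w) :
    ∃ g, W.Col i z g ∧ W.NT c w g ∧
      (∀ gv, W.Col s g gv → W.Col c v gv → W.NT s gv z) ∧
      (W.Far i g z → ∀ vw, W.Col c v vw → W.Col i w vw → W.NE z vw) := by
  obtain ⟨f, hf, rfl, rfl, rfl⟩ := good3 hm hci hcs his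
  have n : ∀ {a b : Fin 5}, a ≠ b → f a ≠ f b := fun hab h' => hab (hf.inj h')
  have m01 := n (show (0 : Fin 5) ≠ 1 by decide)
  have m02 := n (show (0 : Fin 5) ≠ 2 by decide)
  have m03 := n (show (0 : Fin 5) ≠ 3 by decide)
  have m04 := n (show (0 : Fin 5) ≠ 4 by decide)
  have m12 := n (show (1 : Fin 5) ≠ 2 by decide)
  have m13 := n (show (1 : Fin 5) ≠ 3 by decide)
  have m14 := n (show (1 : Fin 5) ≠ 4 by decide)
  have m23 := n (show (2 : Fin 5) ≠ 3 by decide)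
  have m24 := n (show (2 : Fin 5) ≠ 4 by decide)
  have m34 := n (show (3 : Fin 5) ≠ 4 by decide)
  obtain ⟨v4, k1, k2⟩ := Le.ex hf 3 33 (Le.top (f := f) (W := W) v z) (by decide +kernel)
  have hzv := Le.toCol hf 4 k2.sy (by decide +kernel)
  obtain ⟨xh, w1, g, g1, g2, g3, g4, g5, g6, g7, g8, g9⟩ :=
    W.int_a hm m01 m02 m03 m04 m12 m13 m14 m23 m24 m34 h hzv
  refine ⟨g, g4, g6, ?_, ?_⟩
  · intro gv e1 e2
    refine W.int_b hm m01 m02 m03 m04 m12 m13 m14 m23 m24 m34 h hzv g1 g2 g3 g4 g5 g7 g8 g9 e1 ?_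
    exact Le.toCol hf 0 (Le.pc hf 3 k1.sy (Le.ofCol hf 0 3 e2 (by decide +kernel))
      (by decide +kernel)) (by decide +kernel)
  · intro hfar vw e1 e2
    refine W.int_c hm m01 m02 m03 m04 m12 m13 m14 m23 m24 m34 h hzv g1 g2 g3 g4 g5 g7 g8 g9 hfar
      ?_ e2
    exact Le.toCol hf 0 (Le.pc hf 3 k1.sy (Le.ofCol hf 0 3 e1 (by decide +kernel))
      (by decide +kernel)) (by decide +kernel)

end WRep
end Pool.MP24331d
end
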