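import Mathlib
import Pool.Agent.Lib.MP_24331d_lc.Base
import Pool.Agent.Lib.MP_24331d_lc.Horn

section

namespace Pool.MP24331d

/-- Sign elimination: for `n` linear forms on `K^(n+1)` there is a vector whose last coordinate is
nonzero and on which the `i`-th form agrees with the `i`-th coordinate up to sign. -/
theorem elim {K : Type*} [Field K] (h2 : (2 : K) ≠ 0) :
    ∀ (n : ℕ) (M : Fin n → ((Fin (n + 1) → K) →ₗ[K] K)),
      ∃ v : Fin (n + 1) → K, v (Fin.last n) ≠ 0 ∧
        ∀ i : Fin n, (M i v) ^ 2 = (v i.castSucc) ^ 2 := by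
  intro n
  induction n with
  | zero =>
    intro M
    exact ⟨fun _ => 1, one_ne_zero, fun i => i.elim0⟩
  | succ n ih =>
    intro M
    -- coefficient of the first variable
    set b : K := M 0 (Pi.single 0 1) with hb
    obtain ⟨ε, hε, hbε⟩ : ∃ ε : K, ε ^ 2 = 1 ∧ ε - b ≠ 0 := by
      by_cases h : b = 1
      · refine ⟨-1, by ring, ?_⟩
        rw [h]
        intro h'
        apply h2
        linear_combination -h'
      · refine ⟨1, by ring, ?_⟩
        intro h'
        apply h
        linear_combination -h'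
    -- the tail embedding with zero head
    let tl : (Fin (n + 1) → K) →ₗ[K] (Fin (n + 2) → K) :=
      { toFun := fun u => Fin.cons 0 u
        map_add' := by
          intro u v
          funext j
          refine Fin.cases ?_ (fun j => ?_) j <;> simp
        map_smul' := by
          intro c u
          funext j
          refine Fin.cases ?_ (fun j => ?_) j <;> simp }
    let g : (Fin (n + 1) → K) →ₗ[K] K := (ε - b)⁻¹ • ((M 0).comp tl)
    let ι : (Fin (n + 1) → K) →ₗ[K] (Fin (n + 2) → K) :=
      tl + (LinearMap.single K (fun _ => K) 0).comp g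
    have hι0 : ∀ u, ι u 0 = g u := by
      intro u
      simp [ι, tl]
    have hιs : ∀ u (j : Fin (n + 1)), ι u j.succ = u j := by
      intro u j
      simp [ι, tl]
    have hM0 : ∀ u, M 0 (ι u) = ε * ι u 0 := by
      intro u
      have h1 : M 0 (ι u) = M 0 (tl u) + b * g u := by
        simp only [ι, LinearMap.add_apply, map_add, LinearMap.comp_apply, LinearMap.single_apply]
        congr 1
        have : (Pi.single 0 (g u) : Fin (n + 2) → K) = (g u) • (Pi.single 0 (1 : K)) := by
          rw [← Pi.single_smul]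
          simp
        rw [this, map_smul, smul_eq_mul, mul_comm]
      have h3 : g u * (ε - b) = M 0 (tl u) := by
        simp only [g, LinearMap.smul_apply, LinearMap.comp_apply, smul_eq_mul]
        field_simp
      rw [h1, hι0]
      linear_combination -h3
    obtain ⟨u, hu, hM⟩ := ih (fun i => (M i.succ).comp ι)
    refine ⟨ι u, ?_, ?_⟩
    · rw [← Fin.succ_last, hιs]
      exact hu
    · intro i
      refine Fin.cases ?_ (fun i => ?_) i
      · rw [hM0, mul_pow, hε, one_mul]
        rfl
      · have := hM i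
        rw [LinearMap.comp_apply] at this
        rw [this, ← Fin.succ_castSucc, hιs]

/-- The algebraic core of the Bruck-Ryser theorem. -/
theorem bruckRyser_alg (n N k : ℕ) (hn : 0 < n) (hN : k * 4 = N + 1)
    (L : Fin N → ((Fin N → ℚ) →ₗ[ℚ] ℚ))
    (hL : ∀ x : Fin N → ℚ,
      ∑ i, (L i x) ^ 2 = (n : ℚ) * ∑ i, x i ^ 2 + (∑ i, x i) ^ 2) :
    ∃ y z w : ℚ, y ≠ 0 ∧ (n : ℚ) * z ^ 2 = y ^ 2 + w ^ 2 := by
  obtain ⟨a, b, c, d, habcd⟩ := Nat.sum_four_squares n
  have hq : (a : ℚ) ^ 2 + (b : ℚ) ^ 2 + (c : ℚ) ^ 2 + (d : ℚ) ^ 2 = (n : ℚ) := by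
    exact_mod_cast habcd
  have hn' : (n : ℚ) ≠ 0 := by positivity
  let A : Matrix (Fin 4) (Fin 4) ℚ :=
    !![(a : ℚ), b, c, d; -b, a, -d, c; -c, d, a, -b; -d, -c, b, a]
  let e : Fin k × Fin 4 ≃ Fin (N + 1) := finProdFinEquiv.trans (finCongr hN)
  let S : (Fin (N + 1) → ℚ) →ₗ[ℚ] (Fin (N + 1) → ℚ) :=
    { toFun := fun y j => (n : ℚ)⁻¹ * ∑ s : Fin 4, A (e.symm j).2 s * y (e ((e.symm j).1, s))
      map_add' := by
        intro x y
        funext j
        simp only [Pi.add_apply, mul_add, Finset.sum_add_distrib]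
      map_smul' := by
        intro r x
        funext j
        simp only [Pi.smul_apply, smul_eq_mul, RingHom.id_apply, Finset.mul_sum]
        refine Finset.sum_congr rfl fun s _ => by ring }
  have hS : ∀ y : Fin (N + 1) → ℚ, (n : ℚ) * ∑ j, (S y j) ^ 2 = ∑ j, y j ^ 2 := by
    intro y
    rw [← e.sum_comp, ← e.sum_comp (fun j => y j ^ 2)]
    rw [Fintype.sum_prod_type, Fintype.sum_prod_type, Finset.mul_sum]
    refine Finset.sum_congr rfl fun r _ => ?_
    simp only [S, LinearMap.coe_mk, AddHom.coe_mk, Equiv.symm_apply_apply]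
    simp only [Fin.sum_univ_four, A, Matrix.of_apply, Matrix.cons_val', Matrix.cons_val_zero,
      Matrix.cons_val_one, Matrix.cons_val]
    rw [← hq] at hn' ⊢
    field_simp
    ring
  let res : (Fin (N + 1) → ℚ) →ₗ[ℚ] (Fin N → ℚ) :=
    { toFun := fun x i => x i.castSucc
      map_add' := by intro x y; rfl
      map_smul' := by intro r x; rfl }
  obtain ⟨y, hy, hM⟩ := elim (K := ℚ) two_ne_zero N (fun i => (L i).comp (res.comp S))
  refine ⟨y (Fin.last N), S y (Fin.last N), ∑ i : Fin N, S y i.castSucc, hy, ?_⟩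
  have h1 := hL (res (S y))
  have h2 : ∑ i, (L i (res (S y))) ^ 2 = ∑ i : Fin N, (y i.castSucc) ^ 2 :=
    Finset.sum_congr rfl fun i _ => hM i
  have h3 := hS y
  rw [Fin.sum_univ_castSucc, Fin.sum_univ_castSucc] at h3
  rw [h2] at h1
  have h4 : ∀ i : Fin N, res (S y) i = S y i.castSucc := fun i => rfl
  simp only [h4] at h1
  linear_combination h3 + h1

/-- The data of (a parametrised version of) an affine plane with `m + 1` parallel classes. -/
structure IsNet {P : Type*} {m : ℕ} (E : Fin (m + 1) → P → P → Prop) : Prop where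
  equiv : ∀ i, Equivalence (E i)
  uniq : ∀ x y, x ≠ y → ∃! i, E i x y
  comp : ∀ i j, i ≠ j → ∀ x y, ∃ z, E i x z ∧ E j z y

namespace IsNet

variable {P : Type*} {m : ℕ} {E : Fin (m + 1) → P → P → Prop}

/-- The setoid of direction `i`. -/
def st (h : IsNet E) (i : Fin (m + 1)) : Setoid P := ⟨E i, h.equiv i⟩

/-- The type of lines of direction `i`. -/
def Cls (h : IsNet E) (i : Fin (m + 1)) : Type _ := Quotient (h.st i)

/-- the line of direction `i` through `x` -/
def cl (h : IsNet E) (i : Fin (m + 1)) (x : P) : h.Cls i := Quotient.mk (h.st i) x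

theorem cl_eq (h : IsNet E) (i : Fin (m + 1)) (x y : P) : h.cl i x = h.cl i y ↔ E i x y :=
  ⟨fun e => Quotient.exact e, fun e => Quotient.sound e⟩

theorem eq_of (h : IsNet E) {i j : Fin (m + 1)} (hij : i ≠ j) {x y : P} (h1 : E i x y)
    (h2 : E j x y) : x = y := by
  by_contra hne
  obtain ⟨k, _, hk⟩ := h.uniq x y hne
  exact hij ((hk i h1).trans (hk j h2).symm)

theorem card_cls_aux (h : IsNet E) {i j : Fin (m + 1)} (hij : i ≠ j) {x p : P}
    (hxp : ¬ E i x p) : Nonempty ({k : Fin (m + 1) // k ≠ i} ≃ h.Cls j) := by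
  have hz : ∀ k : {k : Fin (m + 1) // k ≠ i}, ∃ z, E i x z ∧ E k.1 z p :=
    fun k => h.comp i k.1 (Ne.symm k.2) x p
  choose z hz1 hz2 using hz
  have hzp : ∀ w, E i x w → w ≠ p := by
    intro w hw e
    subst e
    exact hxp hw
  refine ⟨Equiv.ofBijective (fun k => h.cl j (z k)) ⟨?_, ?_⟩⟩
  · intro k k' hkk
    have h1 : E j (z k) (z k') := (h.cl_eq j _ _).1 hkk
    have h2 : E i (z k) (z k') := (h.equiv i).trans ((h.equiv i).symm (hz1 k)) (hz1 k')
    have h3 : z k = z k' := h.eq_of hij h2 h1
    have h4 := hz2 k'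
    rw [← h3] at h4
    by_contra hne
    exact hzp _ (hz1 k) (h.eq_of (fun e => hne (Subtype.ext e)) (hz2 k) h4)
  · intro c
    obtain ⟨q, rfl⟩ := Quotient.exists_rep c
    obtain ⟨w, hw1, hw2⟩ := h.comp i j hij x q
    obtain ⟨k, hk, _⟩ := h.uniq w p (hzp w hw1)
    have hki : k ≠ i := by
      intro e
      subst e
      exact hxp ((h.equiv k).trans hw1 hk)
    refine ⟨⟨k, hki⟩, ?_⟩
    have h1 : E i (z ⟨k, hki⟩) w := (h.equiv i).trans ((h.equiv i).symm (hz1 _)) hw1
    have h2 : E k (z ⟨k, hki⟩) w := (h.equiv k).trans (hz2 ⟨k, hki⟩) ((h.equiv k).symm hk)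
    have h3 : z ⟨k, hki⟩ = w := h.eq_of (Ne.symm hki) h1 h2
    change h.cl j (z ⟨k, hki⟩) = h.cl j q
    rw [h3]
    exact (h.cl_eq j _ _).2 hw2

theorem nonempty_equiv (h : IsNet E) (hm : 2 ≤ m) [Nontrivial P] (j : Fin (m + 1)) :
    Nonempty (Fin m ≃ h.Cls j) := by
  obtain ⟨x, y, hxy⟩ := exists_pair_ne P
  obtain ⟨i0, hi0, hu⟩ := h.uniq x y hxy
  obtain ⟨i, hi⟩ : ∃ i : Fin (m + 1), i ∉ ({i0, j} : Finset (Fin (m + 1))) := by
    by_contra hcon
    push Not at hcon
    have h1 : (Finset.univ : Finset (Fin (m + 1))) ⊆ {i0, j} := fun i _ => hcon i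
    have h2 := Finset.card_le_card h1
    have h3 : ({i0, j} : Finset (Fin (m + 1))).card ≤ 2 := Finset.card_le_two
    simp only [Finset.card_univ, Fintype.card_fin] at h2
    omega
  simp only [Finset.mem_insert, Finset.mem_singleton, not_or] at hi
  have hxp : ¬ E i x y := fun e => hi.1 (hu i e)
  obtain ⟨e⟩ := h.card_cls_aux hi.2 hxp
  have hcard : Fintype.card {k : Fin (m + 1) // k ≠ i} = m := by
    simp [Fintype.card_subtype_compl]
  exact ⟨((Fintype.equivFinOfCardEq hcard).symm).trans e⟩

theorem nonempty_equiv_prod (h : IsNet E) {i j : Fin (m + 1)} (hij : i ≠ j) :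
    Nonempty (P ≃ h.Cls i × h.Cls j) := by
  refine ⟨Equiv.ofBijective (fun x => (h.cl i x, h.cl j x)) ⟨?_, ?_⟩⟩
  · intro x y hxy
    simp only [Prod.mk.injEq] at hxy
    exact h.eq_of hij ((h.cl_eq i _ _).1 hxy.1) ((h.cl_eq j _ _).1 hxy.2)
  · rintro ⟨c, d⟩
    obtain ⟨x, rfl⟩ := Quotient.exists_rep c
    obtain ⟨y, rfl⟩ := Quotient.exists_rep d
    obtain ⟨z, hz1, hz2⟩ := h.comp i j hij x y
    exact ⟨z, Prod.ext ((h.cl_eq i _ _).2 ((h.equiv i).symm hz1)) ((h.cl_eq j _ _).2 hz2)⟩

open scoped Classical in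
/-- the quadratic identity behind Bruck-Ryser, over an affine plane with its line at infinity -/
theorem identity (h : IsNet E) [Fintype P] [∀ i, Fintype (h.Cls i)]
    (hc : ∀ i, Fintype.card (h.Cls i) = m) (x : P → ℚ) (t : Fin (m + 1) → ℚ) :
    (∑ i, ∑ c : h.Cls i, ((∑ p, if h.cl i p = c then x p else 0) + t i) ^ 2) + (∑ i, t i) ^ 2 =
      (m : ℚ) * ((∑ p, x p ^ 2) + ∑ i, t i ^ 2) + ((∑ p, x p) + ∑ i, t i) ^ 2 := by
  have h1 : ∀ i, ∑ c : h.Cls i, (∑ p, if h.cl i p = c then x p else 0) = ∑ p, x p := by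
    intro i
    rw [Finset.sum_comm]
    refine Finset.sum_congr rfl fun p _ => ?_
    simp
  have h2 : ∀ i, ∑ c : h.Cls i, (∑ p, if h.cl i p = c then x p else 0) ^ 2 =
      ∑ p, ∑ q, if E i p q then x p * x q else 0 := by
    intro i
    have : ∀ c : h.Cls i, (∑ p, if h.cl i p = c then x p else 0) ^ 2 =
        ∑ p, ∑ q, if h.cl i p = c ∧ h.cl i q = c then x p * x q else 0 := by
      intro c
      rw [pow_two, Finset.sum_mul_sum]
      refine Finset.sum_congr rfl fun p _ => Finset.sum_congr rfl fun q _ => ?_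
      by_cases h1 : h.cl i p = c <;> by_cases h2 : h.cl i q = c <;> simp [h1, h2]
    simp only [this]
    rw [Finset.sum_comm]
    refine Finset.sum_congr rfl fun p _ => ?_
    rw [Finset.sum_comm]
    refine Finset.sum_congr rfl fun q _ => ?_
    rw [Finset.sum_eq_single (h.cl i p)]
    · by_cases hE : E i p q
      · simp [hE, (h.cl_eq i q p).2 ((h.equiv i).symm hE)]
      · have : ¬ h.cl i q = h.cl i p := fun e => hE ((h.equiv i).symm ((h.cl_eq i _ _).1 e))
        simp [hE, this]
    · intro c _ hcne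
      rw [if_neg]
      rintro ⟨h1, _⟩
      exact hcne h1.symm
    · intro hn
      exact absurd (Finset.mem_univ _) hn
  have h3 : ∑ i, (∑ p, ∑ q, if E i p q then x p * x q else 0) =
      (m : ℚ) * (∑ p, x p ^ 2) + (∑ p, x p) ^ 2 := by
    rw [Finset.sum_comm]
    have : ∀ p, ∑ i, (∑ q, if E i p q then x p * x q else 0) =
        (m : ℚ) * x p ^ 2 + x p * ∑ q, x q := by
      intro p
      rw [Finset.sum_comm]
      have : ∀ q, (∑ i, if E i p q then x p * x q else 0) =
          (if p = q then (m : ℚ) * x p ^ 2 else 0) + x p * x q := by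
        intro q
        by_cases hpq : p = q
        · subst hpq
          simp only [(h.equiv _).refl, if_true, Finset.sum_const, Finset.card_univ,
            Fintype.card_fin, nsmul_eq_mul]
          push_cast
          ring
        · obtain ⟨k, hk, hu⟩ := h.uniq p q hpq
          rw [Finset.sum_eq_single k]
          · simp [hk, hpq]
          · intro j _ hj
            rw [if_neg]
            exact fun e => hj (hu j e)
          · intro hn
            exact absurd (Finset.mem_univ _) hn
      simp only [this]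
      rw [Finset.sum_add_distrib, Finset.mul_sum]
      simp
    simp only [this]
    rw [Finset.sum_add_distrib, ← Finset.mul_sum, ← Finset.sum_mul, pow_two]
  have h4 : ∀ i, ∑ c : h.Cls i, ((∑ p, if h.cl i p = c then x p else 0) + t i) ^ 2 =
      (∑ p, ∑ q, if E i p q then x p * x q else 0) + 2 * (∑ p, x p) * t i + (m : ℚ) * t i ^ 2 := by
    intro i
    rw [← h2, ← h1 i, Finset.mul_sum, Finset.sum_mul]
    have hcm : (m : ℚ) * t i ^ 2 = ∑ c : h.Cls i, t i ^ 2 := by
      rw [Finset.sum_const, Finset.card_univ, hc i, nsmul_eq_mul]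
    rw [hcm, ← Finset.sum_add_distrib, ← Finset.sum_add_distrib]
    refine Finset.sum_congr rfl fun c _ => ?_
    ring
  simp only [h4]
  rw [Finset.sum_add_distrib, Finset.sum_add_distrib, h3, ← Finset.mul_sum, ← Finset.mul_sum]
  ring

end IsNet

/-- If `m z² = y² + w²` has a rational solution with `y ≠ 0` then `m` is a sum of two squares. -/
theorem sum_two_squares_of_rat (m : ℕ) (y z w : ℚ) (hy : y ≠ 0)
    (he : (m : ℚ) * z ^ 2 = y ^ 2 + w ^ 2) : ∃ a b : ℕ, m = a ^ 2 + b ^ 2 := by
  -- clear denominators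
  obtain ⟨A, B, C, hA, hABC⟩ : ∃ A B C : ℤ, A ≠ 0 ∧ (m : ℤ) * C ^ 2 = A ^ 2 + B ^ 2 := by
    refine ⟨y.num * z.den * w.den, w.num * y.den * z.den, z.num * y.den * w.den, ?_, ?_⟩
    · have h1 : y.num ≠ 0 := Rat.num_ne_zero.2 hy
      have h2 : (z.den : ℤ) ≠ 0 := by exact_mod_cast z.den_nz
      have h3 : (w.den : ℤ) ≠ 0 := by exact_mod_cast w.den_nz
      positivity
    · have hz : (z.den : ℚ) ≠ 0 := by exact_mod_cast z.den_nz
      have hw : (w.den : ℚ) ≠ 0 := by exact_mod_cast w.den_nz
      have hyd : (y.den : ℚ) ≠ 0 := by exact_mod_cast y.den_nz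
      have e1 : (y.num : ℚ) = y * y.den := (Rat.mul_den_eq_num y).symm
      have e2 : (z.num : ℚ) = z * z.den := (Rat.mul_den_eq_num z).symm
      have e3 : (w.num : ℚ) = w * w.den := (Rat.mul_den_eq_num w).symm
      have : ((m : ℚ)) * ((z.num : ℚ) * y.den * w.den) ^ 2 =
          ((y.num : ℚ) * z.den * w.den) ^ 2 + ((w.num : ℚ) * y.den * z.den) ^ 2 := by
        rw [e1, e2, e3]
        linear_combination ((z.den : ℚ) * y.den * w.den) ^ 2 * he
      exact_mod_cast this
  have hm0 : m ≠ 0 := by
    rintro rfl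
    have : 0 < A ^ 2 := by positivity
    have h2 : 0 ≤ B ^ 2 := sq_nonneg B
    push_cast at hABC
    nlinarith
  have hC : C ≠ 0 := by
    rintro rfl
    have : 0 < A ^ 2 := by positivity
    have h2 : 0 ≤ B ^ 2 := sq_nonneg B
    nlinarith
  have hnat : m * C.natAbs ^ 2 = A.natAbs ^ 2 + B.natAbs ^ 2 := by
    zify
    simpa using hABC
  have h1 : ∃ x y : ℕ, m * C.natAbs ^ 2 = x ^ 2 + y ^ 2 := ⟨_, _, hnat⟩
  rw [Nat.eq_sq_add_sq_iff] at h1
  have : ∃ x y : ℕ, m = x ^ 2 + y ^ 2 := by
    rw [Nat.eq_sq_add_sq_iff]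
    intro q hq hq4
    have hqp := Nat.prime_of_mem_primeFactors hq
    have := Fact.mk hqp
    have hCn : C.natAbs ≠ 0 := Int.natAbs_ne_zero.2 hC
    have hmem : q ∈ (m * C.natAbs ^ 2).primeFactors := by
      rw [Nat.mem_primeFactors]
      exact ⟨hqp, Dvd.dvd.mul_right (Nat.dvd_of_mem_primeFactors hq) _, by positivity⟩
    have h2 := h1 q hmem hq4
    rw [padicValNat.mul hm0 (by positivity), padicValNat.pow] at h2
    rw [Nat.even_add] at h2
    exact h2.2 (even_two_mul _)
  exact this

/-- **Bruck-Ryser for nets of equivalence relations.**  If `m ≡ 1, 2 (mod 4)`, `m ≥ 2`, and the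
set `P` with at least two points carries `m + 1` equivalence relations such that two distinct
points are related by exactly one of them and any two different ones compose to the full
relation (an affine plane of order `m`), then `m` is a sum of two squares. -/
theorem bruckRyser {P : Type*} [Nontrivial P] {m : ℕ} {E : Fin (m + 1) → P → P → Prop}
    (h : IsNet E) (hm : 2 ≤ m) (hm4 : m % 4 = 1 ∨ m % 4 = 2) : ∃ a b : ℕ, m = a ^ 2 + b ^ 2 := by
  classical
  let ec : ∀ j, Fin m ≃ h.Cls j := fun j => (h.nonempty_equiv hm j).some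
  let _ : ∀ i, Fintype (h.Cls i) := fun i => Fintype.ofEquiv _ (ec i)
  have hc : ∀ i, Fintype.card (h.Cls i) = m := by
    intro i
    rw [← Fintype.card_congr (ec i), Fintype.card_fin]
  have h01 : (0 : Fin (m + 1)) ≠ Fin.last m := by
    intro e
    have := congrArg Fin.val e
    simp at this
    omega
  obtain ⟨eP⟩ := h.nonempty_equiv_prod h01
  let _ : Fintype P := Fintype.ofEquiv _ eP.symm
  have hP : Fintype.card P = m * m := by
    rw [Fintype.card_congr eP, Fintype.card_prod, hc, hc]
  set N := m * m + (m + 1) with hN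
  have hcP : Fintype.card (P ⊕ Fin (m + 1)) = N := by
    rw [Fintype.card_sum, hP, Fintype.card_fin]
  have hcL : Fintype.card ((Σ i, h.Cls i) ⊕ Unit) = N := by
    rw [Fintype.card_sum, Fintype.card_sigma]
    simp only [hc, Finset.sum_const, Finset.card_univ, Fintype.card_fin, smul_eq_mul,
      Fintype.card_unit]
    rw [hN]
    ring
  let fP : P ⊕ Fin (m + 1) ≃ Fin N := Fintype.equivFinOfCardEq hcP
  let fL : (Σ i, h.Cls i) ⊕ Unit ≃ Fin N := Fintype.equivFinOfCardEq hcL
  let LF : (Σ i, h.Cls i) ⊕ Unit → ((Fin N → ℚ) →ₗ[ℚ] ℚ) := fun l =>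
    match l with
    | Sum.inl ⟨i, c⟩ =>
      { toFun := fun x => (∑ p, if h.cl i p = c then x (fP (Sum.inl p)) else 0) +
          x (fP (Sum.inr i))
        map_add' := by
          intro x y
          simp only [Pi.add_apply]
          have : (∑ p, if h.cl i p = c then x (fP (Sum.inl p)) + y (fP (Sum.inl p)) else 0) =
              (∑ p, if h.cl i p = c then x (fP (Sum.inl p)) else 0) +
              (∑ p, if h.cl i p = c then y (fP (Sum.inl p)) else 0) := by
            rw [← Finset.sum_add_distrib]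
            refine Finset.sum_congr rfl fun p _ => ?_
            split_ifs <;> simp
          rw [this]
          ring
        map_smul' := by
          intro r x
          simp only [Pi.smul_apply, smul_eq_mul, RingHom.id_apply, mul_add, Finset.mul_sum]
          congr 1
          refine Finset.sum_congr rfl fun p _ => ?_
          split_ifs <;> simp }
    | Sum.inr _ =>
      { toFun := fun x => ∑ i, x (fP (Sum.inr i))
        map_add' := by
          intro x y
          simp only [Pi.add_apply, Finset.sum_add_distrib]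
        map_smul' := by
          intro r x
          simp only [Pi.smul_apply, smul_eq_mul, RingHom.id_apply, Finset.mul_sum] }
  have hid : ∀ x : Fin N → ℚ,
      ∑ i, ((LF (fL.symm i)) x) ^ 2 = (m : ℚ) * ∑ i, x i ^ 2 + (∑ i, x i) ^ 2 := by
    intro x
    rw [← fL.sum_comp, ← fP.sum_comp, ← fP.sum_comp]
    simp only [Equiv.symm_apply_apply]
    rw [Fintype.sum_sum_type, Fintype.sum_sum_type, Fintype.sum_sum_type, Fintype.sum_sigma]
    have := h.identity hc (fun p => x (fP (Sum.inl p))) (fun i => x (fP (Sum.inr i)))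
    simpa [LF] using this
  have h4 : ∃ k, k * 4 = N + 1 := by
    have : (N + 1) % 4 = 0 := by
      rw [hN]
      rcases hm4 with h1 | h1 <;>
        simp [Nat.add_mod, Nat.mul_mod, h1]
    exact ⟨(N + 1) / 4, Nat.div_mul_cancel (Nat.dvd_of_mod_eq_zero this)⟩
  obtain ⟨k, hk⟩ := h4
  obtain ⟨y, z, w, hy, he⟩ := bruckRyser_alg m N k (by omega) hk (fun i => LF (fL.symm i)) hid
  exact sum_two_squares_of_rat m y z w hy he

/-- There is no affine plane of order 6, in the form in which it arises from a representation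
of the Lyndon algebra `L(6,0)`. -/
theorem no_net_six {P : Type*} [Nontrivial P] {E : Fin 7 → P → P → Prop}
    (h : IsNet (m := 6) E) : False := by
  obtain ⟨a, b, hab⟩ := bruckRyser h (by norm_num) (Or.inr (by norm_num))
  have ha : a ≤ 2 := by nlinarith
  have hb : b ≤ 2 := by nlinarith
  interval_cases a <;> interval_cases b <;> omega

end Pool.MP24331d
end

section

/-! Elementary geometry of a weak representation, and regions at an anchor. -/

namespace Pool.MP24331d
namespace WRep

variable {m : ℕ} {D : Type*} (W : WRep m D)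

/-! ### elementary facts (only `WRep` fields) -/

theorem col_refl (a : Fin (m + 1)) (u : D) : W.Col a u u := by
  intro z hz
  rw [W.refl] at hz
  exact Or.inl hz
theorem col_symm {a : Fin (m + 1)} {u v : D} (h : W.Col a u v) : W.Col a v u := by
  intro z hz
  rw [W.symm] at hz
  exact h hz
theorem col_trans {a : Fin (m + 1)} {u v w : D} (h : W.Col a u v) (h' : W.Col a v w) :
    W.Col a u w := by
  intro z hz
  obtain ⟨x, hx, y, hy, hc⟩ := W.pc u v w hz
  rcases h hx with rfl | hx
  · cases hc
    exact h' hy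
  · have hx' : x = some a := hx
    subst hx'
    rcases h' hy with rfl | hy
    · exact Or.inr hc
    · have hy' : y = some a := hy
      subst hy'
      match z, hc with
      | none, _ => exact Or.inl rfl
      | some k, hc =>
        simp only [cyc, if_true] at hc
        rw [hc]
        exact Or.inr rfl
theorem far_symm {a : Fin (m + 1)} {u v : D} (h : W.Far a u v) : W.Far a v u := by
  intro z hz
  rw [W.symm] at hz
  exact h hz
theorem far_col {a : Fin (m + 1)} {u v : D} (h : W.Far a u v) : W.Col a u v :=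
  fun _ hz => Or.inr (h hz)
theorem far_irrefl {a : Fin (m + 1)} {u : D} : ¬ W.Far a u u := by
  intro h
  have h1 : (none : At m) ∈ W.lab u u := by rw [W.refl]; rfl
  have h2 : (none : At m) = some a := h h1
  cases h2
theorem far_iff {a : Fin (m + 1)} {u v : D} : W.Far a u v ↔ W.Col a u v ∧ W.NE u v := by
  constructor
  · intro h
    refine ⟨W.far_col h, fun hn => ?_⟩
    have h2 : (none : At m) = some a := h hn
    cases h2
  · rintro ⟨h, hn⟩ z hz
    rcases h hz with rfl | h1
    · exact absurd hz hn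
    · exact h1
theorem ne_symm {u v : D} (h : W.NE u v) : W.NE v u := by
  intro hz
  rw [W.symm] at hz
  exact h hz
theorem nt_symm {a : Fin (m + 1)} {u v : D} (h : W.NT a u v) : W.NT a v u := by
  intro hz
  rw [W.symm] at hz
  exact h hz
theorem nt_of_col {a b : Fin (m + 1)} (hab : a ≠ b) {u v : D} (h : W.Col b u v) : W.NT a u v := by
  intro hz
  rcases h hz with h1 | h1
  · cases h1
  · have h2 : (some a : At m) = some b := h1
    exact hab (Option.some.inj h2)
theorem eq_of_col {a b : Fin (m + 1)} (hab : a ≠ b) {u v : D} (h : W.Col a u v)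
    (h' : W.Col b u v) : u = v := by
  apply W.eq_of
  intro z hz
  rcases h hz with h1 | h1
  · exact h1
  · have h2 : z = some a := h1
    subst h2
    exact absurd hz (W.nt_of_col hab h')
/-- `Col a`-points that are not `NT a`-excluded... : collinear and `NT` means equal -/
theorem eq_of_col_nt {a : Fin (m + 1)} {u v : D} (h : W.Col a u v) (h' : W.NT a u v) : u = v := by
  apply W.eq_of
  intro z hz
  rcases h hz with h1 | h1
  · exact h1
  · have h2 : z = some a := h1
    subst h2
    exact absurd hz h'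

/-- the meet of the `a`-line of `u` and the `b`-line of `v` -/
theorem exists_meet (hm : 3 ≤ m) {a b : Fin (m + 1)} (hab : a ≠ b) (u v : D) :
    ∃ w, W.Col a u w ∧ W.Col b v w := by
  obtain ⟨w, h1, h2⟩ := W.ex u v {none, some a} {none, some b} (by
    intro z _
    match z with
    | none => exact ⟨none, Or.inl rfl, none, Or.inl rfl, rfl⟩
    | some k =>
      by_cases hka : k = a
      · subst hka
        exact ⟨some k, Or.inr rfl, none, Or.inl rfl, rfl⟩
      · by_cases hkb : k = b
        · subst hkb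
          exact ⟨none, Or.inl rfl, some k, Or.inr rfl, rfl⟩
        · refine ⟨some a, Or.inr rfl, some b, Or.inr rfl, ?_⟩
          simp only [cyc, if_neg hab]
          exact ⟨hka, hkb⟩)
  exact ⟨w, h1, W.col_symm h2⟩

open Classical in
noncomputable def mt (a b : Fin (m + 1)) (u v : D) : D :=
  if h : ∃ w, W.Col a u w ∧ W.Col b v w then h.choose else u

theorem mt_l (hm : 3 ≤ m) {a b : Fin (m + 1)} (hab : a ≠ b) (u v : D) :
    W.Col a u (W.mt a b u v) := by
  have h := W.exists_meet hm hab u v
  unfold mt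
  rw [dif_pos h]
  exact h.choose_spec.1
theorem mt_r (hm : 3 ≤ m) {a b : Fin (m + 1)} (hab : a ≠ b) (u v : D) :
    W.Col b v (W.mt a b u v) := by
  have h := W.exists_meet hm hab u v
  unfold mt
  rw [dif_pos h]
  exact h.choose_spec.2
theorem mt_unique {a b : Fin (m + 1)} (hab : a ≠ b) {u v w w' : D}
    (h1 : W.Col a u w) (h2 : W.Col b v w) (h3 : W.Col a u w') (h4 : W.Col b v w') : w = w' :=
  W.eq_of_col hab (W.col_trans (W.col_symm h1) h3) (W.col_trans (W.col_symm h2) h4)

/-- projection of a far pair of a `c`-line along the class `i` to a `c'`-line -/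
theorem far_proj {c c' i : Fin (m + 1)} (hci : c ≠ i) (hci' : c' ≠ i) {x y x' y' : D}
    (h : W.Far c x y) (h' : W.Col c' x' y') (hx : W.Col i x x') (hy : W.Col i y y') :
    W.Far c' x' y' := by
  rw [W.far_iff]
  refine ⟨h', fun hn => ?_⟩
  obtain ⟨α, hα, β, hβ, hc⟩ := W.pc x' x y' hn
  obtain ⟨γ, hγ, δ, hδ, hc2⟩ := W.pc x y y' hβ
  have hγ' : γ = some c := h hγ
  subst hγ'
  have hβi : ∃ k, β = some k ∧ k ≠ i := by
    rcases hy hδ with h1 | h1
    · subst h1
      exact ⟨c, hc2, hci⟩
    · have h2 : δ = some i := h1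
      subst h2
      match β, hc2 with
      | none, hc2 => exact absurd hc2 hci
      | some k, hc2 =>
        simp only [cyc, if_neg hci] at hc2
        exact ⟨k, rfl, hc2.2⟩
  obtain ⟨k, rfl, hki⟩ := hβi
  rcases W.col_symm hx hα with h1 | h1
  · subst h1
    cases hc
  · have h2 : α = some i := h1
    subst h2
    exact hki hc.symm

/-! ### regions at an anchor, by means of the far graph of a line -/

/-- `x` lies in the closure of `{h,k}` in the far graph of their `c`-line -/
def BBc (c : Fin (m + 1)) (h k x : D) : Prop :=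
  W.Col c h x ∧ ∀ y, W.Far c y h → W.Far c y k → W.Far c y x

/-- `[h = T]` and `[k = T]` are disjoint (`T,h,k` on a `c`-line) -/
def E3 (c : Fin (m + 1)) (T h k : D) : Prop := ∃ x, W.BBc c h k x ∧ W.Far c x T

/-- `[h = T]` is contained in `[k = T]` (`T,h,k` on a `c`-line) -/
def T3 (c : Fin (m + 1)) (T h k : D) : Prop := ∀ t, W.Col c T t → W.E3 c T k t → W.E3 c T h t

theorem ne_of_disj {u v w : D} {S T : Set (At m)} (h1 : W.lab u v ⊆ S) (h2 : W.lab v w ⊆ T)
    (hd : ∀ x ∈ S, x ∉ T) : W.NE u w := by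
  intro h
  obtain ⟨x, hx, y, hy, hc⟩ := W.pc u v w h
  have hxy : x = y := by
    cases x with
    | none => exact hc
    | some i =>
      cases y with
      | none => exact absurd hc (by simp [cyc])
      | some j => exact congrArg some hc
  exact hd x (h1 hx) (hxy ▸ h2 hy)

theorem far_of_col_ne {a : Fin (m + 1)} {u v : D} (h : W.Col a u v) (h' : W.NE u v) :
    W.Far a u v := by
  intro x hx
  rcases h hx with rfl | h2
  · exact absurd hx h'
  · exact h2

theorem fourth (hm : 6 ≤ m) (a b c : Fin (m + 1)) : ∃ d, d ≠ a ∧ d ≠ b ∧ d ≠ c := by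
  have h : ({a, b, c} : Finset (Fin (m + 1))).card < (Finset.univ : Finset (Fin (m + 1))).card := by
    rw [Finset.card_univ, Fintype.card_fin]
    have := Finset.card_le_three (a := a) (b := b) (c := c)
    omega
  obtain ⟨d, -, hd⟩ := Finset.exists_mem_notMem_of_card_lt_card h
  simp only [Finset.mem_insert, Finset.mem_singleton, not_or] at hd
  exact ⟨d, hd⟩

variable (hm : 6 ≤ m)
include hm

theorem BBc_iff {c a b : Fin (m + 1)} (hca : c ≠ a) (hcb : c ≠ b) (hab : a ≠ b) {h k x n : D}
    (h1 : W.Col c h k) (h2 : W.Col c h x) (h3 : W.Col a h n) (h4 : W.Col b k n) :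
    W.BBc c h k x ↔ W.TwoE a b x n := by
  constructor
  · intro hB
    exact W.ww_lab hm hca hcb hab h1 h2 h3 h4 hB.2
  · intro hT
    refine ⟨h2, fun y hy hy' => ?_⟩
    have hcol : W.Col c y x := W.col_trans (W.far_col hy) h2
    refine W.far_of_col_ne hcol ?_
    -- labels of `(y, n)`
    have hyn : W.lab y n ⊆ {z | z ≠ none ∧ z ≠ some a ∧ z ≠ some b} := by
      intro z hz
      obtain ⟨x1, hx1, y1, hy1, hc1⟩ := W.pc y h n hz
      obtain ⟨x2, hx2, y2, hy2, hc2⟩ := W.pc y k n hz
      have e1 : x1 = some c := hy hx1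
      have e2 : x2 = some c := hy' hx2
      subst e1
      subst e2
      refine ⟨?_, ?_, ?_⟩
      · rintro rfl
        rcases h3 hy1 with rfl | h5
        · exact absurd hc1 (by simp [cyc])
        · have h6 : y1 = some a := h5
          subst h6
          exact hca hc1
      · rintro rfl
        rcases h3 hy1 with rfl | h5
        · have h7 : some a = some c := hc1
          exact hca (Option.some.inj h7).symm
        · have h6 : y1 = some a := h5
          subst h6
          have h7 : (if c = a then a = c else (a ≠ c ∧ a ≠ a)) := hc1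
          rw [if_neg hca] at h7
          exact h7.2 rfl
      · rintro rfl
        rcases h4 hy2 with rfl | h5
        · have h7 : some b = some c := hc2
          exact hcb (Option.some.inj h7).symm
        · have h6 : y2 = some b := h5
          subst h6
          have h7 : (if c = b then b = c else (b ≠ c ∧ b ≠ b)) := hc2
          rw [if_neg hcb] at h7
          exact h7.2 rfl
    have hnx : W.lab n x ⊆ {none, some a, some b} := by
      rw [W.symm]
      exact hT
    refine W.ne_of_disj hyn hnx ?_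
    rintro z ⟨z1, z2, z3⟩ hz
    simp only [Set.mem_insert_iff, Set.mem_singleton_iff] at hz
    tauto

/-- Proof: if `x` is in the closure and far from `T` then `NE T n` by composition; conversely
apply `ex` to `(T,n)` with `{some c}` and `{none, some a, some b}`. -/
theorem E3_iff {c a b : Fin (m + 1)} (hca : c ≠ a) (hcb : c ≠ b) (hab : a ≠ b) {T h k n : D}
    (h1 : W.Col c T h) (h2 : W.Col c T k) (h3 : W.Col a h n) (h4 : W.Col b k n) :
    W.E3 c T h k ↔ W.NE T n := by
  have hhk : W.Col c h k := W.col_trans (W.col_symm h1) h2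
  constructor
  · rintro ⟨x, hB, hx⟩
    have hT := (W.BBc_iff hm hca hcb hab hhk hB.1 h3 h4).1 hB
    refine W.ne_of_disj (W.far_symm hx) hT ?_
    intro z hz hz'
    have e : z = some c := hz
    subst e
    simp only [Set.mem_insert_iff, Set.mem_singleton_iff, Option.some.injEq, reduceCtorEq,
      false_or] at hz'
    tauto
  · intro hne
    obtain ⟨x, hx1, hx2⟩ := W.ex T n {some c} {none, some a, some b} (by
      intro z hz
      cases z with
      | none => exact absurd hz hne
      | some j =>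
        by_cases hjc : j = c
        · subst hjc
          exact ⟨some j, rfl, none, Or.inl rfl, rfl⟩
        · by_cases hja : j = a
          · subst hja
            refine ⟨some c, rfl, some b, Or.inr (Or.inr rfl), ?_⟩
            change (if c = b then j = c else (j ≠ c ∧ j ≠ b))
            rw [if_neg hcb]
            exact ⟨hjc, hab⟩
          · refine ⟨some c, rfl, some a, Or.inr (Or.inl rfl), ?_⟩
            change (if c = a then j = c else (j ≠ c ∧ j ≠ a))
            rw [if_neg hca]
            exact ⟨hjc, hja⟩)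
    have hTx : W.Far c T x := hx1
    have hhx : W.Col c h x := W.col_trans (W.col_symm h1) (W.far_col hTx)
    exact ⟨x, (W.BBc_iff hm hca hcb hab hhk hhx h3 h4).2 hx2, W.far_symm hTx⟩

/-- Proof: (←) given `NT a n T` and `E3 c T k t`: put `d` a fourth class, `k3` with
`X = h_a`, `Y = k_b`, `Z = t_d`, using `E3_iff` for `(k,t)` with classes `(b,d)` and for `(h,t)`
with classes `(a,d)`. (→) choose `Y` by `ex` on `(k,T)` with `{some b}`, `{some b, some d}`
(`{some b} ; {some b, some d}` contains `none, some c`), `t` the meet of `Y_d` and the `c`-line;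
`E3_iff` with classes `(b,d)` gives `E3 c T k t` as `NE T Y`; hence `E3 c T h t`, so
`NE T (h_a ∩ t_d)` with `t_d = Y_d`; `swa` with `s = T`, `Y`, `U = h_a ∩ Y_d`, `V = h_a ∩ Y_b = n`
gives `NT a n T`. -/
theorem T3_iff {c a b : Fin (m + 1)} (hca : c ≠ a) (hcb : c ≠ b) (hab : a ≠ b) {T h k n : D}
    (h1 : W.Col c T h) (h2 : W.Col c T k) (h3 : W.Col a h n) (h4 : W.Col b k n) :
    W.T3 c T h k ↔ W.NT a n T := by
  obtain ⟨d, hda, hdb, hdc⟩ := fourth hm a b c
  have hm3 : 3 ≤ m := by omega
  constructor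
  · intro hT3
    obtain ⟨Y, hY1, hY2⟩ := W.ex k T {some b} {some b, some d} (by
      intro z hz
      have hz' : z ∈ ({none, some c} : Set (At m)) := W.col_symm h2 hz
      rcases hz' with rfl | hz'
      · exact ⟨some b, rfl, some b, Or.inl rfl, rfl⟩
      · have e : z = some c := hz'
        subst e
        refine ⟨some b, rfl, some d, Or.inr rfl, ?_⟩
        change (if b = d then c = b else (c ≠ b ∧ c ≠ d))
        rw [if_neg (Ne.symm hdb)]
        exact ⟨hcb, hdc.symm⟩)
    have hkY : W.Far b k Y := hY1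
    obtain ⟨t, ht1, ht2⟩ := W.exists_meet hm3 hdc Y T
    obtain ⟨R, hR1, hR2⟩ := W.exists_meet hm3 hda t h
    have hTY : W.NE T Y := by
      intro hcon
      rw [W.symm] at hcon
      rcases hY2 hcon with h5 | h5
      · exact absurd h5 (by simp)
      · exact absurd h5 (by simp)
    have hE : W.E3 c T k t :=
      (W.E3_iff hm hcb hdc.symm (Ne.symm hdb) h2 ht2 (W.far_col hkY) (W.col_symm ht1)).2 hTY
    have hE2 := hT3 t ht2 hE
    have hNE : W.NE T R :=
      (W.E3_iff hm hca hdc.symm (Ne.symm hda) h1 ht2 hR2 hR1).1 hE2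
    refine W.swa hm (a := d) (b := b) (c := a) hdb hda hab.symm (s := T) (Y := Y) (U := R) (V := n)
      ?_ (W.col_trans ht1 hR1) (W.col_trans (W.col_symm (W.far_col hkY)) h4)
      (W.col_trans (W.col_symm hR2) h3) (W.ne_symm hNE)
    intro z hz
    rw [W.symm] at hz
    rcases hY2 hz with h5 | h5
    · exact Or.inr h5
    · exact Or.inl h5
  · intro hNT t ht hE
    obtain ⟨Q, hQ1, hQ2⟩ := W.exists_meet hm3 (Ne.symm hdb) k t
    obtain ⟨R, hR1, hR2⟩ := W.exists_meet hm3 (Ne.symm hda) h t
    have hNE : W.NE T Q :=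
      (W.E3_iff hm hcb hdc.symm (Ne.symm hdb) h2 ht hQ1 hQ2).1 hE
    refine (W.E3_iff hm hca hdc.symm (Ne.symm hda) h1 ht hR1 hR2).2 (W.ne_symm ?_)
    exact W.k3 hm (a := a) (b := b) (c := d) hab (Ne.symm hda) (Ne.symm hdb) (o := T) (P := n)
      (Q := Q) (R := R) (W.col_trans (W.col_symm h4) hQ1) (W.col_trans (W.col_symm hQ2) hR2)
      (W.col_trans (W.col_symm h3) hR1) hNT (W.ne_symm hNE)

/-- moving along parallel lines: the three `i`-lines through `T,h,k` meet another transversal
(class `c'`) in `T',h',k'`.  The far graphs are isomorphic. -/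
theorem E3_move {c c' i : Fin (m + 1)} (hci : c ≠ i) (hci' : c' ≠ i) {T h k T' h' k' : D}
    (h1 : W.Col c T h) (h2 : W.Col c T k) (h1' : W.Col c' T' h') (h2' : W.Col c' T' k')
    (hT : W.Col i T T') (hh : W.Col i h h') (hk : W.Col i k k') (h : W.E3 c T h k) :
    W.E3 c' T' h' k' := by
  have hm3 : 3 ≤ m := by omega
  obtain ⟨x, ⟨hx1, hx2⟩, hx3⟩ := h
  obtain ⟨x', hxi, hxc⟩ := W.exists_meet hm3 (Ne.symm hci') x T'
  refine ⟨x', ⟨W.col_trans (W.col_symm h1') hxc, fun y' hy1 hy2 => ?_⟩, ?_⟩
  · obtain ⟨y, hyi, hyc⟩ := W.exists_meet hm3 (Ne.symm hci) y' T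
    have e1 : W.Far c y h := W.far_proj hci' hci hy1 (W.col_trans (W.col_symm hyc) h1) hyi
      (W.col_symm hh)
    have e2 : W.Far c y k := W.far_proj hci' hci hy2 (W.col_trans (W.col_symm hyc) h2) hyi
      (W.col_symm hk)
    have e3 : W.Far c y x := hx2 y e1 e2
    refine W.far_proj hci hci' e3 ?_ (W.col_symm hyi) hxi
    exact W.col_trans (W.far_col hy1) (W.col_trans (W.col_symm h1') hxc)
  · exact W.far_proj hci hci' hx3 (W.col_symm hxc) hxi hT

theorem T3_move {c c' i : Fin (m + 1)} (hci : c ≠ i) (hci' : c' ≠ i) {T h k T' h' k' : D}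
    (h1 : W.Col c T h) (h2 : W.Col c T k) (h1' : W.Col c' T' h') (h2' : W.Col c' T' k')
    (hT : W.Col i T T') (hh : W.Col i h h') (hk : W.Col i k k') (h : W.T3 c T h k) :
    W.T3 c' T' h' k' := by
  have hm3 : 3 ≤ m := by omega
  intro t' ht' hE
  obtain ⟨t, hti, htc⟩ := W.exists_meet hm3 (Ne.symm hci) t' T
  have e1 : W.E3 c T k t := W.E3_move hm hci' hci h2' ht' h2 htc (W.col_symm hT) (W.col_symm hk)
    hti hE
  have e2 := h t htc e1
  exact W.E3_move hm hci hci' h1 htc h1' ht' hT hh (W.col_symm hti) e2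

end WRep
end Pool.MP24331d
end

section

/-! Abstract line level theory used in the proof that a weak representation of the Lyndon
algebra `L(m,0)` yields an affine plane of order `m`.

`K` is the set of points on a line, `R` the set of regions (parallel lines), `far` the relation
never equal, `T V x y` : `x = y` everywhere on the region `V`, `E V x y` : `x ≠ y` everywhere on
the region `V`, `null V` : the region is empty. -/

namespace Pool.MP24331d

/-- `B s t x`: `x` is far from everything which is far from both `s` and `t`. -/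
def BB {K : Type*} (far : K → K → Prop) (s t x : K) : Prop :=
  ∀ y, far y s → far y t → far y x

/-- `V'` refines `V`. -/
def SubR {K R : Type*} (T E : R → K → K → Prop) (V' V : R) : Prop :=
  (∀ x y, T V x y → T V' x y) ∧ (∀ x y, E V x y → E V' x y)

structure KSpace (K R : Type*) where
  far : K → K → Prop
  T : R → K → K → Prop
  E : R → K → K → Prop
  null : R → Prop
  far_irrefl : ∀ x, ¬ far x x
  far_symm : ∀ {x y}, far x y → far y x
  T_refl : ∀ V x, T V x x
  T_symm : ∀ {V x y}, T V x y → T V y x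
  T_trans : ∀ {V x y z}, T V x y → T V y z → T V x z
  E_symm : ∀ {V x y}, E V x y → E V y x
  E_compat : ∀ {V x x' y}, T V x x' → E V x y → E V x' y
  far_E : ∀ {V x y}, far x y → E V x y
  TE_null : ∀ {V x y}, T V x y → E V x y → null V
  SW : ∀ {V s t x}, far s t → BB far s t x → E V x s → T V x t
  INT : ∀ {V z w}, ¬ E V z w → ∃ V', ¬ null V' ∧ SubR T E V' V ∧ T V' z w
  top : ∀ {x y}, ¬ far x y → ∃ V, ¬ null V ∧ T V x y
  L2 : ∀ {s t}, far s t → ∀ o, ∃ z, BB far s t z ∧ far z o
  swap : ∀ {s t z w}, far s t → BB far s t z → BB far s t w → far z w →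
    BB far z w s ∧ BB far z w t
  uniq : ∀ {s t z w x}, far s t → BB far s t z → BB far s t w → far z w → BB far s t x →
    far x w → x = z

/-- A perfect clique. -/
def KSpace.PClique {K R : Type*} (S : KSpace K R) {m : ℕ} (c : Fin m → K) : Prop :=
  (∀ i j, i ≠ j → S.far (c i) (c j)) ∧
  ∀ A : Set (Fin m), ∀ x y, (∀ j, j ∉ A → S.far x (c j)) → (∀ j, j ∈ A → S.far y (c j)) →
    S.far x y

section

variable {K R : Type*} (S : KSpace K R)

theorem BB.symm' {K : Type*} {far : K → K → Prop} {s t x : K} (h : BB far s t x) :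
    BB far t s x := fun y h1 h2 => h y h2 h1

theorem SubR.refl' {K R : Type*} {T E : R → K → K → Prop} (V : R) : SubR T E V V :=
  ⟨fun _ _ h => h, fun _ _ h => h⟩

theorem SubR.trans' {K R : Type*} {T E : R → K → K → Prop} {V V' V'' : R}
    (h : SubR T E V' V) (h' : SubR T E V'' V') : SubR T E V'' V :=
  ⟨fun x y hxy => h'.1 x y (h.1 x y hxy), fun x y hxy => h'.2 x y (h.2 x y hxy)⟩

/-- on a smaller region a point between `s` and `t` equals one of them -/
theorem KSpace.shrink {s t z : K} (hst : S.far s t) (hz : BB S.far s t z) (V : R)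
    (hV : ¬ S.null V) : ∃ V', ¬ S.null V' ∧ SubR S.T S.E V' V ∧ (S.T V' z s ∨ S.T V' z t) := by
  by_cases h : S.E V z s
  · exact ⟨V, hV, SubR.refl' V, Or.inr (S.SW hst hz h)⟩
  · obtain ⟨V', h1, h2, h3⟩ := S.INT h
    exact ⟨V', h1, h2, Or.inl h3⟩

theorem KSpace.E_compat' {V : R} {x y y' : K} (h : S.T V y y') (hE : S.E V x y) :
    S.E V x y' := S.E_symm (S.E_compat h (S.E_symm hE))

/-- if `x'` lies between `x` and `w`, and `x'` differs from `w` on `V`, then it is `x` on `V` -/
theorem KSpace.back {x w x' t : K} {V : R} (hxw : S.far x w) (hx' : BB S.far x w x')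
    (ht : S.far x' t) (htw : S.T V t w) : S.T V x' x :=
  S.SW (S.far_symm hxw) hx'.symm' (S.E_compat' htw (S.far_E ht))

/-- the mixed case of the splitting lemma -/
theorem KSpace.split_core {m : ℕ} {c : Fin m → K} (hc : S.PClique c) {i k : Fin m}
    (hik : i ≠ k) {z w : K} (hz : BB S.far (c i) (c k) z) (hw : BB S.far (c i) (c k) w)
    (hzw : S.far z w) (A : Set (Fin m)) (hi : i ∈ A) (hk : k ∉ A) {x y : K}
    (hx : ∀ j, j ∉ A → j ≠ k → S.far x (c j)) (hxw : S.far x w)
    (hy : ∀ j, j ∈ A → j ≠ i → S.far y (c j)) (hyz : S.far y z) : S.far x y := by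
  by_contra hcon
  have hst : S.far (c i) (c k) := hc.1 i k hik
  -- other members of the clique are far from `z` and `w`
  have cz : ∀ j, j ≠ i → j ≠ k → S.far (c j) z := fun j h1 h2 => hz _ (hc.1 j i h1) (hc.1 j k h2)
  have cw : ∀ j, j ≠ i → j ≠ k → S.far (c j) w := fun j h1 h2 => hw _ (hc.1 j i h1) (hc.1 j k h2)
  obtain ⟨ρ₀, hρ₀, hT₀⟩ := S.top hcon
  obtain ⟨ρ, hρ, hsub, hzs⟩ := S.shrink hst hz ρ₀ hρ₀
  have hT : S.T ρ x y := hsub.1 _ _ hT₀
  rcases hzs with hzs | hzt
  · -- `z = s`, `w = t`
    have hwt : S.T ρ w (c k) := S.SW hst hw (S.E_compat' hzs (S.far_E (S.far_symm hzw)))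
    obtain ⟨x', hx'1, hx'2⟩ := S.L2 hxw (c k)
    obtain ⟨y', hy'1, hy'2⟩ := S.L2 hyz (c i)
    have hfar : S.far x' y' := by
      refine hc.2 A x' y' ?_ ?_
      · intro j hj
        by_cases hjk : j = k
        · rw [hjk]; exact hx'2
        · have hji : j ≠ i := fun h => hj (h ▸ hi)
          exact S.far_symm (hx'1 _ (S.far_symm (hx j hj hjk)) (cw j hji hjk))
      · intro j hj
        by_cases hji : j = i
        · rw [hji]; exact hy'2
        · have hjk : j ≠ k := fun h => hk (h ▸ hj)
          exact S.far_symm (hy'1 _ (S.far_symm (hy j hj hji)) (cz j hji hjk))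
    have h1 : S.T ρ x' x := S.back hxw hx'1 hx'2 (S.T_symm hwt)
    have h2 : S.T ρ y' y := S.back hyz hy'1 hy'2 (S.T_symm hzs)
    exact hρ (S.TE_null (S.T_trans (S.T_trans h1 hT) (S.T_symm h2)) (S.far_E hfar))
  · -- `z = t`, `w = s`
    have hws : S.T ρ w (c i) :=
      S.SW (S.far_symm hst) hw.symm' (S.E_compat' hzt (S.far_E (S.far_symm hzw)))
    obtain ⟨x', hx'1, hx'2⟩ := S.L2 hxw (c i)
    obtain ⟨y', hy'1, hy'2⟩ := S.L2 hyz (c k)
    have hfar : S.far x' y' := by
      refine hc.2 ((A \ {i}) ∪ {k}) x' y' ?_ ?_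
      · intro j hj
        have hjk : j ≠ k := fun h => hj (Or.inr h)
        by_cases hji : j = i
        · rw [hji]; exact hx'2
        · have hjA : j ∉ A := fun h => hj (Or.inl ⟨h, hji⟩)
          exact S.far_symm (hx'1 _ (S.far_symm (hx j hjA hjk)) (cw j hji hjk))
      · intro j hj
        rcases hj with ⟨hjA, hji⟩ | hj
        · have hji' : j ≠ i := hji
          have hjk : j ≠ k := fun h => hk (h ▸ hjA)
          exact S.far_symm (hy'1 _ (S.far_symm (hy j hjA hji')) (cz j hji' hjk))
        · have hj' : j = k := hj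
          rw [hj']; exact hy'2
    have h1 : S.T ρ x' x := S.back hxw hx'1 hx'2 (S.T_symm hws)
    have h2 : S.T ρ y' y := S.back hyz hy'1 hy'2 (S.T_symm hzt)
    exact hρ (S.TE_null (S.T_trans (S.T_trans h1 hT) (S.T_symm h2)) (S.far_E hfar))

/-- splitting a perfect clique -/
theorem KSpace.split {m : ℕ} {c : Fin m → K} (hc : S.PClique c) {i k : Fin m}
    (hik : i ≠ k) {z w : K} (hz : BB S.far (c i) (c k) z) (hw : BB S.far (c i) (c k) w)
    (hzw : S.far z w) : S.PClique (Function.update (Function.update c i z) k w) := by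
  set c' := Function.update (Function.update c i z) k w with hc'
  have hck : c' k = w := by simp [hc']
  have hci : c' i = z := by simp [hc', Function.update_of_ne hik]
  have hcj : ∀ j, j ≠ i → j ≠ k → c' j = c j := by
    intro j h1 h2
    simp [hc', Function.update_of_ne h1, Function.update_of_ne h2]
  have hst : S.far (c i) (c k) := hc.1 i k hik
  have cz : ∀ j, j ≠ i → j ≠ k → S.far (c j) z := fun j h1 h2 => hz _ (hc.1 j i h1) (hc.1 j k h2)
  have cw : ∀ j, j ≠ i → j ≠ k → S.far (c j) w := fun j h1 h2 => hw _ (hc.1 j i h1) (hc.1 j k h2)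
  have hback := S.swap hst hz hw hzw
  constructor
  · intro j j' hjj
    by_cases h1 : j = i
    · rw [h1, hci]
      by_cases h2 : j' = k
      · rw [h2, hck]; exact hzw
      · have h3 : j' ≠ i := fun h => hjj (h1.trans h.symm)
        rw [hcj j' h3 h2]
        exact S.far_symm (cz j' h3 h2)
    · by_cases h2 : j = k
      · rw [h2, hck]
        by_cases h3 : j' = i
        · rw [h3, hci]; exact S.far_symm hzw
        · have h4 : j' ≠ k := fun h => hjj (h2.trans h.symm)
          rw [hcj j' h3 h4]
          exact S.far_symm (cw j' h3 h4)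
      · rw [hcj j h1 h2]
        by_cases h3 : j' = i
        · rw [h3, hci]; exact cz j h1 h2
        · by_cases h4 : j' = k
          · rw [h4, hck]; exact cw j h1 h2
          · rw [hcj j' h3 h4]; exact hc.1 j j' hjj
  · intro A x y hx hy
    by_cases hi : i ∈ A
    · by_cases hk : k ∈ A
      · have hyz : S.far y z := hci ▸ hy i hi
        have hyw : S.far y w := hck ▸ hy k hk
        refine hc.2 A x y ?_ ?_
        · intro j hj
          have h1 : j ≠ i := fun h => hj (h ▸ hi)
          have h2 : j ≠ k := fun h => hj (h ▸ hk)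
          rw [← hcj j h1 h2]; exact hx j hj
        · intro j hj
          by_cases h1 : j = i
          · rw [h1]; exact hback.1 _ hyz hyw
          · by_cases h2 : j = k
            · rw [h2]; exact hback.2 _ hyz hyw
            · rw [← hcj j h1 h2]; exact hy j hj
      · refine S.split_core hc hik hz hw hzw A hi hk ?_ (hck ▸ hx k hk) ?_ (hci ▸ hy i hi)
        · intro j hj h2
          have h1 : j ≠ i := fun h => hj (h ▸ hi)
          rw [← hcj j h1 h2]; exact hx j hj
        · intro j hj h1
          have h2 : j ≠ k := fun h => hk (h ▸ hj)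
          rw [← hcj j h1 h2]; exact hy j hj
    · by_cases hk : k ∈ A
      · refine S.split_core hc hik.symm hw.symm' hz.symm' (S.far_symm hzw) A hk hi ?_
          (hci ▸ hx i hi) ?_ (hck ▸ hy k hk)
        · intro j hj h1
          have h2 : j ≠ k := fun h => hj (h ▸ hk)
          rw [← hcj j h1 h2]; exact hx j hj
        · intro j hj h2
          have h1 : j ≠ i := fun h => hi (h ▸ hj)
          rw [← hcj j h1 h2]; exact hy j hj
      · have hxz : S.far x z := hci ▸ hx i hi
        have hxw : S.far x w := hck ▸ hx k hk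
        refine hc.2 A x y ?_ ?_
        · intro j hj
          by_cases h1 : j = i
          · rw [h1]; exact hback.1 _ hxz hxw
          · by_cases h2 : j = k
            · rw [h2]; exact hback.2 _ hxz hxw
            · rw [← hcj j h1 h2]; exact hx j hj
        · intro j hj
          have h1 : j ≠ i := fun h => hi (h ▸ hj)
          have h2 : j ≠ k := fun h => hk (h ▸ hj)
          rw [← hcj j h1 h2]; exact hy j hj

/-- a point that is never `s` nor `t` is, after shrinking, never a given point between them -/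
theorem KSpace.shrinkE {s t z x : K} (hst : S.far s t) (hz : BB S.far s t z) (V : R)
    (hV : ¬ S.null V) (h1 : S.E V x s) (h2 : S.E V x t) :
    ∃ V', ¬ S.null V' ∧ SubR S.T S.E V' V ∧ S.E V' x z := by
  obtain ⟨V', a, b, c⟩ := S.shrink hst hz V hV
  refine ⟨V', a, b, ?_⟩
  rcases c with c | c
  · exact S.E_compat' (S.T_symm c) (b.2 _ _ h1)
  · exact S.E_compat' (S.T_symm c) (b.2 _ _ h2)

/-- the chain of splits -/
theorem KSpace.chain {m : ℕ} (c : Fin m → K) (hc : S.PClique c) (V : R)
    (hV : ¬ S.null V) (x : K) (hE : ∀ j, S.E V x (c j)) (r : ℕ) (hr : r + 2 ≤ m) :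
    ∃ (d : Fin m → K) (V' : R), S.PClique d ∧ ¬ S.null V' ∧ SubR S.T S.E V' V ∧
      (∀ j, S.E V' x (d j)) ∧ ∀ j : Fin m, j.val < r → S.far x (d j) := by
  induction r with
  | zero => exact ⟨c, V, hc, hV, SubR.refl' V, hE, fun j hj => absurd hj (Nat.not_lt_zero _)⟩
  | succ r ih =>
    obtain ⟨d, V₁, hd, hV₁, hsub, hE₁, hfar⟩ := ih (by omega)
    let i : Fin m := ⟨r, by omega⟩
    let k : Fin m := ⟨r + 1, by omega⟩
    have hik : i ≠ k := by
      intro h
      have := congrArg Fin.val h
      simp [i, k] at this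
    have hst : S.far (d i) (d k) := hd.1 i k hik
    obtain ⟨w, hw, hwx⟩ := S.L2 hst x
    obtain ⟨z, hz, hzw⟩ := S.L2 hst w
    obtain ⟨V₂, hV₂, hsub₂, hxz⟩ := S.shrinkE hst hz V₁ hV₁ (hE₁ i) (hE₁ k)
    refine ⟨Function.update (Function.update d i w) k z, V₂,
      S.split hd hik hw hz (S.far_symm hzw), hV₂, hsub.trans' hsub₂, ?_, ?_⟩
    · intro j
      by_cases h2 : j = k
      · rw [h2]; simp only [Function.update_self]; exact hxz
      · rw [Function.update_of_ne h2]
        by_cases h1 : j = i
        · rw [h1]; simp only [Function.update_self]; exact S.far_E (S.far_symm hwx)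
        · rw [Function.update_of_ne h1]
          exact hsub₂.2 _ _ (hE₁ j)
    · intro j hj
      have h2 : j ≠ k := by
        intro h
        rw [h] at hj
        simp [k] at hj
      rw [Function.update_of_ne h2]
      by_cases h1 : j = i
      · rw [h1]; simp only [Function.update_self]; exact S.far_symm hwx
      · rw [Function.update_of_ne h1]
        apply hfar
        have h3 : j.val ≠ r := fun h => h1 (Fin.ext h)
        omega

end

/-- On every nonempty region, after shrinking, every `x` is equal to a member of a given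
perfect clique.  (Proof in the message; splitting lemma + chain of `m-1` splits.) -/
theorem KSpace.exists_color {K R : Type*} (S : KSpace K R) {m : ℕ} (hm : 2 ≤ m)
    (c : Fin m → K) (hc : S.PClique c) (V : R) (hV : ¬ S.null V) (x : K) :
    ∃ V' j, ¬ S.null V' ∧ SubR S.T S.E V' V ∧ S.T V' x (c j) := by
  by_contra hcon
  push Not at hcon
  have hE : ∀ j, S.E V x (c j) := by
    intro j
    by_contra h
    obtain ⟨V', h1, h2, h3⟩ := S.INT h
    exact hcon V' j h1 h2 h3
  obtain ⟨d, V₁, hd, hV₁, -, hE₁, hfar⟩ := S.chain c hc V hV x hE (m - 2) (by omega)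
  let i : Fin m := ⟨m - 2, by omega⟩
  let k : Fin m := ⟨m - 1, by omega⟩
  have hik : i ≠ k := by
    intro h
    have := congrArg Fin.val h
    simp only [i, k] at this
    omega
  have hst : S.far (d i) (d k) := hd.1 i k hik
  obtain ⟨w, hw, hwx⟩ := S.L2 hst x
  obtain ⟨z, hz, hzw⟩ := S.L2 hst w
  obtain ⟨V₂, hV₂, hsub₂, hxz⟩ := S.shrinkE hst hz V₁ hV₁ (hE₁ i) (hE₁ k)
  have hxB : BB S.far (d i) (d k) x := by
    intro y hy1 hy2
    refine S.far_symm (hd.2 {i, k} x y ?_ ?_)
    · intro j hj
      apply hfar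
      have h1 : j ≠ i := fun h => hj (Or.inl h)
      have h2 : j ≠ k := fun h => hj (Or.inr h)
      have h3 : j.val ≠ m - 2 := fun h => h1 (Fin.ext h)
      have h4 : j.val ≠ m - 1 := fun h => h2 (Fin.ext h)
      have := j.2
      omega
    · intro j hj
      rcases hj with hj | hj
      · rw [hj]; exact hy1
      · have hj' : j = k := hj
        rw [hj']; exact hy2
  have hxz' : x = z := S.uniq hst hz hw hzw hxB (S.far_symm hwx)
  subst hxz'
  exact hV₂ (S.TE_null (S.T_refl V₂ x) hxz)

end Pool.MP24331d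
end
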