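import Mathlib
import Pool.Agent.Lib.MP_24331d_lc.KLevel
import Pool.Agent.Lib.MP_24331d_lc.Base
import Pool.Agent.Lib.MP_24331d_lc.Horn

section

section

namespace Pool.MP24331d

/-- Counting.  `f i p` is the colour of the `i`-line through the grid point `p`. -/
theorem isNet_of_grid {m : ℕ} (hm : 2 ≤ m) (f : Fin (m + 1) → Fin m × Fin m → Fin m)
    (h0 : ∀ p, f 0 p = p.1) (h1 : ∀ p, f 1 p = p.2)
    (hrow : ∀ i, i ≠ 0 → ∀ p q, p.1 = q.1 → f i p = f i q → p = q)
    (hcol : ∀ i, i ≠ 1 → ∀ p q, p.2 = q.2 → f i p = f i q → p = q)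
    (hone : ∀ i j, i ≠ j → i ≠ 0 → i ≠ 1 → j ≠ 0 → j ≠ 1 → ∀ p q, p.1 ≠ q.1 → p.2 ≠ q.2 →
      f i p = f i q → f j p = f j q → False) :
    IsNet (fun i p q => f i p = f i q) := by
  have h01 : (0 : Fin (m + 1)) ≠ 1 := by
    intro h
    have := congrArg Fin.val h
    rw [Fin.val_zero, Fin.val_one'] at this
    rw [Nat.mod_eq_of_lt (by omega)] at this
    omega
  -- every direction different from `0` meets every row in exactly one point
  have hsurj : ∀ i, i ≠ 0 → ∀ (a c : Fin m), ∃ b, f i (a, b) = c := by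
    intro i hi a
    have hinj : Function.Injective (fun b => f i (a, b)) := by
      intro b b' hbb
      have := hrow i hi (a, b) (a, b') rfl hbb
      exact congrArg Prod.snd this
    exact (Finite.injective_iff_surjective.1 hinj)
  -- two different points share at most one direction
  have hamo : ∀ i j, i ≠ j → ∀ p q, f i p = f i q → f j p = f j q → p = q := by
    intro i j hij p q hi hj
    by_contra hpq
    have hr : p.1 = q.1 → False := by
      intro h
      by_cases hi0 : i = 0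
      · have hj0 : j ≠ 0 := fun h' => hij (hi0.trans h'.symm)
        exact hpq (hrow j hj0 p q h hj)
      · exact hpq (hrow i hi0 p q h hi)
    have hc : p.2 = q.2 → False := by
      intro h
      by_cases hi1 : i = 1
      · have hj1 : j ≠ 1 := fun h' => hij (hi1.trans h'.symm)
        exact hpq (hcol j hj1 p q h hj)
      · exact hpq (hcol i hi1 p q h hi)
    have hne0 : ∀ k, f k p = f k q → k ≠ 0 := by
      rintro k hk rfl
      rw [h0, h0] at hk
      exact hr hk
    have hne1 : ∀ k, f k p = f k q → k ≠ 1 := by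
      rintro k hk rfl
      rw [h1, h1] at hk
      exact hc hk
    exact hone i j hij (hne0 i hi) (hne1 i hi) (hne0 j hj) (hne1 j hj) p q hr hc hi hj
  refine ⟨fun i => ⟨fun _ => rfl, fun h => h.symm, fun h h' => h.trans h'⟩, ?_, ?_⟩
  · intro x y hxy
    have hex : ∃ i, f i x = f i y := by
      by_cases hr : x.1 = y.1
      · exact ⟨0, by rw [h0, h0, hr]⟩
      by_cases hc : x.2 = y.2
      · exact ⟨1, by rw [h1, h1, hc]⟩
      have hg : ∀ (k : {i : Fin (m + 1) // ¬ (i = 0 ∨ i = 1)}) (a : {a : Fin m // ¬ a = x.1}),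
          ∃ b : {b : Fin m // ¬ b = x.2}, f k.1 (a.1, b.1) = f k.1 x := by
        intro k a
        have hk0 : k.1 ≠ 0 := fun h => k.2 (Or.inl h)
        have hk1 : k.1 ≠ 1 := fun h => k.2 (Or.inr h)
        obtain ⟨b, hb⟩ := hsurj k.1 hk0 a.1 (f k.1 x)
        refine ⟨⟨b, fun h => a.2 ?_⟩, hb⟩
        have := hcol k.1 hk1 (a.1, b) x h hb
        exact congrArg Prod.fst this
      choose g hgs using hg
      let Φ : {i : Fin (m + 1) // ¬ (i = 0 ∨ i = 1)} × {a : Fin m // ¬ a = x.1} →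
          {a : Fin m // ¬ a = x.1} × {b : Fin m // ¬ b = x.2} := fun ka => (ka.2, g ka.1 ka.2)
      have hΦ : Function.Injective Φ := by
        rintro ⟨k, a⟩ ⟨k', a'⟩ h
        have ha : a = a' := congrArg Prod.fst h
        subst ha
        have hb : g k a = g k' a := congrArg Prod.snd h
        have hk : k = k' := by
          by_contra hkk
          have hkk' : k.1 ≠ k'.1 := fun h => hkk (Subtype.ext h)
          have e1 := hgs k a
          have e2 := hgs k' a
          rw [← hb] at e2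
          have := hamo k.1 k'.1 hkk' _ _ e1 e2
          exact a.2 (congrArg Prod.fst this)
        rw [hk]
      have hcard : Fintype.card ({i : Fin (m + 1) // ¬ (i = 0 ∨ i = 1)} ×
          {a : Fin m // ¬ a = x.1}) =
          Fintype.card ({a : Fin m // ¬ a = x.1} × {b : Fin m // ¬ b = x.2}) := by
        have c1 : Fintype.card {i : Fin (m + 1) // ¬ (i = 0 ∨ i = 1)} = m - 1 := by
          rw [Fintype.card_subtype_compl, Fintype.card_fin, Fintype.card_subtype]
          have : (Finset.univ.filter fun i : Fin (m + 1) => i = 0 ∨ i = 1) = {0, 1} := by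
            ext i
            simp
          rw [this, Finset.card_pair h01]
          omega
        have c2 : ∀ c : Fin m, Fintype.card {a : Fin m // ¬ a = c} = m - 1 := by
          intro c
          rw [Fintype.card_subtype_compl, Fintype.card_fin, Fintype.card_subtype_eq]
        rw [Fintype.card_prod, Fintype.card_prod, c1, c2, c2]
      have hbij := (Fintype.bijective_iff_injective_and_card Φ).2 ⟨hΦ, hcard⟩
      obtain ⟨⟨k, a⟩, hka⟩ := hbij.2 (⟨y.1, fun h => hr h.symm⟩, ⟨y.2, fun h => hc h.symm⟩)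
      refine ⟨k.1, ?_⟩
      have ha : a = ⟨y.1, fun h => hr h.symm⟩ := congrArg Prod.fst hka
      have hb : g k a = ⟨y.2, fun h => hc h.symm⟩ := congrArg Prod.snd hka
      have := hgs k a
      rw [hb, ha] at this
      exact this.symm
    obtain ⟨i, hi⟩ := hex
    refine ⟨i, hi, ?_⟩
    intro j hj
    by_contra hij
    exact hxy (hamo i j (fun h => hij h.symm) x y hi hj)
  · intro i j hij x y
    by_cases hi : i = 0
    · subst hi
      obtain ⟨b, hb⟩ := hsurj j (fun h => hij h.symm) x.1 (f j y)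
      refine ⟨(x.1, b), ?_, hb⟩
      show f 0 x = f 0 (x.1, b)
      rw [h0, h0]
    · have hg : ∀ a : Fin m, ∃ b, f i (a, b) = f i x := fun a => hsurj i hi a _
      choose g hg using hg
      have hinj : Function.Injective (fun a => f j (a, g a)) := by
        intro a a' haa
        have := hamo i j hij (a, g a) (a', g a') ((hg a).trans (hg a').symm) haa
        exact congrArg Prod.fst this
      obtain ⟨a, ha⟩ := (Finite.injective_iff_surjective.1 hinj) (f j y)
      exact ⟨(a, g a), (hg a).symm, ha⟩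

end Pool.MP24331d
end

section

/-! The line level structure on a `c`-line of a weak representation. -/

namespace Pool.MP24331d
namespace WRep

variable {m : ℕ} {D : Type*} (W : WRep m D) (hm : 6 ≤ m)

/-- points of the `c`-line through `o` -/
abbrev LineK (c : Fin (m + 1)) (o : D) : Type _ := {x : D // W.Col c o x}

/-- equality of `p,q` on the region of the `c`-line through `v` -/
def TV (c a : Fin (m + 1)) (v p q : D) : Prop := W.NT c p (W.mt c a v q)
/-- inequality of `p,q` on the region of the `c`-line through `v` -/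
def EV (c a : Fin (m + 1)) (v p q : D) : Prop := W.NE p (W.mt c a v q)
/-- the region of the `c`-line through `v` is empty -/
def Null (c a : Fin (m + 1)) (o v : D) : Prop := W.Far a (W.mt c a v o) o

include hm

/-! ### properties of `TV`, `EV`, `Null` (`c ≠ a`; all points on the `c`-line `K` of `o`) -/

section K1
variable {c a : Fin (m + 1)} (hca : c ≠ a)
include hca

/-- independence of the auxiliary class (`ind_T`, or `df`) -/
theorem TV_cls {b : Fin (m + 1)} (hcb : c ≠ b) {v p q n : D} (hpq : W.Col c p q)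
    (h1 : W.Col c v n) (h2 : W.Col b q n) : W.TV c a v p q ↔ W.NT c p n := by
  unfold TV
  have hl := W.mt_l (by omega) hca v q
  have hr := W.mt_r (by omega) hca v q
  by_cases hab : a = b
  · subst hab
    rw [W.mt_unique hca hl hr h1 h2]
  · constructor
    · intro h
      exact W.nt_symm (W.ind_T hm hca hcb hab (W.col_trans (W.col_symm hl) h1)
        (W.col_symm hpq) (W.col_symm hr) (W.col_symm h2) (W.nt_symm h))
    · intro h
      exact W.nt_symm (W.ind_T hm hcb hca (Ne.symm hab) (W.col_trans (W.col_symm h1) hl)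
        (W.col_symm hpq) (W.col_symm h2) (W.col_symm hr) (W.nt_symm h))
theorem EV_cls {b : Fin (m + 1)} (hcb : c ≠ b) {v p q n : D} (hpq : W.Col c p q)
    (h1 : W.Col c v n) (h2 : W.Col b q n) : W.EV c a v p q ↔ W.NE p n := by
  unfold EV
  have hl := W.mt_l (by omega) hca v q
  have hr := W.mt_r (by omega) hca v q
  by_cases hab : a = b
  · subst hab
    rw [W.mt_unique hca hl hr h1 h2]
  · constructor
    · intro h
      exact W.ne_symm (W.ind_E hm hca hcb hab (W.col_trans (W.col_symm hl) h1)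
        (W.col_symm hpq) (W.col_symm hr) (W.col_symm h2) (W.ne_symm h))
    · intro h
      exact W.ne_symm (W.ind_E hm hcb hca (Ne.symm hab) (W.col_trans (W.col_symm h1) hl)
        (W.col_symm hpq) (W.col_symm h2) (W.col_symm hr) (W.ne_symm h))
theorem TV_refl (v p : D) : W.TV c a v p p :=
  W.nt_of_col hca (W.mt_r (by omega) hca v p)
theorem TV_symm {v p q : D} (hpq : W.Col c p q) (h : W.TV c a v p q) : W.TV c a v q p :=
  W.df hm (W.col_symm hpq)
    (W.col_trans (W.col_symm (W.mt_l (by omega) hca v q)) (W.mt_l (by omega) hca v p))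
    (W.nt_of_col hca (W.mt_r (by omega) hca v q)) h
    (W.nt_of_col hca (W.mt_r (by omega) hca v p))
theorem TV_trans {v p q r : D} (hpq : W.Col c p q) (hqr : W.Col c q r) (h : W.TV c a v p q)
    (h' : W.TV c a v q r) : W.TV c a v p r :=
  W.df hm hpq
    (W.col_trans (W.col_symm (W.mt_l (by omega) hca v q)) (W.mt_l (by omega) hca v r))
    h (W.nt_of_col hca (W.mt_r (by omega) hca v q)) h'
theorem EV_symm {v p q : D} (hpq : W.Col c p q) (h : W.EV c a v p q) : W.EV c a v q p :=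
  W.box_E hm hca hpq (W.mt_r (by omega) hca v q) (W.mt_r (by omega) hca v p)
    (W.col_trans (W.col_symm (W.mt_l (by omega) hca v p)) (W.mt_l (by omega) hca v q)) h
theorem EV_compat {v p p' q : D} (hpq : W.Col c p q) (hpp : W.Col c p p')
    (h : W.TV c a v p p') (h' : W.EV c a v p q) : W.EV c a v p' q :=
  W.compat hm hca (W.col_symm hpp)
    (W.col_trans (W.col_symm (W.mt_l (by omega) hca v p)) (W.mt_l (by omega) hca v q))
    (W.mt_r (by omega) hca v p) (W.TV_symm hm hca hpp h) h'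
theorem EV_of_far {v p q : D} (h : W.Far c p q) : W.EV c a v p q := by
  intro hn
  have hr := W.mt_r (by omega) hca v q
  obtain ⟨x, hx, y, hy, hxy⟩ := W.pc p q _ hn
  have hx' : x = some c := h hx
  have hy' : y = none ∨ y = some a := hr hy
  subst hx'
  rcases hy' with rfl | rfl
  · exact absurd hxy (by simp [cyc])
  · exact hca hxy
theorem Null_iff {o v p n : D} (hp : W.Col c o p) {b : Fin (m + 1)} (hcb : c ≠ b)
    (h1 : W.Col c v n) (h2 : W.Col b p n) : W.Null c a o v ↔ W.Far b n p := by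
  have hl := W.mt_l (by omega) hca v o
  have hr := W.mt_r (by omega) hca v o
  constructor
  · intro h
    exact W.far_proj hca.symm hcb.symm h (W.col_symm h2) (W.col_trans (W.col_symm hl) h1) hp
  · intro h
    exact W.far_proj hcb.symm hca.symm h (W.col_symm hr) (W.col_trans (W.col_symm h1) hl)
      (W.col_symm hp)
theorem Null_of_TV_EV {o v p q : D} (hp : W.Col c o p) (hq : W.Col c o q)
    (h : W.TV c a v p q) (h' : W.EV c a v p q) : W.Null c a o v := by
  have hpq : W.Col c p q := W.col_trans (W.col_symm hp) hq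
  have h2 : W.EV c a v q q := W.EV_compat hm hca hpq hpq h h'
  have hr := W.mt_r (by omega) hca v q
  rw [W.Null_iff hm hca hq hca (W.mt_l (by omega) hca v q) hr]
  exact W.far_iff.2 ⟨W.col_symm hr, W.ne_symm h2⟩
/-- `s,t` far, `x` in the closure of `s,t` : `swa` with `Y = s_a ∩ t_b` -/
theorem EV_SW {v s t x : D} (hst : W.Far c s t) (hx : W.BBc c s t x) (h : W.EV c a v x s) :
    W.TV c a v x t := by
  obtain ⟨b, hb⟩ : ∃ b : Fin (m + 1), b ∉ ({c, a} : Finset (Fin (m + 1))) := by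
    by_contra hcon
    push Not at hcon
    have h1 : (Finset.univ : Finset (Fin (m + 1))).card ≤ ({c, a} : Finset (Fin (m + 1))).card :=
      Finset.card_le_card fun b _ => hcon b
    have h2 : ({c, a} : Finset (Fin (m + 1))).card ≤ 2 := Finset.card_le_two
    rw [Finset.card_univ, Fintype.card_fin] at h1
    omega
  simp only [Finset.mem_insert, Finset.mem_singleton, not_or] at hb
  have hcb : c ≠ b := fun h => hb.1 h.symm
  have hab : a ≠ b := fun h => hb.2 h.symm
  obtain ⟨Y, hY1, hY2⟩ := W.exists_meet (by omega) hab s t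
  -- `Y` is never on the line
  have hsY : W.NE s Y := by
    intro hn
    obtain ⟨x', hx', y, hy, hxy⟩ := W.pc s t _ hn
    have e1 : x' = some c := hst hx'
    have e2 : y = none ∨ y = some b := hY2 hy
    subst e1
    rcases e2 with rfl | rfl
    · exact absurd hxy (by simp [cyc])
    · exact hcb hxy
  have hsY' : W.Far a s Y := W.far_iff.2 ⟨hY1, hsY⟩
  have hxY : W.NE x Y := by
    intro hn
    obtain ⟨x', hx', y, hy, hxy⟩ := W.pc x s _ hn
    have e1 : x' = none ∨ x' = some c := (W.col_symm hx.1) hx'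
    have e2 : y = some a := hsY' hy
    subst e2
    rcases e1 with rfl | rfl
    · exact absurd hxy (by simp [cyc])
    · exact hca hxy
  have hTE := (W.BBc_iff hm hca hcb hab (W.far_col hst) hx.1 hY1 hY2).1 hx
  have hT : W.Two a b x Y := by
    intro z hz
    rcases hTE hz with h0 | h0
    · exact absurd (h0 ▸ hz) hxY
    · exact h0
  have hU1 := W.mt_l (by omega) hca v s
  have hU2 := W.mt_r (by omega) hca v s
  have hV1 := W.mt_l (by omega) hcb v t
  have hV2 := W.mt_r (by omega) hcb v t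
  have key := W.swa hm hab hca.symm hcb.symm hT (W.col_trans (W.col_symm hY1) hU2)
    (W.col_trans (W.col_symm hY2) hV2) (W.col_trans (W.col_symm hU1) hV1) (W.ne_symm h)
  have hxt : W.Col c x t := W.col_trans (W.col_symm hx.1) (W.far_col hst)
  exact (W.TV_cls hm hca hcb hxt hV1 hV2).2 (W.nt_symm key)
/-- `[v_c = K] = [x = y]` for the point `v = x_a ∩ y_b` -/
theorem exists_top {o x y : D} (hx : W.Col c o x) (hy : W.Col c o y) (h : ¬ W.Far c x y) :
    ∃ v, ¬ W.Null c a o v ∧ W.TV c a v x y := by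
  obtain ⟨b, hb⟩ : ∃ b : Fin (m + 1), b ∉ ({c, a} : Finset (Fin (m + 1))) := by
    by_contra hcon
    push Not at hcon
    have h1 : (Finset.univ : Finset (Fin (m + 1))).card ≤ ({c, a} : Finset (Fin (m + 1))).card :=
      Finset.card_le_card fun b _ => hcon b
    have h2 : ({c, a} : Finset (Fin (m + 1))).card ≤ 2 := Finset.card_le_two
    rw [Finset.card_univ, Fintype.card_fin] at h1
    omega
  simp only [Finset.mem_insert, Finset.mem_singleton, not_or] at hb
  have hcb : c ≠ b := fun h => hb.1 h.symm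
  have hab : a ≠ b := fun h => hb.2 h.symm
  have hxy : W.Col c x y := W.col_trans (W.col_symm hx) hy
  obtain ⟨v, hv1, hv2⟩ := W.exists_meet (by omega) hab x y
  refine ⟨v, ?_, ?_⟩
  · intro hN
    have hF := (W.Null_iff hm hca hx hca (W.col_refl c v) hv1).1 hN
    apply h
    refine W.far_iff.2 ⟨hxy, ?_⟩
    intro hn
    obtain ⟨x', hx', y', hy', hc⟩ := W.pc x v _ hn
    have e1 : x' = some a := (W.far_symm hF) hx'
    have e2 : y' = none ∨ y' = some b := (W.col_symm hv2) hy'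
    subst e1
    rcases e2 with rfl | rfl
    · exact absurd hc (by simp [cyc])
    · exact hab hc
  · exact (W.TV_cls hm hca hcb hxy (W.col_refl c v) hv2).2 (W.nt_of_col hca hv1)
end K1

/-! ### refinement of regions.  `v'_c` region contained in `v_c` at one anchor `z`
(as `T3` on the `i`-line of `z`) gives refinement on all of `K`. -/

/-- Proof: let `p` be another point of `K`; `T3_move` (along `c`-lines) from `z_i` to `p_i` gives
`T3 i p (v'_c ∩ p_i) (v_c ∩ p_i)`; by `T3_iff` with classes `(b,c)`: `NT b (h_b ∩ v_c) p`,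
`h = v'_c ∩ p_i`, `b ≠ c,i`.  For `TV v p q` use `TV_cls` to write it as `NT c (v_c ∩ q_d) p` with
`d ≠ b,c,i`, apply `tr4` (lines `h_b`, `v_c`, `q_d`) and `tr4` again (lines `v'_c`, `h_b`, `q_d`,
`NT c h p` holds since `h` is on `p_i`).  For `EV` use `k3` instead. -/
theorem TV_mono {c a i : Fin (m + 1)} (hca : c ≠ a) (hci : c ≠ i) {z v v' h k p q : D}
    (hzp : W.Col c z p) (hzq : W.Col c z q)
    (hh : W.Col i z h) (hh' : W.Col c v' h) (hk : W.Col i z k) (hk' : W.Col c v k)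
    (hT : W.T3 i z h k) (h1 : W.TV c a v p q) : W.TV c a v' p q := by
  have hm3 : 3 ≤ m := by omega
  have ex1 : ∀ S : Finset (Fin (m + 1)), S.card ≤ 6 → ∃ b, b ∉ S := by
    intro S hS
    by_contra hcon
    push Not at hcon
    have := Finset.card_le_card (show (Finset.univ : Finset (Fin (m + 1))) ⊆ S from
      fun x _ => hcon x)
    rw [Finset.card_univ, Fintype.card_fin] at this
    omega
  obtain ⟨b, hb⟩ := ex1 {c, i} ((Finset.card_le_two).trans (by norm_num))
  obtain ⟨d, hd⟩ := ex1 {b, c, i} ((Finset.card_le_three).trans (by norm_num))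
  simp only [Finset.mem_insert, Finset.mem_singleton, not_or] at hb hd
  obtain ⟨hbc, hbi⟩ := hb
  obtain ⟨hdb, hdc, hdi⟩ := hd
  -- the points on the `i`-line of `p`
  obtain ⟨h', hh1, hh2⟩ := W.exists_meet hm3 hci h p
  obtain ⟨k', hk1, hk2⟩ := W.exists_meet hm3 hci k p
  have hT' : W.T3 i p h' k' :=
    W.T3_move hm (Ne.symm hci) (Ne.symm hci) hh hk hh2 hk2 hzp hh1 hk1 hT
  obtain ⟨n, hn1, hn2⟩ := W.exists_meet hm3 hbc h' k'
  have hNT : W.NT b n p :=
    (W.T3_iff hm (Ne.symm hbi) (Ne.symm hci) hbc hh2 hk2 hn1 hn2).mp hT'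
  obtain ⟨nq, hq1, hq2⟩ := W.exists_meet hm3 (Ne.symm hdc) v q
  have hpq : W.Col c p q := W.col_trans (W.col_symm hzp) hzq
  have h2 : W.NT c p nq := (W.TV_cls hm hca (Ne.symm hdc) hpq hq1 hq2).mp h1
  obtain ⟨R, hR1, hR2⟩ := W.exists_meet hm3 (Ne.symm hdb) h' q
  have hvn : W.Col c v n := W.col_trans (W.col_trans hk' hk1) hn2
  have h3 : W.NT b R p := by
    refine W.tr4 hm hbc (Ne.symm hdb) (Ne.symm hdc) (o := p) (P := n) (Q := nq) (R := R)
      ?_ ?_ ?_ hNT (W.nt_symm h2)
    · exact W.col_trans (W.col_symm hvn) hq1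
    · exact W.col_trans (W.col_symm hq2) hR2
    · exact W.col_trans (W.col_symm hn1) hR1
  obtain ⟨R2, hR3, hR4⟩ := W.exists_meet hm3 (Ne.symm hdc) v' q
  have hv'h' : W.Col c v' h' := W.col_trans hh' hh1
  have h4 : W.NT c R2 p := by
    refine W.tr4 hm (Ne.symm hbc) (Ne.symm hdc) (Ne.symm hdb) (o := p) (P := h') (Q := R) (R := R2)
      ?_ ?_ ?_ ?_ h3
    · exact hR1
    · exact W.col_trans (W.col_symm hR2) hR4
    · exact W.col_trans (W.col_symm hv'h') hR3
    · exact W.nt_of_col hci (W.col_symm hh2)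
  exact (W.TV_cls hm hca (Ne.symm hdc) hpq hR3 hR4).mpr (W.nt_symm h4)

theorem EV_mono {c a i : Fin (m + 1)} (hca : c ≠ a) (hci : c ≠ i) {z v v' h k p q : D}
    (hzp : W.Col c z p) (hzq : W.Col c z q)
    (hh : W.Col i z h) (hh' : W.Col c v' h) (hk : W.Col i z k) (hk' : W.Col c v k)
    (hT : W.T3 i z h k) (h1 : W.EV c a v p q) : W.EV c a v' p q := by
  have hm3 : 3 ≤ m := by omega
  have ex1 : ∀ S : Finset (Fin (m + 1)), S.card ≤ 6 → ∃ b, b ∉ S := by
    intro S hS
    by_contra hcon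
    push Not at hcon
    have := Finset.card_le_card (show (Finset.univ : Finset (Fin (m + 1))) ⊆ S from
      fun x _ => hcon x)
    rw [Finset.card_univ, Fintype.card_fin] at this
    omega
  obtain ⟨b, hb⟩ := ex1 {c, i} ((Finset.card_le_two).trans (by norm_num))
  obtain ⟨d, hd⟩ := ex1 {b, c, i} ((Finset.card_le_three).trans (by norm_num))
  simp only [Finset.mem_insert, Finset.mem_singleton, not_or] at hb hd
  obtain ⟨hbc, hbi⟩ := hb
  obtain ⟨hdb, hdc, hdi⟩ := hd
  -- the points on the `i`-line of `p`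
  obtain ⟨h', hh1, hh2⟩ := W.exists_meet hm3 hci h p
  obtain ⟨k', hk1, hk2⟩ := W.exists_meet hm3 hci k p
  have hT' : W.T3 i p h' k' :=
    W.T3_move hm (Ne.symm hci) (Ne.symm hci) hh hk hh2 hk2 hzp hh1 hk1 hT
  obtain ⟨n, hn1, hn2⟩ := W.exists_meet hm3 hbc h' k'
  have hNT : W.NT b n p :=
    (W.T3_iff hm (Ne.symm hbi) (Ne.symm hci) hbc hh2 hk2 hn1 hn2).mp hT'
  obtain ⟨nq, hq1, hq2⟩ := W.exists_meet hm3 (Ne.symm hdc) v q
  have hpq : W.Col c p q := W.col_trans (W.col_symm hzp) hzq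
  have h2 : W.NE p nq := (W.EV_cls hm hca (Ne.symm hdc) hpq hq1 hq2).mp h1
  obtain ⟨R, hR1, hR2⟩ := W.exists_meet hm3 (Ne.symm hdb) h' q
  have hvn : W.Col c v n := W.col_trans (W.col_trans hk' hk1) hn2
  have h3 : W.NE R p := by
    refine W.k3 hm hbc (Ne.symm hdb) (Ne.symm hdc) (o := p) (P := n) (Q := nq) (R := R)
      ?_ ?_ ?_ hNT (W.ne_symm h2)
    · exact W.col_trans (W.col_symm hvn) hq1
    · exact W.col_trans (W.col_symm hq2) hR2
    · exact W.col_trans (W.col_symm hn1) hR1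
  obtain ⟨R2, hR3, hR4⟩ := W.exists_meet hm3 (Ne.symm hdc) v' q
  have hv'h' : W.Col c v' h' := W.col_trans hh' hh1
  have h4 : W.NE R2 p := by
    refine W.k3 hm (Ne.symm hbc) (Ne.symm hdc) (Ne.symm hdb) (o := p) (P := h') (Q := R) (R := R2)
      ?_ ?_ ?_ ?_ h3
    · exact hR1
    · exact W.col_trans (W.col_symm hR2) hR4
    · exact W.col_trans (W.col_symm hv'h') hR3
    · exact W.nt_of_col hci (W.col_symm hh2)
  exact (W.EV_cls hm hca (Ne.symm hdc) hpq hR3 hR4).mpr (W.ne_symm h4)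

/-- from `int_region` (with `i`, `s` two further classes), `T3_iff`, `TV_mono`, `EV_mono` -/
theorem exists_int {c a : Fin (m + 1)} (hca : c ≠ a) {o v z w : D} (hz : W.Col c o z)
    (hw : W.Col c o w) (h : ¬ W.EV c a v z w) :
    ∃ v', ¬ W.Null c a o v' ∧ W.TV c a v' z w ∧
      (∀ p q, W.Col c o p → W.Col c o q → W.TV c a v p q → W.TV c a v' p q) ∧
      (∀ p q, W.Col c o p → W.Col c o q → W.EV c a v p q → W.EV c a v' p q) := by
  have hm3 : 3 ≤ m := by omega
  have ex1 : ∀ S : Finset (Fin (m + 1)), S.card ≤ 6 → ∃ b, b ∉ S := by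
    intro S hS
    by_contra hcon
    push Not at hcon
    have := Finset.card_le_card (show (Finset.univ : Finset (Fin (m + 1))) ⊆ S from
      fun x _ => hcon x)
    rw [Finset.card_univ, Fintype.card_fin] at this
    omega
  obtain ⟨i, hi⟩ := ex1 {c} (by simp)
  obtain ⟨s, hs⟩ := ex1 {i, c} ((Finset.card_le_two).trans (by norm_num))
  simp only [Finset.mem_insert, Finset.mem_singleton, not_or] at hi hs
  obtain ⟨hsi, hsc⟩ := hs
  have hci : c ≠ i := Ne.symm hi
  have hcs : c ≠ s := Ne.symm hsc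
  have his : i ≠ s := Ne.symm hsi
  have hzw : W.Col c z w := W.col_trans (W.col_symm hz) hw
  obtain ⟨g, hg1, hg2, hg3, hg4⟩ := W.int_region hm hci hcs his (v := v) hzw
  obtain ⟨k, hk1, hk2⟩ := W.exists_meet hm3 hci v z
  obtain ⟨gv, hgv1, hgv2⟩ := W.exists_meet hm3 (Ne.symm hcs) g v
  have hT : W.T3 i z g k :=
    (W.T3_iff hm his (Ne.symm hci) (Ne.symm hcs) hg1 hk2 hgv1
      (W.col_trans (W.col_symm hk1) hgv2)).mpr (hg3 gv hgv1 hgv2)
  refine ⟨g, ?_, ?_, ?_, ?_⟩
  · intro hnull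
    have hfar : W.Far i g z :=
      (W.Null_iff hm hca hz hci (W.col_refl c g) hg1).mp hnull
    obtain ⟨vw, hv1, hv2⟩ := W.exists_meet hm3 hci v w
    exact h ((W.EV_cls hm hca hci hzw hv1 hv2).mpr (hg4 hfar vw hv1 hv2))
  · refine W.TV_symm hm hca (W.col_symm hzw) ?_
    exact (W.TV_cls hm hca hci (W.col_symm hzw) (W.col_refl c g) hg1).mpr hg2
  · intro p q hp hq hpq
    exact W.TV_mono hm hca hci (W.col_trans (W.col_symm hz) hp) (W.col_trans (W.col_symm hz) hq)
      hg1 (W.col_refl c g) hk2 hk1 hT hpq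
  · intro p q hp hq hpq
    exact W.EV_mono hm hca hci (W.col_trans (W.col_symm hz) hp) (W.col_trans (W.col_symm hz) hq)
      hg1 (W.col_refl c g) hk2 hk1 hT hpq

/-! ### the instance -/

omit hm in
theorem k3_cyc_none {x y : At m} (h : cyc x y none) : x = y := by
  rcases x with _ | i <;> rcases y with _ | j
  · rfl
  · exact absurd h (by simp [cyc])
  · exact absurd h (by simp [cyc])
  · exact congrArg some h

omit hm in
/-- composition argument for `NE` -/
theorem k3_ne_comp {u v w : D} (h : ∀ x ∈ W.lab u v, x ∉ W.lab v w) : W.NE u w := by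
  intro h0
  obtain ⟨x, hx, y, hy, hc⟩ := W.pc u v w h0
  have e := k3_cyc_none hc
  exact h x hx (e ▸ hy)

omit hm in
theorem k3_nt_comp {u v w : D} {a : Fin (m + 1)}
    (h : ∀ x ∈ W.lab u v, ∀ y ∈ W.lab v w, ¬ cyc x y (some a)) : W.NT a u w := by
  intro h0
  obtain ⟨x, hx, y, hy, hc⟩ := W.pc u v w h0
  exact h x hx y hy hc

omit hm in
/-- a point `Y` far (in class `b`) from a point of a `c`-line is never on the line -/
theorem k3_off {b c : Fin (m + 1)} (hbc : c ≠ b) {Y y0 p : D} (h : W.Far b Y y0)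
    (hp : W.Col c y0 p) : W.NE Y p ∧ W.NT c Y p := by
  constructor
  · apply W.k3_ne_comp
    intro x hx hx'
    have h1 := h hx
    have h2 := hp hx'
    rw [Set.mem_singleton_iff] at h1
    rw [h1] at h2
    simp only [Set.mem_insert_iff, reduceCtorEq, Set.mem_singleton_iff, Option.some.injEq,
      false_or] at h2
    exact hbc h2.symm
  · apply W.k3_nt_comp
    intro x hx y hy hc
    have h1 := h hx
    have h2 := hp hy
    rw [Set.mem_singleton_iff] at h1
    subst h1
    rcases h2 with h2 | h2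
    · subst h2
      simp only [cyc, Option.some.injEq] at hc
      exact hbc hc
    · rw [Set.mem_singleton_iff] at h2
      subst h2
      simp only [cyc] at hc
      rw [if_neg (fun h => hbc h.symm)] at hc
      exact hc.2 rfl

omit hm in
theorem k3_far_meet {a b c : Fin (m + 1)} (hca : c ≠ a) (hcb : c ≠ b) (hab : a ≠ b)
    {s t n : D} (hst : W.Far c s t) (h1 : W.Col a s n) (h2 : W.Col b t n) : W.Far a s n := by
  refine W.far_iff.mpr ⟨h1, ?_⟩
  apply W.k3_ne_comp (v := t)
  intro x hx hx'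
  have h3 := hst hx
  have h4 := h2 hx'
  rw [Set.mem_singleton_iff] at h3
  rw [h3] at h4
  simp only [Set.mem_insert_iff, reduceCtorEq, Set.mem_singleton_iff, Option.some.injEq,
    false_or] at h4
  exact hcb h4

omit hm in
theorem k3_two_of {a b : Fin (m + 1)} {u v : D} (h : W.TwoE a b u v) (h' : W.NE u v) :
    W.Two a b u v := by
  intro x hx
  rcases h hx with h1 | h1
  · exact absurd (h1 ▸ hx) h'
  · exact h1

theorem k3_classes (c : Fin (m + 1)) : ∃ a b : Fin (m + 1), c ≠ a ∧ c ≠ b ∧ a ≠ b := by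
  have h0 : (0 : Fin (m + 1)).val = 0 := rfl
  let z0 : Fin (m + 1) := ⟨0, by omega⟩
  let z1 : Fin (m + 1) := ⟨1, by omega⟩
  let z2 : Fin (m + 1) := ⟨2, by omega⟩
  have h01 : z0 ≠ z1 := by simp [z0, z1, Fin.ext_iff]
  have h02 : z0 ≠ z2 := by simp [z0, z2, Fin.ext_iff]
  have h12 : z1 ≠ z2 := by simp [z1, z2, Fin.ext_iff]
  by_cases hc0 : c = z0
  · exact ⟨z1, z2, hc0 ▸ h01, hc0 ▸ h02, h12⟩
  · by_cases hc1 : c = z1
    · exact ⟨z0, z2, hc0, hc1 ▸ h12, h02⟩
    · exact ⟨z0, z1, hc0, hc1, h01⟩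

/-- `L2` : `ex` on `(Y,o')`, `Y = s_a ∩ t_b`, with `{some a, some b}` and `{some c}`. -/
theorem exists_L2 {c : Fin (m + 1)} {s t o' : D} (hst : W.Far c s t) (ho : W.Col c s o') :
    ∃ z, W.BBc c s t z ∧ W.Far c z o' := by
  obtain ⟨a, b, hca, hcb, hab⟩ := k3_classes hm c
  obtain ⟨Y, hY1, hY2⟩ := W.exists_meet (by omega) hab s t
  have hfa : W.Far a s Y := W.k3_far_meet hca hcb hab hst hY1 hY2
  obtain ⟨hne, hnt⟩ := W.k3_off hca (W.far_symm hfa) ho
  have hsub : W.lab Y o' ⊆ comp {some a, some b} {some c} := by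
    intro x hx
    rcases x with _ | i
    · exact absurd hx hne
    · have hic : i ≠ c := fun h => hnt (h ▸ hx)
      by_cases hia : i = a
      · refine ⟨some b, by simp, some c, rfl, ?_⟩
        simp only [cyc]
        rw [if_neg (fun h => hcb h.symm)]
        exact ⟨hia ▸ hab, hic⟩
      · refine ⟨some a, by simp, some c, rfl, ?_⟩
        simp only [cyc]
        rw [if_neg (fun h => hca h.symm)]
        exact ⟨hia, hic⟩
  obtain ⟨z, hz1, hz2⟩ := W.ex Y o' _ _ hsub
  have hzo : W.Far c z o' := hz2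
  have hsz : W.Col c s z := W.col_trans ho (W.col_symm (W.far_col hzo))
  refine ⟨z, (W.BBc_iff hm hca hcb hab (W.far_col hst) hsz hY1 hY2).mpr ?_, hzo⟩
  intro x hx
  rw [W.symm] at hx
  exact Or.inr (hz1 hx)

theorem BBc_swap {c : Fin (m + 1)} {s t z w : D} (hst : W.Far c s t) (hz : W.BBc c s t z)
    (hw : W.BBc c s t w) (hzw : W.Far c z w) : W.BBc c z w s ∧ W.BBc c z w t := by
  obtain ⟨a, b, hca, hcb, hab⟩ := k3_classes hm c
  obtain ⟨Y, hY1, hY2⟩ := W.exists_meet (by omega) hab s t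
  have hfa : W.Far a s Y := W.k3_far_meet hca hcb hab hst hY1 hY2
  have hfb : W.Far b t Y := W.k3_far_meet hcb hca hab.symm (W.far_symm hst) hY2 hY1
  have hz2 : W.Two a b z Y := W.k3_two_of
    ((W.BBc_iff hm hca hcb hab (W.far_col hst) hz.1 hY1 hY2).mp hz)
    (W.ne_symm (W.k3_off hca (W.far_symm hfa) hz.1).1)
  have hw2 : W.Two a b w Y := W.k3_two_of
    ((W.BBc_iff hm hca hcb hab (W.far_col hst) hw.1 hY1 hY2).mp hw)
    (W.ne_symm (W.k3_off hca (W.far_symm hfa) hw.1).1)
  have hzs : W.Col c z s := W.col_symm hz.1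
  have hws : W.Col c w s := W.col_symm hw.1
  refine ⟨⟨hzs, fun y h1 h2 => ?_⟩, ⟨W.col_trans hzs (W.far_col hst), fun y h1 h2 => ?_⟩⟩
  · exact (W.swap_far hm hca hcb hab hst hfa hfb hz2 hw2 hzs hws hzw h1 h2).1
  · exact (W.swap_far hm hca hcb hab hst hfa hfb hz2 hw2 hzs hws hzw h1 h2).2

/-- `x` is in the closure of `z,w` (by `BBc_swap` and the definition) and far from `w`; by `swa`
with `s = x`, `Y = z_a ∩ w_b`, `U = w`, `V = z`: `NT c z x`, hence `x = z`. -/
theorem BBc_uniq {c : Fin (m + 1)} {s t z w x : D} (hst : W.Far c s t) (hz : W.BBc c s t z)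
    (hw : W.BBc c s t w) (hzw : W.Far c z w) (hx : W.BBc c s t x) (hxw : W.Far c x w) :
    x = z := by
  obtain ⟨a, b, hca, hcb, hab⟩ := k3_classes hm c
  obtain ⟨Y, hY1, hY2⟩ := W.exists_meet (by omega) hab z w
  have hfa : W.Far a z Y := W.k3_far_meet hca hcb hab hzw hY1 hY2
  obtain ⟨hs, ht⟩ := W.BBc_swap hm hst hz hw hzw
  have hzx : W.Col c z x := W.col_trans (W.col_symm hz.1) hx.1
  have hB : W.BBc c z w x := ⟨hzx, fun y h1 h2 => hx.2 y (hs.2 y h1 h2) (ht.2 y h1 h2)⟩
  have hx2 : W.Two a b x Y := W.k3_two_of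
    ((W.BBc_iff hm hca hcb hab (W.far_col hzw) hzx hY1 hY2).mp hB)
    (W.ne_symm (W.k3_off hca (W.far_symm hfa) hzx).1)
  have hx3 : W.Two b a x Y := by
    intro y hy
    rcases hx2 hy with h | h
    · exact Or.inr h
    · exact Or.inl h
  have hnt : W.NT c z x := W.swa hm hab.symm (fun h => hcb h.symm) (fun h => hca h.symm) hx3
    (W.col_symm hY2) (W.col_symm hY1) (W.col_symm (W.far_col hzw))
    (W.far_iff.mp (W.far_symm hxw)).2
  exact (W.eq_of_col_nt hzx hnt).symm

omit hm in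
theorem k3_line {c : Fin (m + 1)} {o : D} {s t x : W.LineK c o}
    (hx : BB (fun p q : W.LineK c o => W.Far c p.1 q.1) s t x) : W.BBc c s.1 t.1 x.1 := by
  refine ⟨W.col_trans (W.col_symm s.2) x.2, fun y h1 h2 => ?_⟩
  exact hx ⟨y, W.col_trans s.2 (W.col_symm (W.far_col h1))⟩ h1 h2

omit hm in
theorem k3_line' {c : Fin (m + 1)} {o : D} {s t x : W.LineK c o}
    (hx : W.BBc c s.1 t.1 x.1) : BB (fun p q : W.LineK c o => W.Far c p.1 q.1) s t x :=
  fun y h1 h2 => hx.2 y.1 h1 h2

omit hm in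
/-- The line level structure. -/
def kspace (hm : 6 ≤ m) {c a : Fin (m + 1)} (hca : c ≠ a) (o : D) :
    KSpace (W.LineK c o) D where
  far x y := W.Far c x.1 y.1
  T v p q := W.TV c a v p.1 q.1
  E v p q := W.EV c a v p.1 q.1
  null v := W.Null c a o v
  far_irrefl := fun _ => W.far_irrefl
  far_symm := fun h => W.far_symm h
  T_refl := fun v x => W.TV_refl hm hca v x.1
  T_symm := fun {_ x y} h => W.TV_symm hm hca (W.col_trans (W.col_symm x.2) y.2) h
  T_trans := fun {_ x y z} h h' => W.TV_trans hm hca (W.col_trans (W.col_symm x.2) y.2)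
    (W.col_trans (W.col_symm y.2) z.2) h h'
  E_symm := fun {_ x y} h => W.EV_symm hm hca (W.col_trans (W.col_symm x.2) y.2) h
  E_compat := fun {_ x x' y} h h' => W.EV_compat hm hca (W.col_trans (W.col_symm x.2) y.2)
    (W.col_trans (W.col_symm x.2) x'.2) h h'
  far_E := fun h => W.EV_of_far hm hca h
  TE_null := fun {_ x y} h h' => W.Null_of_TV_EV hm hca x.2 y.2 h h'
  SW := fun hst hx h => W.EV_SW hm hca hst (W.k3_line hx) h
  INT := by
    intro V z w h
    obtain ⟨v', h1, h2, h3, h4⟩ := W.exists_int hm hca z.2 w.2 h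
    exact ⟨v', h1, ⟨fun x y => h3 x.1 y.1 x.2 y.2, fun x y => h4 x.1 y.1 x.2 y.2⟩, h2⟩
  top := fun {x y} h => W.exists_top hm hca x.2 y.2 h
  L2 := by
    intro s t hst o'
    obtain ⟨z, h1, h2⟩ := W.exists_L2 hm hst (W.col_trans (W.col_symm s.2) o'.2)
    exact ⟨⟨z, W.col_trans s.2 h1.1⟩, W.k3_line' h1, h2⟩
  swap := by
    intro s t z w hst hz hw hzw
    obtain ⟨h1, h2⟩ := W.BBc_swap hm hst (W.k3_line hz) (W.k3_line hw) hzw
    exact ⟨W.k3_line' h1, W.k3_line' h2⟩
  uniq := by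
    intro s t z w x hst hz hw hzw hx hxw
    exact Subtype.ext (W.BBc_uniq hm hst (W.k3_line hz) (W.k3_line hw) hzw (W.k3_line hx) hxw)

/-- The pencil of a point `Y` never on `K` (`Far a Y y0`, `y0 = Y_a ∩ K`) is a perfect clique:
indexed by the classes different from `c`.  `e : Fin m ≃ {i // i ≠ c}` is an enumeration. -/
theorem pencil_pclique {c a : Fin (m + 1)} (hca : c ≠ a) (o Y : D)
    (hY : ∃ b, c ≠ b ∧ ∃ y0, W.Col c o y0 ∧ W.Far b Y y0) (e : Fin m ≃ {i : Fin (m + 1) // i ≠ c})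
    (x : Fin m → W.LineK c o) (hx : ∀ j, W.Col (e j).1 Y (x j).1) :
    (W.kspace hm hca o).PClique x := by
  obtain ⟨b, hcb, y0, hy0, hb⟩ := hY
  have hoff : ∀ p : W.LineK c o, W.NE Y p.1 ∧ W.NT c Y p.1 := fun p =>
    W.k3_off hcb hb (W.col_trans (W.col_symm hy0) p.2)
  have hfar : ∀ j, W.Far (e j).1 Y (x j).1 := fun j => W.far_iff.mpr ⟨hx j, (hoff (x j)).1⟩
  constructor
  · intro i j hij
    refine W.far_iff.mpr ⟨W.col_trans (W.col_symm (x i).2) (x j).2, ?_⟩
    apply W.k3_ne_comp (v := Y)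
    intro y h1 h2
    have h3 := W.far_symm (hfar i) h1
    have h4 := hfar j h2
    rw [Set.mem_singleton_iff] at h3 h4
    rw [h3] at h4
    have h5 : (e i).1 = (e j).1 := Option.some.inj h4
    exact hij (e.injective (Subtype.ext h5))
  · intro A p q hp hq
    refine W.far_iff.mpr ⟨W.col_trans (W.col_symm p.2) q.2, ?_⟩
    -- the labels from a point far from `x j` avoid `e j`
    have key : ∀ (r : W.LineK c o) (j : Fin m), W.Far c r.1 (x j).1 →
        some (e j).1 ∉ W.lab r.1 Y := by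
      intro r j hr
      apply W.k3_nt_comp (v := (x j).1)
      intro y1 h1 y2 h2 hc
      have h3 := hr h1
      have h4 := W.far_symm (hfar j) h2
      rw [Set.mem_singleton_iff] at h3 h4
      subst h3
      subst h4
      simp only [cyc] at hc
      rw [if_neg (fun h => (e j).2 h.symm)] at hc
      exact hc.2 rfl
    apply W.k3_ne_comp (v := Y)
    intro y h1 h2
    rcases y with _ | i
    · exact (hoff q).1 h2
    · by_cases hic : i = c
      · exact (hoff q).2 (hic ▸ h2)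
      · have hei : (e (e.symm ⟨i, hic⟩)).1 = i := by simp
        by_cases hA : e.symm ⟨i, hic⟩ ∈ A
        · refine key q _ (hq _ hA) ?_
          rw [hei, W.symm]
          exact h2
        · refine key p _ (hp _ hA) ?_
          rw [hei]
          exact h1

end WRep
end Pool.MP24331d
end

section

/-! The local lemmas: changing `v` into an element of the closure of `{z,w}`, and the
refutation of two agreeing classes. -/

namespace Pool.MP24331d
namespace WRep

variable {m : ℕ} {D : Type*} (W : WRep m D)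

private theorem exists_cls (hm : 6 ≤ m) (S : Finset (Fin (m + 1))) (hS : S.card ≤ 6) :
    ∃ x, x ∉ S := by
  by_contra hcon
  push Not at hcon
  have h1 : (Finset.univ : Finset (Fin (m + 1))) ⊆ S := fun x _ => hcon x
  have h2 := Finset.card_le_card h1
  rw [Finset.card_univ, Fintype.card_fin] at h2
  omega

private theorem exists_cls4 (hm : 6 ≤ m) (p q r s : Fin (m + 1)) :
    ∃ x, p ≠ x ∧ q ≠ x ∧ r ≠ x ∧ s ≠ x := by
  classical
  obtain ⟨x, hx⟩ := exists_cls hm {p, q, r, s} ((Finset.card_le_four).trans (by norm_num))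
  simp only [Finset.mem_insert, Finset.mem_singleton, not_or] at hx
  exact ⟨x, fun h => hx.1 h.symm, fun h => hx.2.1 h.symm, fun h => hx.2.2.1 h.symm,
    fun h => hx.2.2.2 h.symm⟩

private theorem BBc_symm {c : Fin (m + 1)} {h k x : D} (hk : W.Col c h k) (hx : W.BBc c h k x) :
    W.BBc c k h x :=
  ⟨W.col_trans (W.col_symm hk) hx.1, fun y h1 h2 => hx.2 y h2 h1⟩

/-- two never equal points of different lines meeting in `n` -/
private theorem ne_of_far {a c : Fin (m + 1)} (hca : c ≠ a) {s t n : D} (h : W.Far c s t)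
    (h1 : W.Col a t n) : W.NE s n := by
  intro hn
  obtain ⟨x, hx, y, hy, hc⟩ := W.pc s t n hn
  have hx' := h hx
  have hy' := h1 hy
  simp only [Set.mem_singleton_iff] at hx'
  simp only [Set.mem_insert_iff, Set.mem_singleton_iff] at hy'
  subst hx'
  rcases hy' with rfl | rfl
  · simp [cyc] at hc
  · simp only [cyc] at hc
    exact hca hc

/-- the apex is never on `K` -/
private theorem ne_apex {a b c : Fin (m + 1)} (hca : c ≠ a) (hcb : c ≠ b) {s t n x : D}
    (h : W.Far c s t) (h1 : W.Col a s n) (h2 : W.Col b t n) (hx : W.Col c s x) : W.NE x n := by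
  have hsn : W.Far a s n := W.far_iff.mpr ⟨h1, W.ne_of_far hcb h h2⟩
  exact W.ne_symm (W.ne_of_far hca.symm (W.far_symm hsn) hx)

private theorem Two_of {a b : Fin (m + 1)} {x n : D} (h : W.TwoE a b x n) (h' : W.NE x n) :
    W.Two a b x n := by
  intro y hy
  rcases h hy with h1 | h1
  · subst h1
    exact absurd hy h'
  · exact h1

private theorem Two_symm {a b : Fin (m + 1)} {x n : D} (h : W.Two a b x n) :
    W.Two a b n x := by
  intro y hy
  rw [W.symm] at hy
  exact h hy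

private theorem Two_swap {a b : Fin (m + 1)} {x n : D} (h : W.Two a b x n) :
    W.Two b a x n := by
  intro y hy
  rcases h hy with h1 | h1
  · exact Or.inr h1
  · exact Or.inl h1

private theorem TwoE_of {a b : Fin (m + 1)} {x n : D} (h : W.Two a b x n) :
    W.TwoE a b x n := fun _ hy => Or.inr (h hy)

variable (hm : 6 ≤ m)
include hm

/-! ### Part L1 -/

/-- `g, v` complementary in the closure of `{g,v}` around `z`: if `[h = z]`, `[g = z]` are disjoint
then `[h = z] ⊆ [v = z]`.  Here `z` is in the closure of the far pair `g,v`.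
Proof: `Y = g_a ∩ v_b`, `BBc_iff` gives `Two a b z Y` (with `NE` from farness); `E3_iff` with
classes `(d,a)` : `NE z (h_d ∩ g_a)`, `swa` with `s = z`, `U = h_d ∩ Y_a`, `V = h_d ∩ Y_b`:
`NT d V z`, i.e. `T3 c z h v` by `T3_iff` with classes `(d,b)`. -/
theorem T3_of_compl {c : Fin (m + 1)} {z g v h : D} (hgv : W.Far c g v) (hz : W.BBc c g v z)
    (hh : W.Col c z h) (hE : W.E3 c z h g) : W.T3 c z h v := by
  obtain ⟨a, hca, -, -, -⟩ := exists_cls4 hm c c c c
  obtain ⟨b, hcb, hab, -, -⟩ := exists_cls4 hm c a a a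
  obtain ⟨d, hcd, had, hbd, -⟩ := exists_cls4 hm c a b b
  have hm3 : 3 ≤ m := by omega
  have hgv' := W.far_col hgv
  obtain ⟨Y, hgY, hvY⟩ := W.exists_meet hm3 hab g v
  have hTwo : W.Two a b z Y :=
    W.Two_of ((W.BBc_iff hm hca hcb hab hgv' hz.1 hgY hvY).mp hz)
      (W.ne_apex hca hcb hgv hgY hvY hz.1)
  obtain ⟨U, hhU, hgU⟩ := W.exists_meet hm3 had.symm h g
  obtain ⟨V, hhV, hvV⟩ := W.exists_meet hm3 hbd.symm h v
  have hzg : W.Col c z g := W.col_symm hz.1
  have hzv : W.Col c z v := W.col_trans hzg hgv'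
  have h1 : W.NE z U := (W.E3_iff hm hcd hca had.symm hh hzg hhU hgU).mp hE
  have h2 : W.NT d V z := W.swa hm hab had hbd hTwo (W.col_trans (W.col_symm hgY) hgU)
    (W.col_trans (W.col_symm hvY) hvV) (W.col_trans (W.col_symm hhU) hhV) (W.ne_symm h1)
  exact (W.T3_iff hm hcd hcb hbd.symm hh hzv hhV hvV).mpr h2

/-- `[V ∋ z] ⊆ [h = z] ⊆ [v = z]`: from `TV c a v₀ h z` and `T3 c z h v` get `TV c a v₀ v z`.
Proof: `TV_cls`, `T3_iff`, `tr4` at the anchor `z`. -/
theorem TV_T3 {c a : Fin (m + 1)} (hca : c ≠ a) {v₀ z h v : D} (hh : W.Col c z h)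
    (hv : W.Col c z v) (h1 : W.TV c a v₀ h z) (h2 : W.T3 c z h v) : W.TV c a v₀ v z := by
  obtain ⟨b, hcb, hab, -, -⟩ := exists_cls4 hm c a a a
  have hm3 : 3 ≤ m := by omega
  obtain ⟨P, hP, hhP⟩ := W.exists_meet hm3 hca v₀ h
  obtain ⟨Q, hhQ, hvQ⟩ := W.exists_meet hm3 hab h v
  obtain ⟨R, hR, hvR⟩ := W.exists_meet hm3 hcb v₀ v
  have e1 : W.NT c z P :=
    (W.TV_cls hm hca hca hh hP hhP).mp (W.TV_symm hm hca (W.col_symm hh) h1)
  have e2 : W.NT a Q z := (W.T3_iff hm hca hcb hab hh hv hhQ hvQ).mp h2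
  have e3 : W.NT c R z := W.tr4 hm hca hcb hab (W.col_trans (W.col_symm hhP) hhQ)
    (W.col_trans (W.col_symm hvQ) hvR) (W.col_trans (W.col_symm hP) hR) (W.nt_symm e1) e2
  exact W.TV_symm hm hca hv ((W.TV_cls hm hca hcb hv hR hvR).mpr (W.nt_symm e3))

/-! ### the local existence lemma -/

/-- Let `z,w` be far on `K`, `v ∈ K` equal to `z` on the nonempty region `v₀`.  After shrinking
the region there is `h` in the closure of `{z,w}`, equal to `z` on the region, with
`[h = z] ⊆ [v = z]`.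

Proof. `stepA` (with `r = z`, `p = v`, classes `a,b`): `η` far from `z`, `Y = z_a ∩ η_b`,
`Two a b v Y`.  `ex` on `(Y,v)` with `{a,b}`, `{c}`: `g` with `Two a b g Y`, `Far c g v`.
`sg = g_b ∩ z_a`.  For each class `j ≠ c` let `ζ_j = Y_j ∩ K`; this is a perfect clique
(`pencil_pclique`), `ζ_a = z`.  For `j ≠ c,a` let `g_j = sg_j ∩ K` (so `g_b = g`).
(1) `Two a j g_j Y` (`pencil_move` for `j ≠ b`), hence `g_j` is in the closure of `{z,ζ_j}`.
(2) `EV v₀ g z` since `TV v₀ v z` and `Far g v`; hence `EV v₀ g_j z` by `k3` at the anchor `z` with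
lines `X = sg_j`, `Y = g_b`, `Z = v₀_c` (`NT j sg z` since `sg` is on `z_a`); for `j = b` trivial.
So `TV v₀ g_j ζ_j` by `EV_SW`.
(3) `exists_color` for this clique and `x = w`: region `v₁` refining `v₀`, nonempty, and a class
`j` with `TV v₁ w ζ_j`; `j ≠ a` because `w` is far from `z = ζ_a`.
(4) `exists_L2`: `h` in the closure of `{z,w}` far from `g_j`.  `EV v₁ h g_j`, `TV v₁ g_j ζ_j`,
`TV v₁ w ζ_j` give `EV v₁ h w`, so `TV v₁ h z` (`EV_SW`).
(5) `E3 c z h g_j` because `h`, `g_j` are far (`exists_L2` gives `x` in their closure far from `z`);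
`E3 c z h g`: `k3` with `X = g_b`, `Y = sg_j`, `Z = h_d` (`d ≠ a,b,c,j`), `NT b sg z`.
(6) `z` is in the closure of `{g,v}` (`BBc_swap` in the closure of `{z,η}`), so `T3 c z h v` by
`T3_of_compl`. -/
theorem local_exists {c a : Fin (m + 1)} (hca : c ≠ a) {o v₀ z w v : D} (hz : W.Col c o z)
    (hw : W.Col c o w) (hv : W.Col c o v) (hzw : W.Far c z w) (hn : ¬ W.Null c a o v₀)
    (hT : W.TV c a v₀ v z) :
    ∃ v₁ h, ¬ W.Null c a o v₁ ∧ W.Col c o h ∧ W.BBc c z w h ∧ W.TV c a v₁ h z ∧ W.T3 c z h v ∧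
      (∀ p q, W.Col c o p → W.Col c o q → W.TV c a v₀ p q → W.TV c a v₁ p q) ∧
      (∀ p q, W.Col c o p → W.Col c o q → W.EV c a v₀ p q → W.EV c a v₁ p q) := by
  obtain ⟨b, hcb, hab, -, -⟩ := exists_cls4 hm c a a a
  have hm3 : 3 ≤ m := by omega
  have hzv : W.Col c z v := W.col_trans (W.col_symm hz) hv
  obtain ⟨η, Y, hzη, hzY, hηY, hvY⟩ := W.stepA hm hca hcb hab hzv
  -- `g`
  obtain ⟨g, hYg, hgv⟩ : ∃ g, W.lab Y g ⊆ {some a, some b} ∧ W.lab g v ⊆ {some c} := by
    apply W.ex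
    intro x hx
    rcases (W.Two_symm hvY) hx with h | h
    · rw [h]
      exact ⟨some b, Or.inr rfl, some c, rfl, by simp [cyc, hcb.symm, hab, hca.symm]⟩
    · rw [Set.mem_singleton_iff] at h
      rw [h]
      exact ⟨some a, Or.inl rfl, some c, rfl, by simp [cyc, hca.symm, hab.symm, hcb.symm]⟩
  have hgY : W.Two a b g Y := W.Two_symm hYg
  have hgv' : W.Far c g v := hgv
  have hgvc : W.Col c g v := W.far_col hgv'
  have hzg : W.Col c z g := W.col_trans hzv (W.col_symm hgvc)
  obtain ⟨sg, hzsg, hgsg⟩ := W.exists_meet hm3 hab z g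
  -- (2) for `g`
  have hEg : W.EV c a v₀ z g := by
    have e1 : W.EV c a v₀ v g := W.EV_of_far hm hca (W.far_symm hgv')
    exact W.EV_compat hm hca (W.col_symm hgvc) (W.col_symm hzv) hT e1
  -- the transported points
  have key : ∀ j, c ≠ j → a ≠ j → ∀ ζ, W.Col c z ζ → W.Col j Y ζ →
      ∃ gj, W.Col c z gj ∧ W.TV c a v₀ gj ζ ∧ (∀ h, W.Col c z h → W.E3 c z h gj → W.E3 c z h g) := by
    intro j hcj haj ζ hζ hYζ
    obtain ⟨gj, hgj1, hgj2⟩ : ∃ gj, W.Col j sg gj ∧ W.Col c z gj :=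
      W.exists_meet hm3 hcj.symm sg z
    have hfar : W.Far c z ζ := by
      refine W.far_iff.mpr ⟨hζ, ?_⟩
      exact W.ne_of_far haj hzY hYζ
    have h12 : W.Two a j gj Y ∧ W.EV c a v₀ z gj ∧
        (∀ h, W.Col c z h → W.E3 c z h gj → W.E3 c z h g) := by
      by_cases hbj : b = j
      · subst hbj
        have hgg : gj = g := W.eq_of_col hcb (W.col_trans (W.col_symm hgj2) hzg)
          (W.col_trans (W.col_symm hgj1) (W.col_symm hgsg))
        rw [hgg]
        exact ⟨hgY, hEg, fun h _ hh => hh⟩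
      · refine ⟨W.pencil_move hm hca hcb hab hcj haj hbj hzY hzg hgY hzsg hgsg
          (W.col_symm hgj1) (W.col_symm hgj2), ?_, ?_⟩
        · -- `k3` at the anchor `z`
          obtain ⟨Q, hQ1, hQ2⟩ := W.exists_meet hm3 hcb v₀ g
          obtain ⟨R, hR1, hR2⟩ := W.exists_meet hm3 hcj v₀ gj
          have e1 : W.NE z Q := (W.EV_cls hm hca hcb hzg hQ1 hQ2).mp hEg
          have e2 : W.NT j sg z := W.nt_symm (W.nt_of_col haj.symm hzsg)
          have e3 : W.NE R z := W.k3 hm (Ne.symm hbj) hcj.symm hcb.symm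
            (W.col_trans (W.col_symm hgsg) hQ2) (W.col_trans (W.col_symm hQ1) hR1)
            (W.col_trans hgj1 hR2) e2 (W.ne_symm e1)
          exact (W.EV_cls hm hca hcj hgj2 hR1 hR2).mpr (W.ne_symm e3)
        · intro h hzh hE
          obtain ⟨d, had, hbd, hcd, hjd⟩ := exists_cls4 hm a b c j
          obtain ⟨Q, hQ1, hQ2⟩ := W.exists_meet hm3 hjd.symm h gj
          obtain ⟨R, hR1, hR2⟩ := W.exists_meet hm3 hbd.symm h g
          have e1 : W.NE z Q := (W.E3_iff hm hcd hcj hjd.symm hzh hgj2 hQ1 hQ2).mp hE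
          have e2 : W.NT b sg z := W.nt_symm (W.nt_of_col hab.symm hzsg)
          have e3 : W.NE R z := W.k3 hm hbj hbd hjd
            (W.col_trans hgj1 hQ2) (W.col_trans (W.col_symm hQ1) hR1)
            (W.col_trans (W.col_symm hgsg) hR2) e2 (W.ne_symm e1)
          exact (W.E3_iff hm hcd hcb hbd.symm hzh hzg hR1 hR2).mpr (W.ne_symm e3)
    refine ⟨gj, hgj2, ?_, h12.2.2⟩
    have hB : W.BBc c z ζ gj :=
      (W.BBc_iff hm hca hcj haj hζ hgj2 (W.far_col hzY) (W.col_symm hYζ)).mpr (W.TwoE_of h12.1)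
    exact W.EV_SW hm hca hfar hB (W.EV_symm hm hca hgj2 h12.2.1)
  -- (3)
  let e : Fin m ≃ {i : Fin (m + 1) // i ≠ c} := finSuccAboveEquiv c
  have hζ : ∀ j : Fin m, ∃ x : D, W.Col (e j).1 Y x ∧ W.Col c o x := fun j =>
    W.exists_meet hm3 (e j).2 Y o
  choose ζ hζ1 hζ2 using hζ
  have hP : (W.kspace hm hca o).PClique (fun j => (⟨ζ j, hζ2 j⟩ : W.LineK c o)) :=
    W.pencil_pclique hm hca o Y ⟨a, hca, z, hz, W.far_symm hzY⟩ e _ hζ1
  obtain ⟨v₁, j, hn₁, hsub, hTw⟩ := (W.kspace hm hca o).exists_color (by omega)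
    (fun j => (⟨ζ j, hζ2 j⟩ : W.LineK c o)) hP v₀ hn (⟨w, hw⟩ : W.LineK c o)
  have hn₁' : ¬ W.Null c a o v₁ := hn₁
  have hTw' : W.TV c a v₁ w (ζ j) := hTw
  have hmT : ∀ p q, W.Col c o p → W.Col c o q → W.TV c a v₀ p q → W.TV c a v₁ p q :=
    fun p q hp hq hpq => hsub.1 (⟨p, hp⟩ : W.LineK c o) (⟨q, hq⟩ : W.LineK c o) hpq
  have hmE : ∀ p q, W.Col c o p → W.Col c o q → W.EV c a v₀ p q → W.EV c a v₁ p q :=
    fun p q hp hq hpq => hsub.2 (⟨p, hp⟩ : W.LineK c o) (⟨q, hq⟩ : W.LineK c o) hpq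
  have hzζ : W.Col c z (ζ j) := W.col_trans (W.col_symm hz) (hζ2 j)
  have hwζ : W.Col c w (ζ j) := W.col_trans (W.col_symm hw) (hζ2 j)
  have haj : a ≠ (e j).1 := by
    intro haj
    have h1 : W.Col a Y (ζ j) := by rw [haj]; exact hζ1 j
    have h2 : ζ j = z := W.eq_of_col hca (W.col_symm hzζ)
      (W.col_trans (W.col_symm h1) (W.col_symm (W.far_col hzY)))
    rw [h2] at hTw'
    exact hn₁' (W.Null_of_TV_EV hm hca hw hz hTw' (W.EV_of_far hm hca (W.far_symm hzw)))
  obtain ⟨gj, hgj, hTg, hEg'⟩ := key (e j).1 (e j).2.symm haj (ζ j) hzζ (hζ1 j)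
  -- (4)
  obtain ⟨h, hBh, hhg⟩ := W.exists_L2 hm hzw hgj
  have hzh : W.Col c z h := hBh.1
  have hoh : W.Col c o h := W.col_trans hz hzh
  have hogj : W.Col c o gj := W.col_trans hz hgj
  have hTg₁ : W.TV c a v₁ gj (ζ j) := hmT _ _ hogj (hζ2 j) hTg
  have hgjw : W.TV c a v₁ gj w := W.TV_trans hm hca (W.col_trans (W.col_symm hogj) (hζ2 j))
    (W.col_symm hwζ) hTg₁ (W.TV_symm hm hca hwζ hTw')
  have hEhw : W.EV c a v₁ h w := by
    have e1 : W.EV c a v₁ gj h := W.EV_of_far hm hca (W.far_symm hhg)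
    have e2 : W.EV c a v₁ w h := W.EV_compat hm hca (W.col_trans (W.col_symm hogj) hoh)
      (W.col_trans (W.col_symm hogj) hw) hgjw e1
    exact W.EV_symm hm hca (W.col_trans (W.col_symm hw) hoh) e2
  have hThz : W.TV c a v₁ h z :=
    W.EV_SW hm hca (W.far_symm hzw) (W.BBc_symm (W.far_col hzw) hBh) hEhw
  -- (5)
  have hE3 : W.E3 c z h gj := by
    obtain ⟨x, hx1, hx2⟩ := W.exists_L2 hm hhg (W.col_symm hzh)
    exact ⟨x, hx1, hx2⟩
  have hE3g : W.E3 c z h g := hEg' h hzh hE3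
  -- (6)
  have hB1 : W.BBc c z η g := (W.BBc_iff hm hca hcb hab (W.far_col hzη) hzg (W.far_col hzY)
    (W.far_col hηY)).mpr (W.TwoE_of hgY)
  have hB2 : W.BBc c z η v := (W.BBc_iff hm hca hcb hab (W.far_col hzη) hzv (W.far_col hzY)
    (W.far_col hηY)).mpr (W.TwoE_of hvY)
  have hB3 : W.BBc c g v z := (W.BBc_swap hm hzη hB1 hB2 hgv').1
  exact ⟨v₁, h, hn₁', hoh, hBh, hThz, W.T3_of_compl hm hgv' hB3 hzh hE3g, hmT, hmE⟩

/-! ### the four line lemma -/

/-- `p = z_i ∩ w_j` never on `K`; `h, h'` in the closure of the far pair `z,w`; `q` a point never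
equal to `p`, `z' = q_i ∩ K`, `w' = q_j ∩ K`, `[h = z] ⊆ [z' = z]`, `[h' = w] ⊆ [w' = w]`.
Then `[h = z] ⊆ [h' = z]`.

Proof. On the `j`-line of `p` (transversal to the `i`-lines) let `k = h_i ∩ p_j`, `l = q_i ∩ p_j`;
`T3_move` (class `i`, `z ↦ p`): `T3 j p k l`.  Symmetrically on the `i`-line of `p`:
`k' = h'_j ∩ p_i`, `l' = q_j ∩ p_i`, `T3 i p k' l'`.  Let `a ≠ b` be two classes `≠ c,i,j`,
`X = k_a`, `Z = k'_b`.  `T3_iff`: `NT a (k_a ∩ q_i) p` and `NT b (k'_b ∩ q_j) p`.
`k3`: `X ⊆ q_i`, `q_i ⊥ q_j` (they meet in `q`, `NE q p`): `NE (X ∩ q_j) p`.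
`k3`: `Z ⊆ q_j`, `q_j ⊥ X`: `NE (X ∩ Z) p`.
`k3`: `h'_j ⊆ Z` (`NT j k' p` as `k'` is on `p_i`), `Z ⊥ X`: `NE (X ∩ h'_j) p`.
`swa` with `s = p`, `Y = h'` (`Two i j p h'` by `BBc_iff`), `U = X ∩ h'_j`, `V = X ∩ h'_i`:
`NT a (X ∩ h'_i) p`, i.e. `T3 j p k (h'_i ∩ p_j)` by `T3_iff` with classes `(a,i)`.
`T3_move` back to `K`: `T3 c z h h'`. -/
theorem four_lines {c i j : Fin (m + 1)} (hci : c ≠ i) (hcj : c ≠ j) (hij : i ≠ j)
    {z w p q h h' z' w' : D} (hzw : W.Far c z w) (hzp : W.Col i z p) (hwp : W.Col j w p)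
    (hh : W.BBc c z w h) (hh' : W.BBc c z w h') (hpq : W.NE p q)
    (hz' : W.Col c z z') (hw' : W.Col c z w') (hzq : W.Col i z' q) (hwq : W.Col j w' q)
    (h1 : W.T3 c z h z') (h2 : W.T3 c w h' w') : W.T3 c z h h' := by
  have hm3 : 3 ≤ m := by omega
  obtain ⟨a, hca, hia, hja, -⟩ := exists_cls4 hm c i j j
  obtain ⟨b, hcb, hib, hjb, hab⟩ := exists_cls4 hm c i j a
  have hzw' := W.far_col hzw
  have hzh : W.Col c z h := hh.1
  have hzh' : W.Col c z h' := hh'.1
  have hwh' : W.Col c w h' := W.col_trans (W.col_symm hzw') hzh'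
  have hww' : W.Col c w w' := W.col_trans (W.col_symm hzw') hw'
  obtain ⟨k, hk1, hk2⟩ := W.exists_meet hm3 hij h p
  obtain ⟨l, hl1, hl2⟩ := W.exists_meet hm3 hij q p
  obtain ⟨k', hk'1, hk'2⟩ := W.exists_meet hm3 hij.symm h' p
  obtain ⟨l', hl'1, hl'2⟩ := W.exists_meet hm3 hij.symm q p
  have t1 : W.T3 j p k l := W.T3_move hm hci hij.symm hzh hz' hk2 hl2 hzp hk1
    (W.col_trans hzq hl1) h1
  have t2 : W.T3 i p k' l' := W.T3_move hm hcj hij hwh' hww' hk'2 hl'2 hwp hk'1
    (W.col_trans hwq hl'1) h2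
  -- `n1 = X ∩ q_i`, `n2 = Z ∩ q_j`
  obtain ⟨n1, hn1, hn1'⟩ := W.exists_meet hm3 hia.symm k q
  obtain ⟨n2, hn2, hn2'⟩ := W.exists_meet hm3 hjb.symm k' q
  have u1 : W.NT a n1 p := (W.T3_iff hm hja hij.symm hia.symm hk2 hl2 hn1
    (W.col_trans (W.col_symm hl1) hn1')).mp t1
  have u2 : W.NT b n2 p := (W.T3_iff hm hib hij hjb.symm hk'2 hl'2 hn2
    (W.col_trans (W.col_symm hl'1) hn2')).mp t2
  -- `R1 = X ∩ q_j`
  obtain ⟨R1, hR1, hR1'⟩ := W.exists_meet hm3 hja.symm k q
  have s1 : W.NE R1 p := W.k3 hm hia.symm hja.symm hij (W.col_symm hn1') hR1'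
    (W.col_trans (W.col_symm hn1) hR1) u1 (W.ne_symm hpq)
  -- `R2 = X ∩ Z`
  obtain ⟨R2, hR2, hR2'⟩ := W.exists_meet hm3 hab k k'
  have s2 : W.NE R2 p := W.k3 hm hjb.symm hab.symm hja (W.col_trans (W.col_symm hn2') hR1')
    (W.col_trans (W.col_symm hR1) hR2) (W.col_trans (W.col_symm hn2) hR2') u2 s1
  -- `R3 = X ∩ h'_j`
  obtain ⟨R3, hR3, hR3'⟩ := W.exists_meet hm3 hja.symm k h'
  have u3 : W.NT j k' p := W.nt_symm (W.nt_of_col hij.symm hk'2)
  have s3 : W.NE R3 p := W.k3 hm hjb hja hab.symm hR2'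
    (W.col_trans (W.col_symm hR2) hR3) (W.col_trans (W.col_symm hk'1) hR3') u3 s2
  -- `V = X ∩ h'_i`
  obtain ⟨V, hV, hV'⟩ := W.exists_meet hm3 hia.symm k h'
  have hTwo : W.Two j i p h' := by
    have e1 : W.Two i j h' p := W.Two_of ((W.BBc_iff hm hci hcj hij hzw' hzh' hzp hwp).mp hh')
      (W.ne_apex hci hcj hzw hzp hwp hzh')
    exact W.Two_swap (W.Two_symm e1)
  have s4 : W.NT a V p := W.swa hm hij.symm hja hia hTwo hR3' hV'
    (W.col_trans (W.col_symm hR3) hV) s3
  obtain ⟨k2, hk21, hk22⟩ := W.exists_meet hm3 hij h' p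
  have t3 : W.T3 j p k k2 := (W.T3_iff hm hja hij.symm hia.symm hk2 hk22 hV
    (W.col_trans (W.col_symm hk21) hV')).mpr s4
  exact W.T3_move hm hij.symm hci hk2 hk22 hzh hzh' (W.col_symm hzp) (W.col_symm hk1)
    (W.col_symm hk21) t3

/-! ### conclusion of the local part -/

/-- Two classes `i ≠ j` cannot agree for `p`, `q` on a nonempty region.
Proof: `local_exists` for `(z,w,z')` gives `v₁`, `h`; `local_exists` for `(w,z,w')` on `v₁` gives
`v₂`, `h'` (`TV v₂ h' w`); `four_lines`: `T3 c z h h'`, so `TV v₂ h' z` by `TV_T3`; hence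
`TV v₂ z w`, but `z,w` are far. -/
theorem no_two_classes {c a i j : Fin (m + 1)} (hca : c ≠ a) (hci : c ≠ i) (hcj : c ≠ j)
    (hij : i ≠ j) {o z w p q z' w' v₀ : D} (hz : W.Col c o z) (hw : W.Col c o w)
    (hzp : W.Far i z p) (hwp : W.Far j w p) (hpq : W.NE p q)
    (hz' : W.Col c o z') (hw' : W.Col c o w') (hzq : W.Col i z' q) (hwq : W.Col j w' q)
    (hn : ¬ W.Null c a o v₀) (h1 : W.TV c a v₀ z' z) (h2 : W.TV c a v₀ w' w) : False := by
  have hzwc : W.Col c z w := W.col_trans (W.col_symm hz) hw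
  have hzw : W.Far c z w :=
    W.far_iff.mpr ⟨hzwc, W.ne_of_far hij hzp (W.col_symm (W.far_col hwp))⟩
  obtain ⟨v₁, h, hn₁, hoh, hB, hTh, hT3, hmT, hmE⟩ := W.local_exists hm hca hz hw hz' hzw hn h1
  obtain ⟨v₂, h', hn₂, hoh', hB', hTh', hT3', hmT', hmE'⟩ :=
    W.local_exists hm hca hw hz hw' (W.far_symm hzw) hn₁ (hmT _ _ hw' hw h2)
  have hB'' : W.BBc c z w h' := W.BBc_symm (W.col_symm hzwc) hB'
  have hzc : ∀ x, W.Col c o x → W.Col c z x := fun x hx => W.col_trans (W.col_symm hz) hx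
  have t : W.T3 c z h h' := W.four_lines hm hci hcj hij hzw (W.far_col hzp) (W.far_col hwp)
    hB hB'' hpq (hzc _ hz') (hzc _ hw') hzq hwq hT3 hT3'
  have e1 : W.TV c a v₂ h' z := W.TV_T3 hm hca (hzc _ hoh) (hzc _ hoh') (hmT' _ _ hoh hz hTh) t
  have e2 : W.TV c a v₂ z w := W.TV_trans hm hca (hzc _ hoh')
    (W.col_trans (W.col_symm hoh') hw) (W.TV_symm hm hca (W.col_symm (hzc _ hoh')) e1) hTh'
  exact hn₂ (W.Null_of_TV_EV hm hca hz hw e2 (W.EV_of_far hm hca hzw))

end WRep
end Pool.MP24331d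
end

section

/-! A weak representation with a pair of never equal points gives a net of order `m`. -/

namespace Pool.MP24331d

/-- Colouring finitely many points at once. -/
theorem KSpace.exists_color_finset {K R ι : Type*} (S : KSpace K R) {m : ℕ} (hm : 2 ≤ m)
    (c : Fin m → K) (hc : S.PClique c) (X : ι → K) (s : Finset ι) (V : R) (hV : ¬ S.null V) :
    ∃ V', ¬ S.null V' ∧ SubR S.T S.E V' V ∧ ∀ t ∈ s, ∃ j, S.T V' (X t) (c j) := by
  classical
  induction s using Finset.induction_on with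
  | empty => exact ⟨V, hV, SubR.refl' V, fun t ht => absurd ht (Finset.notMem_empty t)⟩
  | insert a s ha ih =>
    obtain ⟨V1, h1, h2, h3⟩ := ih
    obtain ⟨V2, j, h4, h5, h6⟩ := S.exists_color hm c hc V1 h1 (X a)
    refine ⟨V2, h4, SubR.trans' h2 h5, ?_⟩
    intro t ht
    rcases Finset.mem_insert.mp ht with rfl | ht
    · exact ⟨j, h6⟩
    · obtain ⟨j', hj'⟩ := h3 t ht
      exact ⟨j', h5.1 _ _ hj'⟩

namespace WRep

variable {m : ℕ} {D : Type*} (W : WRep m D)

/-- Every point has a far point in every class. -/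
theorem exists_far (a : Fin (m + 1)) (o : D) : ∃ w, W.Far a o w := by
  have h : W.lab o o ⊆ comp {some a} {some a} := by
    rw [W.refl]
    rintro z hz
    rw [Set.mem_singleton_iff] at hz
    subst hz
    exact ⟨some a, rfl, some a, rfl, rfl⟩
  obtain ⟨w, hw, -⟩ := W.ex o o _ _ h
  exact ⟨w, hw⟩

/-- Proof.  Choose `o` and a point `Y` never on `K = o_0` (e.g. from a never equal pair
`u,v`: `ex` gives points with label exactly `{some 1}`), and a pencil: `c_j = Y_{j+1} ∩ K`,
`j : Fin m`.  Similarly on the `1`-line `G` of `o`: a point `Z` never on `G`, and its pencil of `m`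
pairwise far points of `G`, one of which we want to be `o` (take `Z` on the ... line of `o`), giving
`m` pairwise far `0`-lines `G_a` (one of them `K`) and `m` pairwise far `1`-lines `H_b`
(through `c_b`).  Grid points `p_{ab} = G_a ∩ H_b`.  All points `p_i ∩ K` (`i ≠ 0`) are finitely
many points of `K`: applying `exists_color` successively get one nonempty region `V` on which each
is equal to some `c_j`; `f i p = j`, `f 0 p = p.1`, `f 1 p = p.2`.  `hrow`: `p ≠ q` in a row are far,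
so `p_i ∩ K`, `q_i ∩ K` are far.  `hcol` same.  `hone`: `no_two_classes` for the one of `p,q` that is
not on `K`. -/
theorem exists_isNet (hm : 6 ≤ m) (hD : ∃ u v, W.NE u v) :
    ∃ f : Fin (m + 1) → Fin m × Fin m → Fin m, IsNet (fun i p q => f i p = f i q) := by
  classical
  obtain ⟨o, -, -⟩ := hD
  have hm3 : 3 ≤ m := by omega
  have h01 : (0 : Fin (m + 1)) ≠ 1 := by
    intro h
    have := congrArg Fin.val h
    rw [Fin.val_zero, Fin.val_one'] at this
    rw [Nat.mod_eq_of_lt (by omega)] at this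
    omega
  obtain ⟨Z, hZ⟩ := W.exists_far 0 o
  obtain ⟨Y, hY⟩ := W.exists_far 1 o
  -- the pencil of `Y` on `K`
  let e : Fin m ≃ {i : Fin (m + 1) // i ≠ 0} := finSuccAboveEquiv (0 : Fin (m + 1))
  let e' : Fin m ≃ {i : Fin (m + 1) // i ≠ 1} := finSuccAboveEquiv (1 : Fin (m + 1))
  let cK : Fin m → W.LineK 0 o := fun j =>
    ⟨W.mt 0 (e j).1 o Y, W.mt_l hm3 (Ne.symm (e j).2) o Y⟩
  have hcK : ∀ j, W.Col (e j).1 Y (cK j).1 := fun j => W.mt_r hm3 (Ne.symm (e j).2) o Y
  have hclK : (W.kspace hm h01 o).PClique cK :=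
    W.pencil_pclique hm h01 o Y ⟨1, h01, o, W.col_refl 0 o, W.far_symm hY⟩ e cK hcK
  have hfarK : ∀ i j, i ≠ j → W.Far 0 (cK i).1 (cK j).1 := fun i j hij => hclK.1 i j hij
  -- the pencil of `Z` on `G`
  let gG : Fin m → W.LineK 1 o := fun j =>
    ⟨W.mt 1 (e' j).1 o Z, W.mt_l hm3 (Ne.symm (e' j).2) o Z⟩
  have hgG : ∀ j, W.Col (e' j).1 Z (gG j).1 := fun j => W.mt_r hm3 (Ne.symm (e' j).2) o Z
  have hclG : (W.kspace hm h01.symm o).PClique gG :=
    W.pencil_pclique hm h01.symm o Z ⟨0, h01.symm, o, W.col_refl 1 o, W.far_symm hZ⟩ e' gG hgG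
  have hfarG : ∀ i j, i ≠ j → W.Far 1 (gG i).1 (gG j).1 := fun i j hij => hclG.1 i j hij
  -- the index of `K`
  let a0 : Fin m := e'.symm ⟨0, h01⟩
  have hea0 : (e' a0).1 = 0 := by
    have : e' a0 = ⟨0, h01⟩ := e'.apply_symm_apply _
    rw [this]
  have hga0 : (gG a0).1 = o := by
    refine W.mt_unique (a := 1) (b := 0) h01.symm (u := o) (v := Z) (gG a0).2 ?_ (W.col_refl 1 o)
      (W.col_symm (W.far_col hZ))
    have := hgG a0
    rwa [hea0] at this
  -- the grid
  let P : Fin m × Fin m → D := fun p => W.mt 0 1 (gG p.1).1 (cK p.2).1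
  have hP0 : ∀ p, W.Col 0 (gG p.1).1 (P p) := fun p => W.mt_l hm3 h01 _ _
  have hP1 : ∀ p, W.Col 1 (cK p.2).1 (P p) := fun p => W.mt_r hm3 h01 _ _
  have hcKcol : ∀ i j, W.Col 0 (cK i).1 (cK j).1 := fun i j =>
    W.col_trans (W.col_symm (cK i).2) (cK j).2
  have hgGcol : ∀ i j, W.Col 1 (gG i).1 (gG j).1 := fun i j =>
    W.col_trans (W.col_symm (gG i).2) (gG j).2
  have hrowcol : ∀ p q : Fin m × Fin m, p.1 = q.1 → W.Col 0 (P p) (P q) := by
    intro p q h
    have h1 := hP0 p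
    rw [h] at h1
    exact W.col_trans (W.col_symm h1) (hP0 q)
  have hcolcol : ∀ p q : Fin m × Fin m, p.2 = q.2 → W.Col 1 (P p) (P q) := by
    intro p q h
    have h1 := hP1 p
    rw [h] at h1
    exact W.col_trans (W.col_symm h1) (hP1 q)
  have hrowfar : ∀ p q : Fin m × Fin m, p.1 = q.1 → p.2 ≠ q.2 → W.Far 0 (P p) (P q) := by
    intro p q h h'
    exact W.far_proj (c := 0) (c' := 0) (i := 1) h01 h01 (hfarK p.2 q.2 h') (hrowcol p q h)
      (hP1 p) (hP1 q)
  have hcolfar : ∀ p q : Fin m × Fin m, p.2 = q.2 → p.1 ≠ q.1 → W.Far 1 (P p) (P q) := by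
    intro p q h h'
    exact W.far_proj (c := 1) (c' := 1) (i := 0) h01.symm h01.symm (hfarG p.1 q.1 h')
      (hcolcol p q h) (hP0 p) (hP0 q)
  have hneg : ∀ p q : Fin m × Fin m, p.1 ≠ q.1 → p.2 ≠ q.2 → W.NE (P p) (P q) := by
    intro p q h h'
    have h1 : W.Far 0 (P p) (P (p.1, q.2)) := hrowfar p (p.1, q.2) rfl h'
    have h2 : W.Far 1 (P (p.1, q.2)) (P q) := hcolfar (p.1, q.2) q rfl h
    intro hnone
    obtain ⟨x, hx, y, hy, hxy⟩ := W.pc (P p) (P (p.1, q.2)) (P q) hnone
    have hx' := h1 hx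
    have hy' := h2 hy
    rw [Set.mem_singleton_iff] at hx' hy'
    subst hx' hy'
    exact h01 hxy
  -- a grid point outside the row of `K` is never on `K`
  have hoff : ∀ p : Fin m × Fin m, p.1 ≠ a0 → W.Far 1 (cK p.2).1 (P p) := by
    intro p hp
    have h1 := hfarG a0 p.1 (Ne.symm hp)
    rw [hga0] at h1
    exact W.far_proj (c := 1) (c' := 1) (i := 0) h01.symm h01.symm h1 (hP1 p) (cK p.2).2 (hP0 p)
  -- the projections to `K`
  let X : {i : Fin (m + 1) // i ≠ 0} × (Fin m × Fin m) → W.LineK 0 o := fun t =>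
    ⟨W.mt 0 t.1.1 o (P t.2), W.mt_l hm3 (Ne.symm t.1.2) o (P t.2)⟩
  have hX : ∀ t, W.Col t.1.1 (P t.2) (X t).1 := fun t => W.mt_r hm3 (Ne.symm t.1.2) o (P t.2)
  obtain ⟨V0, hV0, -⟩ := (W.kspace hm h01 o).top
    ((W.kspace hm h01 o).far_irrefl (⟨o, W.col_refl 0 o⟩ : W.LineK 0 o))
  obtain ⟨V, hV, -, hcol⟩ := (W.kspace hm h01 o).exists_color_finset (by omega) cK hclK X
    Finset.univ V0 hV0
  choose col hcolT using fun t => hcol t (Finset.mem_univ t)
  have hVn : ¬ W.Null 0 1 o V := hV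
  -- the colouring
  let f : Fin (m + 1) → Fin m × Fin m → Fin m := fun i p =>
    if h : i = 0 then p.1 else if i = 1 then p.2 else col (⟨i, h⟩, p)
  have hf0 : ∀ p, f 0 p = p.1 := fun p => dif_pos rfl
  have hf1 : ∀ p, f 1 p = p.2 := by
    intro p
    show (if h : (1 : Fin (m + 1)) = 0 then p.1 else if (1 : Fin (m + 1)) = 1 then p.2
      else col (⟨1, h⟩, p)) = p.2
    rw [dif_neg (Ne.symm h01), if_pos rfl]
  have hfT : ∀ (i : Fin (m + 1)) (hi : i ≠ 0) (p : Fin m × Fin m),
      (W.kspace hm h01 o).T V (X (⟨i, hi⟩, p)) (cK (f i p)) := by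
    intro i hi p
    by_cases hi1 : i = 1
    · subst hi1
      rw [hf1]
      have he : X (⟨1, hi⟩, p) = cK p.2 := by
        apply Subtype.ext
        exact W.mt_unique (a := 0) (b := 1) h01 (u := o) (v := P p) (X (⟨1, hi⟩, p)).2
          (hX (⟨1, hi⟩, p)) (cK p.2).2 (W.col_symm (hP1 p))
      rw [he]
      exact (W.kspace hm h01 o).T_refl V _
    · have he : f i p = col (⟨i, hi⟩, p) := by
        show (if h : i = 0 then p.1 else if i = 1 then p.2 else col (⟨i, h⟩, p)) = _
        rw [dif_neg hi, if_neg hi1]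
      rw [he]
      exact hcolT (⟨i, hi⟩, p)
  have hclash : ∀ (i : Fin (m + 1)) (hi : i ≠ 0) (p q : Fin m × Fin m), f i p = f i q →
      (W.kspace hm h01 o).T V (X (⟨i, hi⟩, p)) (X (⟨i, hi⟩, q)) := by
    intro i hi p q h
    have h1 := hfT i hi p
    have h2 := hfT i hi q
    rw [← h] at h2
    exact (W.kspace hm h01 o).T_trans h1 ((W.kspace hm h01 o).T_symm h2)
  have hnofar : ∀ (i : Fin (m + 1)) (hi : i ≠ 0) (p q : Fin m × Fin m), f i p = f i q →
      ¬ W.Far 0 (X (⟨i, hi⟩, p)).1 (X (⟨i, hi⟩, q)).1 := by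
    intro i hi p q h hfar
    exact hV ((W.kspace hm h01 o).TE_null (hclash i hi p q h)
      ((W.kspace hm h01 o).far_E (show (W.kspace hm h01 o).far _ _ from hfar)))
  have hXcol : ∀ s t, W.Col 0 (X s).1 (X t).1 := fun s t =>
    W.col_trans (W.col_symm (X s).2) (X t).2
  -- no two classes, for a first point outside the row of `K`
  have honeaux : ∀ i j : Fin (m + 1), i ≠ j → i ≠ 0 → j ≠ 0 →
      ∀ p q : Fin m × Fin m, p.1 ≠ a0 → p.1 ≠ q.1 → p.2 ≠ q.2 →
      f i p = f i q → f j p = f j q → False := by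
    intro i j hij hi0 hj0 p q hp h h' hfi hfj
    have hoffi : ∀ (k : Fin (m + 1)) (hk : k ≠ 0), W.Far k (X (⟨k, hk⟩, p)).1 (P p) := by
      intro k hk
      exact W.far_proj (c := 1) (c' := k) (i := 0) h01.symm hk (hoff p hp)
        (W.col_symm (hX (⟨k, hk⟩, p)))
        (W.col_trans (W.col_symm (cK p.2).2) (X (⟨k, hk⟩, p)).2) (W.col_refl 0 (P p))
    exact W.no_two_classes hm (c := 0) (a := 1) (i := i) (j := j) h01 (Ne.symm hi0)
      (Ne.symm hj0) hij (X (⟨i, hi0⟩, p)).2 (X (⟨j, hj0⟩, p)).2 (hoffi i hi0) (hoffi j hj0)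
      (hneg p q h h') (X (⟨i, hi0⟩, q)).2 (X (⟨j, hj0⟩, q)).2
      (W.col_symm (hX (⟨i, hi0⟩, q))) (W.col_symm (hX (⟨j, hj0⟩, q))) hVn
      (hclash i hi0 q p hfi.symm) (hclash j hj0 q p hfj.symm)
  refine ⟨f, isNet_of_grid (by omega) f hf0 hf1 ?_ ?_ ?_⟩
  · -- rows
    intro i hi p q h1 hf
    by_contra hpq
    have h2 : p.2 ≠ q.2 := fun h2 => hpq (Prod.ext h1 h2)
    exact hnofar i hi p q hf (W.far_proj (c := 0) (c' := 0) (i := i) (Ne.symm hi) (Ne.symm hi)
      (hrowfar p q h1 h2) (hXcol _ _) (hX (⟨i, hi⟩, p)) (hX (⟨i, hi⟩, q)))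
  · -- columns
    intro i hi p q h2 hf
    by_contra hpq
    have h1 : p.1 ≠ q.1 := fun h1 => hpq (Prod.ext h1 h2)
    by_cases hi0 : i = 0
    · subst hi0
      rw [hf0, hf0] at hf
      exact h1 hf
    · exact hnofar i hi0 p q hf (W.far_proj (c := 1) (c' := 0) (i := i) (Ne.symm hi)
        (Ne.symm hi0) (hcolfar p q h2 h1) (hXcol _ _) (hX (⟨i, hi0⟩, p)) (hX (⟨i, hi0⟩, q)))
  · intro i j hij hi0 hi1 hj0 hj1 p q h1 h2 hfi hfj
    by_cases hp : p.1 = a0
    · have hq : q.1 ≠ a0 := fun hq => h1 (hp.trans hq.symm)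
      exact honeaux i j hij hi0 hj0 q p hq (Ne.symm h1) (Ne.symm h2) hfi.symm hfj.symm
    · exact honeaux i j hij hi0 hj0 p q hp h1 h2 hfi hfj

theorem no_WRep_six (W : WRep 6 D) (hD : ∃ u v, W.NE u v) : False := by
  obtain ⟨f, hf⟩ := W.exists_isNet le_rfl hD
  exact no_net_six hf

end WRep
end Pool.MP24331d
end
end

section

/-! The Lyndon algebras `L(m,0)` and their weak representations. -/

namespace Pool.MP24331d

/-- Elements of `L(m,0)`: sets of atoms. -/
abbrev Elt (m : ℕ) := Set (At m)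

/-- `θ` is a weak representation of `L(m,0)` over `D`: injective, and it preserves `0`, `1`,
meet, the identity, converse (trivial on the algebra) and composition. -/
structure IsWeakRep (m : ℕ) {D : Type*} (θ : Elt m → Set (D × D)) : Prop where
  inj : Function.Injective θ
  zero : θ ∅ = ∅
  one : θ Set.univ = Set.univ
  inter : ∀ x y, θ (x ∩ y) = θ x ∩ θ y
  id : θ {none} = {p | p.1 = p.2}
  conv : ∀ x, θ x = {p | (p.2, p.1) ∈ θ x}
  comp : ∀ x y, θ (comp x y) = {p | ∃ w, (p.1, w) ∈ θ x ∧ (w, p.2) ∈ θ y}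

namespace IsWeakRep

variable {m : ℕ} {D : Type*} {θ : Elt m → Set (D × D)} (h : IsWeakRep m θ)
include h

theorem mono {x y : Elt m} (hxy : x ⊆ y) : θ x ⊆ θ y := by
  have h1 : x ∩ y = x := Set.inter_eq_left.mpr hxy
  have h2 := h.inter x y
  rw [h1] at h2
  rw [h2]
  exact Set.inter_subset_right

theorem mem_sInter (p : D × D) (F : Set (Elt m)) (hF : ∀ x ∈ F, p ∈ θ x) : p ∈ θ (⋂₀ F) := by
  classical
  have hfin : F.Finite := Set.toFinite F
  induction F, hfin using Set.Finite.induction_on with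
  | empty => rw [Set.sInter_empty, h.one]; trivial
  | insert _ _ ih =>
    rw [Set.sInter_insert, h.inter]
    exact ⟨hF _ (Set.mem_insert _ _), ih fun x hx => hF x (Set.mem_insert_of_mem _ hx)⟩

end IsWeakRep

/-- The least element of the algebra whose relation contains `(u,v)`. -/
def labOf {m : ℕ} {D : Type*} (θ : Elt m → Set (D × D)) (u v : D) : Set (At m) :=
  ⋂₀ {x | (u, v) ∈ θ x}

namespace IsWeakRep

variable {m : ℕ} {D : Type*} {θ : Elt m → Set (D × D)} (h : IsWeakRep m θ)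
include h

theorem mem_lab (u v : D) : (u, v) ∈ θ (labOf θ u v) := h.mem_sInter _ _ fun _ hx => hx

theorem mem_iff (u v : D) (x : Elt m) : (u, v) ∈ θ x ↔ labOf θ u v ⊆ x :=
  ⟨fun hx => Set.sInter_subset_of_mem hx, fun hx => h.mono hx (h.mem_lab u v)⟩

/-- The labelled graph of a weak representation. -/
def toWRep : WRep m D where
  lab := labOf θ
  ne u v := by
    rw [Set.nonempty_iff_ne_empty]
    intro he
    have h1 := h.mem_lab u v
    rw [he, h.zero] at h1
    exact h1
  symm u v := by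
    have hc : ∀ x, (u, v) ∈ θ x ↔ (v, u) ∈ θ x := fun x => by
      conv_lhs => rw [h.conv x]
      rfl
    simp only [labOf, hc]
  refl u := by
    have h1 : labOf θ u u ⊆ {none} := (h.mem_iff u u _).1 (by rw [h.id]; rfl)
    have h2 : (labOf θ u u).Nonempty := by
      rw [Set.nonempty_iff_ne_empty]
      intro he
      have h1 := h.mem_lab u u
      rw [he, h.zero] at h1
      exact h1
    exact h2.subset_singleton_iff.1 h1
  eq_of u v hs := by
    have h1 := (h.mem_iff u v _).2 hs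
    rw [h.id] at h1
    exact h1
  pc u v w := by
    refine (h.mem_iff u w _).1 ?_
    rw [h.comp]
    exact ⟨v, h.mem_lab u v, h.mem_lab v w⟩
  ex u v S T hs := by
    have h1 := (h.mem_iff u v _).2 hs
    rw [h.comp] at h1
    obtain ⟨w, hw1, hw2⟩ := h1
    exact ⟨w, (h.mem_iff _ _ _).1 hw1, (h.mem_iff _ _ _).1 hw2⟩

end IsWeakRep

/-- The labelled graph of a weak representation, `lab u v = ⋂ {x | (u,v) ∈ θ x}`
(a finite algebra, so the intersection is again in the family). -/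
theorem exists_WRep {m : ℕ} {D : Type*} (θ : Elt m → Set (D × D)) (h : IsWeakRep m θ) :
    ∃ W : WRep m D, ∃ u v, W.NE u v := by
  have h1 : (θ {some 0}).Nonempty := by
    rw [Set.nonempty_iff_ne_empty]
    intro he
    rw [← h.zero] at he
    exact Set.singleton_ne_empty _ (h.inj he)
  obtain ⟨⟨u, v⟩, huv⟩ := h1
  refine ⟨h.toWRep, u, v, fun hn => ?_⟩
  have h2 : labOf θ u v ⊆ {some 0} := (h.mem_iff u v _).1 huv
  have h3 := h2 hn
  simp at h3

/-! ### Sanity checks: the algebra `L(m,0)` -/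

/-- `1' ; x = x`. -/
theorem id_comp {m : ℕ} (x : Elt m) : comp {none} x = x := by
  ext z
  simp [comp, cyc]

/-- `x ; 1' = x`. -/
theorem comp_id {m : ℕ} (x : Elt m) : comp x {none} = x := by
  ext z
  constructor
  · rintro ⟨a, ha, b, hb, hc⟩
    obtain rfl : b = none := hb
    cases a with
    | none => simp only [cyc] at hc; rw [hc]; exact ha
    | some i => simp only [cyc] at hc; rw [hc]; exact ha
  · intro hz
    refine ⟨z, hz, none, rfl, ?_⟩
    cases z <;> simp [cyc]

/-- `a_i ; a_i = 1' + a_i`. -/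
theorem comp_self {m : ℕ} (i : Fin (m + 1)) :
    comp {some i} {some i} = ({none, some i} : Elt m) := by
  ext z
  cases z with
  | none => simp [comp, cyc]
  | some k => simp [comp, cyc]

/-- `a_i ; a_j` is the union of all `a_k` with `k ≠ i, j`, for `i ≠ j`. -/
theorem comp_ne {m : ℕ} {i j : Fin (m + 1)} (hij : i ≠ j) :
    comp {some i} {some j} = ({z | z ≠ none ∧ z ≠ some i ∧ z ≠ some j} : Elt m) := by
  ext z
  cases z with
  | none => simp [comp, cyc, hij]
  | some k => simp [comp, cyc, hij]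

/-- The cycles are invariant under all permutations (all atoms are self-converse). -/
theorem cyc_comm {m : ℕ} (x y z : At m) : cyc x y z ↔ cyc y x z := by
  rcases x with _ | i <;> rcases y with _ | j <;> rcases z with _ | k
  · simp [cyc]
  · simp [cyc]
  · simp [cyc]
  · simp [cyc]
  · simp [cyc]
  · simp [cyc]
  · simp only [cyc]; exact eq_comm
  · simp only [cyc]
    by_cases hij : i = j
    · subst hij; simp
    · have hji : j ≠ i := fun h => hij h.symm
      simp only [if_neg hij, if_neg hji]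
      exact and_comm

theorem cyc_rot {m : ℕ} (x y z : At m) : cyc x y z ↔ cyc y z x := by
  rcases x with _ | i <;> rcases y with _ | j <;> rcases z with _ | k
  · simp [cyc]
  · simp [cyc]
  · simp [cyc]
  · simp only [cyc, Option.some.injEq]; exact eq_comm
  · simp [cyc]
  · simp only [cyc, Option.some.injEq]; exact eq_comm
  · simp only [cyc, Option.some.injEq]
  · simp only [cyc]
    by_cases hij : i = j
    · subst hij
      by_cases hik : i = k
      · subst hik; simp
      · have hki : k ≠ i := fun h => hik h.symm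
        simp [hik, hki]
    · by_cases hjk : j = k
      · subst hjk
        simp [hij]
      · simp only [if_neg hij, if_neg hjk]
        constructor
        · rintro ⟨h1, h2⟩; exact ⟨hij, fun h => h1 h.symm⟩
        · rintro ⟨h1, h2⟩; exact ⟨fun h => h2 h.symm, fun h => hjk h.symm⟩

theorem exists_ne3 {m : ℕ} (hm : 3 ≤ m) (i j k : Fin (m + 1)) : ∃ e, e ≠ i ∧ e ≠ j ∧ e ≠ k := by
  classical
  by_contra hc
  push Not at hc
  have h1 : (Finset.univ : Finset (Fin (m + 1))) ⊆ {i, j, k} := by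
    intro e _
    by_cases h1 : e = i
    · simp [h1]
    by_cases h2 : e = j
    · simp [h2]
    simp [hc e h1 h2]
  have h2 := Finset.card_le_card h1
  have h3 : ({i, j, k} : Finset (Fin (m + 1))).card ≤ 3 := Finset.card_le_three
  simp only [Finset.card_univ, Fintype.card_fin] at h2
  omega

/-- Associativity on atoms (one inclusion; the other one follows by commutativity). -/
theorem cyc_assoc {m : ℕ} (hm : 3 ≤ m) {a b c d e : At m} (h1 : cyc a b e) (h2 : cyc e c d) :
    ∃ f, cyc b c f ∧ cyc a f d := by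
  rcases a with _ | i
  · obtain rfl : e = b := by simpa [cyc] using h1
    exact ⟨d, h2, by simp [cyc]⟩
  rcases b with _ | j
  · obtain rfl : e = some i := by simpa [cyc] using h1
    exact ⟨c, by simp [cyc], h2⟩
  rcases c with _ | k
  · have h3 : d = e := by
      cases e <;> simpa [cyc] using h2
    subst h3
    exact ⟨some j, by simp [cyc], h1⟩
  rcases d with _ | l
  · have h3 : e = some k := by
      cases e with
      | none => simp [cyc] at h2
      | some e => simp only [cyc] at h2; rw [h2]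
    subst h3
    refine ⟨some i, (cyc_rot _ _ _).1 h1, by simp [cyc]⟩
  rcases e with _ | e
  · obtain rfl : i = j := by simpa [cyc] using h1
    obtain rfl : l = k := by simpa [cyc] using h2
    by_cases hil : i = l
    · subst hil
      exact ⟨some i, by simp [cyc], by simp [cyc]⟩
    · obtain ⟨f, hf1, hf2, -⟩ := exists_ne3 hm i l l
      refine ⟨some f, ?_, ?_⟩
      · simp only [cyc, if_neg hil]; exact ⟨hf1, hf2⟩
      · simp only [cyc, if_neg (Ne.symm hf1)]
        exact ⟨fun h => hil h.symm, fun h => hf2 h.symm⟩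
  · simp only [cyc] at h1 h2
    by_cases hij : i = j
    · subst hij
      simp only [if_true] at h1
      subst h1
      by_cases hek : e = k
      · subst hek
        simp only [if_true] at h2
        subst h2
        exact ⟨none, by simp [cyc], by simp [cyc]⟩
      · simp only [if_neg hek] at h2
        obtain ⟨f, hf1, hf2, hf3⟩ := exists_ne3 hm e k l
        refine ⟨some f, ?_, ?_⟩
        · simp only [cyc, if_neg hek]; exact ⟨hf1, hf2⟩
        · simp only [cyc, if_neg (Ne.symm hf1)]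
          exact ⟨h2.1, fun h => hf3 h.symm⟩
    · simp only [if_neg hij] at h1
      by_cases hek : e = k
      · subst hek
        simp only [if_true] at h2
        subst h2
        obtain ⟨f, hf1, hf2, hf3⟩ := exists_ne3 hm i j l
        refine ⟨some f, ?_, ?_⟩
        · simp only [cyc, if_neg (Ne.symm h1.2)]; exact ⟨hf2, hf3⟩
        · simp only [cyc, if_neg (Ne.symm hf1)]
          exact ⟨h1.1, fun h => hf3 h.symm⟩
      · simp only [if_neg hek] at h2
        by_cases hjk : j = k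
        · subst hjk
          by_cases hil : i = l
          · subst hil
            exact ⟨none, by simp [cyc], by simp [cyc]⟩
          · refine ⟨some j, by simp [cyc], ?_⟩
            simp only [cyc, if_neg hij]
            exact ⟨fun h => hil h.symm, h2.2⟩
        · by_cases hil : i = l
          · subst hil
            refine ⟨some i, ?_, by simp [cyc]⟩
            simp only [cyc, if_neg hjk]
            exact ⟨hij, h2.2⟩
          · refine ⟨some e, ?_, ?_⟩
            · simp only [cyc, if_neg hjk]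
              exact ⟨h1.2, hek⟩
            · simp only [cyc, if_neg (Ne.symm h1.1)]
              exact ⟨fun h => hil h.symm, h2.1⟩

/-- Commutativity of the composition. -/
theorem comp_comm {m : ℕ} (x y : Elt m) : comp x y = comp y x := by
  ext z
  constructor <;>
  · rintro ⟨a, ha, b, hb, hc⟩
    exact ⟨b, hb, a, ha, (cyc_comm _ _ _).1 hc⟩

theorem comp_assoc_sub {m : ℕ} (hm : 3 ≤ m) (x y z : Elt m) :
    comp (comp x y) z ⊆ comp x (comp y z) := by
  rintro d ⟨e, ⟨a, ha, b, hb, h1⟩, c, hc, h2⟩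
  obtain ⟨f, hf1, hf2⟩ := cyc_assoc hm h1 h2
  exact ⟨a, ha, f, ⟨b, hb, c, hc, hf1⟩, hf2⟩

/-- `(x ; y) ; z = x ; (y ; z)`. -/
theorem comp_assoc {m : ℕ} (hm : 3 ≤ m) (x y z : Elt m) :
    comp (comp x y) z = comp x (comp y z) := by
  apply Set.Subset.antisymm (comp_assoc_sub hm x y z)
  rw [comp_comm x (comp y z), comp_comm y z, comp_comm (comp x y) z, comp_comm x y]
  exact comp_assoc_sub hm z y x

/-- The Peircean law: `(x ; y) ∩ z = ∅` iff `(x ; z) ∩ y = ∅` (the converse is trivial). -/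
theorem peirce {m : ℕ} (x y z : Elt m) : comp x y ∩ z = ∅ ↔ comp x z ∩ y = ∅ := by
  simp only [← Set.disjoint_iff_inter_eq_empty, Set.disjoint_left]
  constructor
  · rintro h d ⟨a, ha, b, hb, hc⟩ hd
    exact h ⟨a, ha, d, hd, (cyc_comm _ _ _).1 ((cyc_rot _ _ _).2 ((cyc_comm _ _ _).1
      ((cyc_rot _ _ _).1 ((cyc_comm _ _ _).1 ((cyc_rot _ _ _).1 hc)))))⟩ hb
  · rintro h d ⟨a, ha, b, hb, hc⟩ hd
    exact h ⟨a, ha, d, hd, (cyc_comm _ _ _).1 ((cyc_rot _ _ _).2 ((cyc_comm _ _ _).1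
      ((cyc_rot _ _ _).1 ((cyc_comm _ _ _).1 ((cyc_rot _ _ _).1 hc)))))⟩ hb

end Pool.MP24331d
end
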